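import Mathlib

set_option autoImplicit false

/-! Dirichlet restrictions of a discrete Schrödinger operator to finite intervals. -/

namespace Pool.Agent.N658.PP

/-- the difference operator with potential `v` -/
def H (v u : ℤ → ℝ) (x : ℤ) : ℝ := u (x + 1) + u (x - 1) + v x * u x

/-- `u` vanishes outside `[a, b)` -/
def Supp (a b : ℤ) (u : ℤ → ℝ) : Prop := ∀ x, x < a ∨ b ≤ x → u x = 0

/-- `u` is a Dirichlet eigenfunction on `[a, b)` with energy `E` -/
def IsEig (v : ℤ → ℝ) (a b : ℤ) (E : ℝ) (u : ℤ → ℝ) : Prop :=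
  Supp a b u ∧ (∀ x, a ≤ x → x < b → H v u x = E * u x) ∧ ∃ x, u x ≠ 0

/-- the Dirichlet spectrum of `[a, b)` -/
def Spec (v : ℤ → ℝ) (a b : ℤ) : Set ℝ := {E | ∃ u, IsEig v a b E u}

/-- the Dirichlet matrix of `[a, b)` -/
def dmat (v : ℤ → ℝ) (a b : ℤ) : Matrix (Finset.Ico a b) (Finset.Ico a b) ℝ :=
  Matrix.of fun x y => (if (y : ℤ) = x then v x else 0) + (if (y : ℤ) = x + 1 then 1 else 0)
    + (if (y : ℤ) = x - 1 then 1 else 0)

lemma dmat_herm (v : ℤ → ℝ) (a b : ℤ) : (dmat v a b).IsHermitian := by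
  ext x y
  simp only [Matrix.conjTranspose_apply, dmat, Matrix.of_apply, star_trivial]
  have h1 : ((x : ℤ) = y) ↔ ((y : ℤ) = x) := eq_comm
  have h2 : ((x : ℤ) = y + 1) ↔ ((y : ℤ) = x - 1) := by constructor <;> intro h <;> omega
  have h3 : ((x : ℤ) = y - 1) ↔ ((y : ℤ) = x + 1) := by constructor <;> intro h <;> omega
  by_cases h : (y : ℤ) = x
  · rw [h]
  · simp only [h1, h2, h3, h, if_false]
    ring

lemma dmat_mul (v : ℤ → ℝ) (a b : ℤ) (w : ℤ → ℝ) (hw : Supp a b w) (x : Finset.Ico a b) :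
    ∑ y : Finset.Ico a b, dmat v a b x y * w y = H v w x := by
  have h0 : ∑ y : Finset.Ico a b, dmat v a b x y * w y = ∑ y ∈ Finset.Ico a b,
      (((if y = x then v x else 0) + (if y = (x : ℤ) + 1 then 1 else 0)
      + (if y = (x : ℤ) - 1 then 1 else 0)) * w y) :=
    Finset.sum_coe_sort (Finset.Ico a b)
      (fun y : ℤ => ((if y = x then v x else 0) + (if y = (x : ℤ) + 1 then 1 else 0)
      + (if y = (x : ℤ) - 1 then 1 else 0)) * w y)
  rw [h0]
  simp only [add_mul, ite_mul, zero_mul, one_mul, Finset.sum_add_distrib, Finset.sum_ite_eq']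
  have hx := Finset.mem_Ico.mp x.2
  have e1 : (if (x : ℤ) + 1 ∈ Finset.Ico a b then w (x + 1) else 0) = w (x + 1) := by
    by_cases h : (x : ℤ) + 1 ∈ Finset.Ico a b
    · rw [if_pos h]
    · rw [if_neg h, hw]
      rw [Finset.mem_Ico] at h
      omega
  have e2 : (if (x : ℤ) - 1 ∈ Finset.Ico a b then w (x - 1) else 0) = w (x - 1) := by
    by_cases h : (x : ℤ) - 1 ∈ Finset.Ico a b
    · rw [if_pos h]
    · rw [if_neg h, hw]
      rw [Finset.mem_Ico] at h
      omega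
  rw [e1, e2, if_pos x.2, H]
  ring

/-- The spectral theorem for the Dirichlet matrix, in coordinates. -/
theorem fs (v : ℤ → ℝ) (a b : ℤ) : ∃ (E : Finset.Ico a b → ℝ) (φ : Finset.Ico a b → ℤ → ℝ),
    (∀ k, Supp a b (φ k)) ∧
    (∀ k x, a ≤ x → x < b → H v (φ k) x = E k * φ k x) ∧
    (∀ k l, ∑ x ∈ Finset.Ico a b, φ k x * φ l x = if k = l then 1 else 0) ∧
    (∀ x ∈ Finset.Ico a b, ∀ y ∈ Finset.Ico a b, ∑ k, φ k x * φ k y = if x = y then 1 else 0) := by
  classical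
  set hA := dmat_herm v a b
  set B := hA.eigenvectorBasis with hB
  set φ : Finset.Ico a b → ℤ → ℝ := fun k x => if h : x ∈ Finset.Ico a b then B k ⟨x, h⟩ else 0
    with hφ
  have hφ1 : ∀ k (x : Finset.Ico a b), φ k x = B k x := by
    intro k x
    simp only [hφ]
    rw [dif_pos x.2]
  have hsupp : ∀ k, Supp a b (φ k) := by
    intro k x hx
    simp only [hφ]
    rw [dif_neg]
    rw [Finset.mem_Ico]
    omega
  refine ⟨hA.eigenvalues, φ, hsupp, ?_, ?_, ?_⟩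
  · intro k x hx1 hx2
    have hx : x ∈ Finset.Ico a b := Finset.mem_Ico.mpr ⟨hx1, hx2⟩
    have h1 := dmat_mul v a b (φ k) (hsupp k) ⟨x, hx⟩
    have h2 := congrFun (hA.mulVec_eigenvectorBasis k) ⟨x, hx⟩
    simp only [Matrix.mulVec, dotProduct, Pi.smul_apply, smul_eq_mul] at h2
    rw [← h1]
    have h3 := hφ1 k ⟨x, hx⟩
    simp only at h3
    rw [h3]
    rw [← h2]
    refine Finset.sum_congr rfl fun y _ => ?_
    rw [hφ1]
  · intro k l
    have h1 := (orthonormal_iff_ite.mp B.orthonormal) k l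
    rw [← h1]
    rw [← Finset.sum_coe_sort (Finset.Ico a b) (fun x : ℤ => φ k x * φ l x)]
    rw [PiLp.inner_apply]
    refine Finset.sum_congr rfl fun y _ => ?_
    rw [hφ1, hφ1]
    simp [mul_comm]
  · intro x hx y hy
    have h1 := B.sum_inner_mul_inner (EuclideanSpace.single ⟨x, hx⟩ (1 : ℝ))
      (EuclideanSpace.single ⟨y, hy⟩ (1 : ℝ))
    have h2 : ∀ k, inner ℝ (EuclideanSpace.single (⟨x, hx⟩ : Finset.Ico a b) (1 : ℝ)) (B k) = φ k x := by
      intro k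
      rw [EuclideanSpace.inner_single_left]
      have := hφ1 k ⟨x, hx⟩
      simp only at this
      rw [this]; simp
    have h3 : ∀ k, inner ℝ (B k) (EuclideanSpace.single (⟨y, hy⟩ : Finset.Ico a b) (1 : ℝ)) = φ k y := by
      intro k
      rw [EuclideanSpace.inner_single_right]
      have := hφ1 k ⟨y, hy⟩
      simp only at this
      rw [this]; simp
    simp only [h2, h3] at h1
    rw [h1, EuclideanSpace.inner_single_left]
    by_cases hxy : x = y
    · subst hxy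
      simp
    · rw [if_neg hxy]
      simp [hxy]

/-- a complete orthonormal system of Dirichlet eigenfunctions of `[a, b)` -/
structure Sys (v : ℤ → ℝ) (a b : ℤ) where
  E : Finset.Ico a b → ℝ
  φ : Finset.Ico a b → ℤ → ℝ
  supp : ∀ k, Supp a b (φ k)
  eq : ∀ k x, a ≤ x → x < b → H v (φ k) x = E k * φ k x
  orth : ∀ k l, ∑ x ∈ Finset.Ico a b, φ k x * φ l x = if k = l then 1 else 0
  comp : ∀ x ∈ Finset.Ico a b, ∀ y ∈ Finset.Ico a b,
    ∑ k, φ k x * φ k y = if x = y then 1 else 0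

theorem exists_sys (v : ℤ → ℝ) (a b : ℤ) : Nonempty (Sys v a b) := by
  obtain ⟨E, φ, h1, h2, h3, h4⟩ := fs v a b
  exact ⟨⟨E, φ, h1, h2, h3, h4⟩⟩

namespace Sys

variable {v : ℤ → ℝ} {a b : ℤ} (S : Sys v a b)

lemma parseval (w : ℤ → ℝ) :
    ∑ k, (∑ y ∈ Finset.Ico a b, S.φ k y * w y) ^ 2 = ∑ y ∈ Finset.Ico a b, w y ^ 2 := by
  have h1 : ∀ k, (∑ y ∈ Finset.Ico a b, S.φ k y * w y) ^ 2 =
      ∑ x ∈ Finset.Ico a b, ∑ y ∈ Finset.Ico a b, (S.φ k x * S.φ k y) * (w x * w y) := by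
    intro k
    rw [pow_two, Finset.sum_mul_sum]
    refine Finset.sum_congr rfl fun x _ => Finset.sum_congr rfl fun y _ => by ring
  simp only [h1]
  rw [Finset.sum_comm]
  refine Finset.sum_congr rfl fun x hx => ?_
  rw [Finset.sum_comm]
  have h2 : ∀ y ∈ Finset.Ico a b, ∑ k, (S.φ k x * S.φ k y) * (w x * w y)
      = (if x = y then 1 else 0) * (w x * w y) := by
    intro y hy
    rw [← Finset.sum_mul, S.comp x hx y hy]
  rw [Finset.sum_congr rfl h2]
  simp only [ite_mul, one_mul, zero_mul, Finset.sum_ite_eq, if_pos hx]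
  ring

lemma expandC (w : ℤ → ℂ) (x : ℤ) (hx : x ∈ Finset.Ico a b) :
    w x = ∑ k, (S.φ k x : ℂ) * ∑ y ∈ Finset.Ico a b, (S.φ k y : ℂ) * w y := by
  have h1 : ∀ k, (S.φ k x : ℂ) * ∑ y ∈ Finset.Ico a b, (S.φ k y : ℂ) * w y =
      ∑ y ∈ Finset.Ico a b, ((S.φ k x * S.φ k y : ℝ) : ℂ) * w y := by
    intro k
    rw [Finset.mul_sum]
    refine Finset.sum_congr rfl fun y _ => by push_cast; ring
  simp only [h1]
  rw [Finset.sum_comm]
  have h2 : ∀ y ∈ Finset.Ico a b, ∑ k, ((S.φ k x * S.φ k y : ℝ) : ℂ) * w y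
      = (if x = y then 1 else 0) * w y := by
    intro y hy
    rw [← Finset.sum_mul, ← Complex.ofReal_sum, S.comp x hx y hy]
    split_ifs <;> simp
  rw [Finset.sum_congr rfl h2]
  simp only [ite_mul, one_mul, zero_mul, Finset.sum_ite_eq, if_pos hx]

end Sys

lemma H_symm (v : ℤ → ℝ) (a b : ℤ) (w u : ℤ → ℝ) (hw : Supp a b w) (hu : Supp a b u) :
    ∑ x ∈ Finset.Ico a b, H v w x * u x = ∑ x ∈ Finset.Ico a b, w x * H v u x := by
  rw [← Finset.sum_coe_sort (Finset.Ico a b) (fun x : ℤ => H v w x * u x),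
    ← Finset.sum_coe_sort (Finset.Ico a b) (fun x : ℤ => w x * H v u x)]
  have h1 : ∀ x : Finset.Ico a b, H v w x * u x = ∑ y : Finset.Ico a b,
      dmat v a b x y * (w y * u x) := by
    intro x
    rw [← dmat_mul v a b w hw x, Finset.sum_mul]
    refine Finset.sum_congr rfl fun y _ => by ring
  have h2 : ∀ x : Finset.Ico a b, w x * H v u x = ∑ y : Finset.Ico a b,
      dmat v a b x y * (w x * u y) := by
    intro x
    rw [← dmat_mul v a b u hu x, Finset.mul_sum]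
    refine Finset.sum_congr rfl fun y _ => by ring
  simp only [h1, h2]
  rw [Finset.sum_comm]
  refine Finset.sum_congr rfl fun x _ => Finset.sum_congr rfl fun y _ => ?_
  have h3 : dmat v a b y x = dmat v a b x y := by
    have := (dmat_herm v a b).apply x y
    simpa using this
  rw [h3]

/-- an approximate eigenfunction forces an eigenvalue nearby -/
theorem Sys.near {v : ℤ → ℝ} {a b : ℤ} (S : Sys v a b) (w : ℤ → ℝ) (e ε : ℝ) (hw : Supp a b w)
    (hne : ∃ x, w x ≠ 0) (hε : 0 ≤ ε)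
    (h : ∑ x ∈ Finset.Ico a b, (H v w x - e * w x) ^ 2 ≤ ε ^ 2 * ∑ x ∈ Finset.Ico a b, w x ^ 2) :
    ∃ k, |S.E k - e| ≤ ε := by
  by_contra hcon
  push Not at hcon
  set c : Finset.Ico a b → ℝ := fun k => ∑ y ∈ Finset.Ico a b, S.φ k y * w y with hc
  have h1 : ∀ k, ∑ y ∈ Finset.Ico a b, S.φ k y * (H v w y - e * w y) = (S.E k - e) * c k := by
    intro k
    have h2 := H_symm v a b w (S.φ k) hw (S.supp k)
    have h3 : ∑ x ∈ Finset.Ico a b, w x * H v (S.φ k) x = S.E k * c k := by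
      rw [hc, Finset.mul_sum]
      refine Finset.sum_congr rfl fun x hx => ?_
      rw [Finset.mem_Ico] at hx
      rw [S.eq k x hx.1 hx.2]; ring
    rw [sub_mul, ← h3, ← h2, hc, Finset.mul_sum, ← Finset.sum_sub_distrib]
    refine Finset.sum_congr rfl fun x _ => by ring
  have h4 := S.parseval (fun y => H v w y - e * w y)
  simp only [h1] at h4
  have h5 := S.parseval w
  rw [← h4, ← h5, Finset.mul_sum] at h
  have h6 : ∀ k, ε ^ 2 * c k ^ 2 ≤ ((S.E k - e) * c k) ^ 2 := by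
    intro k
    rw [mul_pow]
    have : ε ^ 2 ≤ (S.E k - e) ^ 2 := by
      rw [← sq_abs (S.E k - e)]
      exact pow_le_pow_left₀ hε (hcon k).le 2
    exact mul_le_mul_of_nonneg_right this (sq_nonneg _)
  have h7 : ∀ k, c k = 0 := by
    by_contra h8
    push Not at h8
    obtain ⟨k, hk⟩ := h8
    have h9 : ∑ k, ε ^ 2 * c k ^ 2 < ∑ k, ((S.E k - e) * c k) ^ 2 := by
      refine Finset.sum_lt_sum (fun k _ => h6 k) ⟨k, Finset.mem_univ _, ?_⟩
      rw [mul_pow]
      have : ε ^ 2 < (S.E k - e) ^ 2 := by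
        rw [← sq_abs (S.E k - e)]
        exact pow_lt_pow_left₀ (hcon k) hε (by norm_num)
      exact mul_lt_mul_of_pos_right this (by positivity)
    exact absurd h (not_le.mpr h9)
  obtain ⟨x, hx⟩ := hne
  have hxm : x ∈ Finset.Ico a b := by
    by_contra hx'
    apply hx
    apply hw
    rw [Finset.mem_Ico] at hx'
    omega
  have h10 : ∑ y ∈ Finset.Ico a b, w y ^ 2 = 0 := by
    rw [← h5]
    refine Finset.sum_eq_zero fun k _ => ?_
    have := h7 k
    rw [hc] at this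
    simp only at this
    rw [this]; norm_num
  have h11 := (Finset.sum_eq_zero_iff_of_nonneg (fun y _ => sq_nonneg (w y))).mp h10 x hxm
  exact hx (pow_eq_zero_iff (by norm_num) |>.mp h11)

lemma Sys.mem_spec {v : ℤ → ℝ} {a b : ℤ} (S : Sys v a b) (k : Finset.Ico a b) :
    S.E k ∈ Spec v a b := by
  refine ⟨S.φ k, S.supp k, S.eq k, ?_⟩
  by_contra h
  push Not at h
  have := S.orth k k
  simp [h] at this

lemma Sys.of_mem_spec {v : ℤ → ℝ} {a b : ℤ} (S : Sys v a b) {e : ℝ} (h : e ∈ Spec v a b) :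
    ∃ k, S.E k = e := by
  obtain ⟨u, hu, he, hne⟩ := h
  obtain ⟨k, hk⟩ := S.near u e 0 hu hne le_rfl (by
    have : ∀ x ∈ Finset.Ico a b, (H v u x - e * u x) ^ 2 = 0 := by
      intro x hx
      rw [Finset.mem_Ico] at hx
      rw [he x hx.1 hx.2]; ring
    rw [Finset.sum_eq_zero this]; simp)
  refine ⟨k, ?_⟩
  have := abs_nonpos_iff.mp hk
  linarith

/-- distance form of `Sys.near` -/
lemma spec_near {v : ℤ → ℝ} {a b : ℤ} (w : ℤ → ℝ) (e ε : ℝ) (hw : Supp a b w)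
    (hne : ∃ x, w x ≠ 0) (hε : 0 ≤ ε)
    (h : ∑ x ∈ Finset.Ico a b, (H v w x - e * w x) ^ 2 ≤ ε ^ 2 * ∑ x ∈ Finset.Ico a b, w x ^ 2) :
    ∃ e' ∈ Spec v a b, |e' - e| ≤ ε := by
  obtain ⟨S⟩ := exists_sys v a b
  obtain ⟨k, hk⟩ := S.near w e ε hw hne hε h
  exact ⟨S.E k, S.mem_spec k, hk⟩

lemma spec_perturb {v v' : ℤ → ℝ} {a b : ℤ} {η e : ℝ} (hη : 0 ≤ η)
    (hv : ∀ x, a ≤ x → x < b → |v x - v' x| ≤ η) (he : e ∈ Spec v' a b) :
    ∃ e' ∈ Spec v a b, |e' - e| ≤ η := by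
  obtain ⟨u, hu, hue, hne⟩ := he
  refine spec_near u e η hu hne hη ?_
  rw [Finset.mul_sum]
  refine Finset.sum_le_sum fun x hx => ?_
  rw [Finset.mem_Ico] at hx
  have h1 := hue x hx.1 hx.2
  have h2 : H v u x - e * u x = (v x - v' x) * u x := by
    rw [← h1]; unfold H; ring
  rw [h2, mul_pow]
  refine mul_le_mul_of_nonneg_right ?_ (sq_nonneg _)
  rw [← sq_abs (v x - v' x)]
  exact pow_le_pow_left₀ (abs_nonneg _) (hv x hx.1 hx.2) 2

lemma spec_shift {v : ℤ → ℝ} {a b m : ℤ} {e : ℝ} (he : e ∈ Spec (fun x => v (x + m)) a b) :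
    e ∈ Spec v (a + m) (b + m) := by
  obtain ⟨u, hu, hue, x, hx⟩ := he
  refine ⟨fun x => u (x - m), ?_, ?_, x + m, by simpa using hx⟩
  · intro y hy
    apply hu
    omega
  · intro y h1 h2
    have := hue (y - m) (by omega) (by omega)
    simp only [H] at this ⊢
    rw [show y - m + m = y by ring] at this
    rw [show y + 1 - m = y - m + 1 by ring, show y - 1 - m = y - m - 1 by ring]
    exact this

lemma spec_congr {v v' : ℤ → ℝ} {a b : ℤ} {e : ℝ} (h : ∀ x, a ≤ x → x < b → v x = v' x)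
    (he : e ∈ Spec v a b) : e ∈ Spec v' a b := by
  obtain ⟨u, hu, hue, hne⟩ := he
  refine ⟨u, hu, fun x h1 h2 => ?_, hne⟩
  rw [← hue x h1 h2, H, H, h x h1 h2]

lemma spec_lt {v : ℤ → ℝ} {a b : ℤ} {e : ℝ} (he : e ∈ Spec v a b) : a < b := by
  obtain ⟨u, hu, -, x, hx⟩ := he
  by_contra h
  exact hx (hu x (by omega))

lemma spec_const {v : ℤ → ℝ} {a b : ℤ} {e t : ℝ} (he : e ∈ Spec (fun x => v x + t) a b) :
    e - t ∈ Spec v a b := by
  obtain ⟨u, hu, hue, hne⟩ := he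
  refine ⟨u, hu, fun x h1 h2 => ?_, hne⟩
  have := hue x h1 h2
  simp only [H] at this ⊢
  linarith

/-- separation of the spectra of disjoint intervals in a stretch of length `M` -/
def Sep (v : ℤ → ℝ) (M : ℤ) (g : ℝ) : Prop :=
  ∀ a b a' b' : ℤ, a ≤ b → b ≤ a' → a' ≤ b' → b' ≤ a + M →
    ∀ e ∈ Spec v a b, ∀ e' ∈ Spec v a' b', g ≤ |e - e'|

lemma Sep.perturb {v v' : ℤ → ℝ} {M : ℤ} {g η : ℝ} (h : Sep v M g) (hη : 0 ≤ η)
    (hv : ∀ x, |v x - v' x| ≤ η) : Sep v' M (g - 2 * η) := by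
  intro a b a' b' h1 h2 h3 h4 e he e' he'
  obtain ⟨f, hf, hf1⟩ := spec_perturb hη (fun x _ _ => hv x) he
  obtain ⟨f', hf', hf1'⟩ := spec_perturb hη (fun x _ _ => hv x) he'
  have := h a b a' b' h1 h2 h3 h4 f hf f' hf'
  rw [abs_le] at hf1 hf1'
  rw [le_abs] at this ⊢
  rcases this with h5 | h5
  · left; linarith
  · right; linarith

lemma Sep.shift {v : ℤ → ℝ} {M : ℤ} {g : ℝ} (h : Sep v M g) (m : ℤ) :
    Sep (fun x => v (x + m)) M g := by
  intro a b a' b' h1 h2 h3 h4 e he e' he'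
  exact h (a + m) (b + m) (a' + m) (b' + m) (by omega) (by omega) (by omega) (by omega)
    e (spec_shift he) e' (spec_shift he')

lemma Sep.mono {v : ℤ → ℝ} {M : ℤ} {g g' : ℝ} (h : Sep v M g) (hg : g' ≤ g) : Sep v M g' :=
  fun a b a' b' h1 h2 h3 h4 e he e' he' => hg.trans (h a b a' b' h1 h2 h3 h4 e he e' he')

end Pool.Agent.N658.PP
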