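import Mathlib

set_option autoImplicit false

/-! Transfer matrices, opening of a gap at a given energy by a small periodic perturbation, and
the decay of solutions across a barrier. -/

namespace Pool.Agent.N658.PP

open Matrix

/-- one-step transfer matrix -/
def A (z : ℝ) : Matrix (Fin 2) (Fin 2) ℝ := !![z, -1; 1, 0]

/-- transfer matrix from `x` to `x + k` -/
def T (w : ℤ → ℝ) (x : ℤ) : ℕ → Matrix (Fin 2) (Fin 2) ℝ
  | 0 => 1
  | k + 1 => A (w (x + k)) * T w x k

lemma T_zero (w : ℤ → ℝ) (x : ℤ) : T w x 0 = 1 := rfl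

lemma T_succ (w : ℤ → ℝ) (x : ℤ) (k : ℕ) : T w x (k + 1) = A (w (x + k)) * T w x k := rfl

lemma A_det (z : ℝ) : (A z).det = 1 := by
  simp [A, Matrix.det_fin_two]

lemma T_det (w : ℤ → ℝ) (x : ℤ) (k : ℕ) : (T w x k).det = 1 := by
  induction k with
  | zero => simp [T_zero]
  | succ k ih => rw [T_succ, Matrix.det_mul, ih, A_det, one_mul]

lemma T_add (w : ℤ → ℝ) (x : ℤ) (j k : ℕ) : T w x (j + k) = T w (x + j) k * T w x j := by
  induction k with
  | zero => simp [T_zero]
  | succ k ih =>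
    rw [← add_assoc, T_succ, ih, T_succ, Matrix.mul_assoc]
    congr 3
    push_cast; ring

lemma T_congr (w w' : ℤ → ℝ) (x : ℤ) (k : ℕ) (h : ∀ y, x ≤ y → y < x + k → w y = w' y) :
    T w x k = T w' x k := by
  induction k with
  | zero => simp [T_zero]
  | succ k ih =>
    rw [T_succ, T_succ, ih (fun y h1 h2 => h y h1 (by push_cast; omega)),
      h (x + k) (by omega) (by push_cast; omega)]

lemma T_shift (w : ℤ → ℝ) (x m : ℤ) (k : ℕ) : T (fun y => w (y + m)) x k = T w (x + m) k := by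
  induction k with
  | zero => simp [T_zero]
  | succ k ih =>
    rw [T_succ, T_succ, ih]
    congr 3
    ring

lemma T_entries (w : ℤ → ℝ) (x : ℤ) (k : ℕ) (j : Fin 2) :
    T w x (k + 1) 0 j = w (x + k) * T w x k 0 j - T w x k 1 j ∧
    T w x (k + 1) 1 j = T w x k 0 j := by
  rw [T_succ]
  constructor
  · simp [A, Matrix.mul_apply, Fin.sum_univ_two]
    ring
  · simp [A, Matrix.mul_apply, Fin.sum_univ_two]

/-- solutions are propagated by transfer matrices -/
lemma T_sol (w u : ℤ → ℝ) (x : ℤ) (k : ℕ)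
    (h : ∀ y, x ≤ y → y < x + k → u (y + 1) + u (y - 1) = w y * u y) :
    u (x + k) = T w x k 0 0 * u x + T w x k 0 1 * u (x - 1) ∧
    u (x + k - 1) = T w x k 1 0 * u x + T w x k 1 1 * u (x - 1) := by
  induction k with
  | zero => simp [T_zero]
  | succ k ih =>
    obtain ⟨h1, h2⟩ := ih (fun y h1 h2 => h y h1 (by push_cast; omega))
    have h3 := h (x + k) (by omega) (by push_cast; omega)
    obtain ⟨e1, e2⟩ := T_entries w x k 0
    obtain ⟨e3, e4⟩ := T_entries w x k 1
    rw [e1, e2, e3, e4]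
    refine ⟨?_, ?_⟩
    · push_cast
      rw [show x + (k + 1 : ℤ) = x + k + 1 by ring]
      have h4 : u (x + k + 1) = w (x + k) * u (x + k) - u (x + k - 1) := by linarith
      rw [h4, h1, h2]; ring
    · push_cast
      rw [show x + (k + 1 : ℤ) - 1 = x + k by ring]
      exact h1

/-- continuity of transfer matrices in the potential -/
lemma T_cont (w₀ : ℤ → ℝ) (x : ℤ) (k : ℕ) : ∀ η : ℝ, 0 < η → ∃ ε : ℝ, 0 < ε ∧
    ∀ w : ℤ → ℝ, (∀ y, x ≤ y → y < x + k → |w y - w₀ y| ≤ ε) →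
      ∀ i j, |T w x k i j - T w₀ x k i j| ≤ η := by
  induction k with
  | zero =>
    intro η hη
    exact ⟨1, one_pos, fun w _ i j => by simp [T_zero, hη.le]⟩
  | succ k ih =>
    intro η hη
    set c : ℝ := |w₀ (x + k)| with hc
    set C : ℝ := |T w₀ x k 0 0| + |T w₀ x k 0 1| with hC
    have hc0 : 0 ≤ c := abs_nonneg _
    have hC0 : 0 ≤ C := by positivity
    obtain ⟨ε₁, hε₁, h1⟩ := ih (min 1 (η / (2 * (c + 1)))) (lt_min one_pos (by positivity))
    refine ⟨min ε₁ (η / (2 * (C + 1))), lt_min hε₁ (by positivity), fun w hw => ?_⟩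
    have h2 := h1 w (fun y hy1 hy2 => (hw y hy1 (by push_cast; omega)).trans (min_le_left _ _))
    have h3 : |w (x + k) - w₀ (x + k)| ≤ η / (2 * (C + 1)) :=
      (hw (x + k) (by omega) (by push_cast; omega)).trans (min_le_right _ _)
    have hη' : η / (2 * (c + 1)) ≤ η := by
      rw [div_le_iff₀ (by positivity)]
      nlinarith
    have row0 : ∀ j : Fin 2, |T w x (k + 1) 0 j - T w₀ x (k + 1) 0 j| ≤ η := by
      intro j
      rw [(T_entries w x k j).1, (T_entries w₀ x k j).1]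
      have hj0 : |T w₀ x k 0 j| ≤ C := by
        fin_cases j
        · simp only [hC, Fin.zero_eta, Fin.isValue]
          linarith [abs_nonneg (T w₀ x k 0 1)]
        · simp only [hC, Fin.mk_one, Fin.isValue]
          linarith [abs_nonneg (T w₀ x k 0 0)]
      have h4 := h2 0 j
      have h5 := h2 1 j
      have h6 : |T w x k 0 j| ≤ C + 1 := by
        have h7 : |T w x k 0 j - T w₀ x k 0 j| ≤ 1 := h4.trans (min_le_left _ _)
        have h8 := abs_sub_abs_le_abs_sub (T w x k 0 j) (T w₀ x k 0 j)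
        linarith
      have h9 : w (x + k) * T w x k 0 j - T w x k 1 j - (w₀ (x + k) * T w₀ x k 0 j -
          T w₀ x k 1 j) = (w (x + k) - w₀ (x + k)) * T w x k 0 j +
          w₀ (x + k) * (T w x k 0 j - T w₀ x k 0 j) - (T w x k 1 j - T w₀ x k 1 j) := by ring
      rw [h9]
      have h10 : |(w (x + k) - w₀ (x + k)) * T w x k 0 j| ≤ η / 2 := by
        rw [abs_mul]
        calc |w (x + k) - w₀ (x + k)| * |T w x k 0 j| ≤ (η / (2 * (C + 1))) * (C + 1) :=
              mul_le_mul h3 h6 (abs_nonneg _) (by positivity)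
          _ = η / 2 := by field_simp
      have h11 : |w₀ (x + k) * (T w x k 0 j - T w₀ x k 0 j)| ≤ c * (η / (2 * (c + 1))) := by
        rw [abs_mul]
        exact mul_le_mul_of_nonneg_left (h4.trans (min_le_right _ _)) hc0
      have h12 : |T w x k 1 j - T w₀ x k 1 j| ≤ η / (2 * (c + 1)) := h5.trans (min_le_right _ _)
      have h13 : c * (η / (2 * (c + 1))) + η / (2 * (c + 1)) = η / 2 := by field_simp
      calc |(w (x + k) - w₀ (x + k)) * T w x k 0 j + w₀ (x + k) * (T w x k 0 j - T w₀ x k 0 j) -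
            (T w x k 1 j - T w₀ x k 1 j)|
          ≤ |(w (x + k) - w₀ (x + k)) * T w x k 0 j + w₀ (x + k) * (T w x k 0 j - T w₀ x k 0 j)|
            + |T w x k 1 j - T w₀ x k 1 j| := abs_sub _ _
        _ ≤ |(w (x + k) - w₀ (x + k)) * T w x k 0 j| +
            |w₀ (x + k) * (T w x k 0 j - T w₀ x k 0 j)| + |T w x k 1 j - T w₀ x k 1 j| := by
              gcongr; exact abs_add_le _ _
        _ ≤ η := by linarith
    intro i j
    fin_cases i
    · exact row0 j
    · simp only [Fin.mk_one, Fin.isValue]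
      rw [(T_entries w x k j).2, (T_entries w₀ x k j).2]
      exact (h2 0 j).trans ((min_le_right _ _).trans hη')

/-- geometric decay towards the middle of a barrier -/
lemma geom_decay (b : ℤ → ℝ) (θ B : ℝ) (hθ : 0 ≤ θ) (K : ℕ)
    (h0 : ∀ k : ℤ, |k| ≤ K → b k ≤ B)
    (h1 : ∀ k : ℤ, |k| < K → b k ≤ θ * max (b (k - 1)) (b (k + 1))) :
    ∀ j : ℕ, ∀ k : ℤ, |k| + j ≤ K → b k ≤ θ ^ j * B := by
  intro j
  induction j with
  | zero => intro k hk; simpa using h0 k (by simpa using hk)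
  | succ j ih =>
    intro k hk
    push_cast at hk
    refine (h1 k (by omega)).trans ?_
    rw [pow_succ, mul_comm (θ ^ j) θ, mul_assoc]
    refine mul_le_mul_of_nonneg_left (max_le ?_ ?_) hθ
    · apply ih
      have := abs_sub k 1
      rw [abs_one] at this
      omega
    · apply ih
      have := abs_add_le k 1
      rw [abs_one] at this
      omega

/-- the barrier estimate near a hyperbolic periodic pattern -/
theorem barrier (w₀ : ℤ → ℝ) (p : ℕ) (hp : 0 < p) (hper : ∀ x, w₀ (x + p) = w₀ x)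
    (htr : 2 < |(T w₀ 0 p).trace|) :
    ∃ ε : ℝ, 0 < ε ∧ ∃ θ : ℝ, 0 < θ ∧ θ < 1 ∧ ∀ (w u : ℤ → ℝ) (c : ℤ) (K : ℕ) (B : ℝ),
      (∀ y, c - K * p ≤ y → y < c + K * p → |w y - w₀ (y - c)| ≤ ε) →
      (∀ y, c - K * p ≤ y → y < c + K * p → u (y + 1) + u (y - 1) = w y * u y) →
      (∀ y, c - K * p - 1 ≤ y → y ≤ c + K * p → |u y| ≤ B) →
      |u c| ≤ θ ^ K * B ∧ |u (c - 1)| ≤ θ ^ K * B := by
  set D : ℝ := |(T w₀ 0 p).trace| with hD
  obtain ⟨ε, hε, hcont⟩ := T_cont w₀ 0 p ((D - 2) / 8) (by linarith)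
  refine ⟨ε, hε, 4 / (D + 2), by positivity, by rw [div_lt_one (by linarith)]; linarith, ?_⟩
  intro w u c K B hw hu hB
  -- the blocks
  set Tk : ℤ → Matrix (Fin 2) (Fin 2) ℝ := fun k => T w (c + k * p) p with hTk
  have hclose : ∀ k : ℤ, -(K : ℤ) ≤ k → k < K → ∀ i j, |Tk k i j - T w₀ 0 p i j| ≤ (D - 2) / 8 := by
    intro k hk1 hk2 i j
    have h1 : Tk k = T (fun y => w (y + (c + k * p))) 0 p := by
      rw [T_shift, zero_add]
    rw [h1]
    apply hcont
    intro y hy1 hy2
    have h3 : (k + K) * p ≥ 0 := by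
      apply mul_nonneg <;> omega
    have h4 : (K - k - 1) * (p : ℤ) ≥ 0 := by
      apply mul_nonneg <;> omega
    have h2 := hw (y + (c + k * p)) (by nlinarith) (by nlinarith)
    have h5 : w₀ (y + (c + k * p) - c) = w₀ y := by
      rw [show y + (c + k * p) - c = y + k * p by ring]
      have h6 : Function.Periodic w₀ (p : ℤ) := hper
      exact h6.int_mul k y
    rw [h5] at h2
    exact h2
  have hsol : ∀ k : ℤ, -(K : ℤ) ≤ k → k < K →
      u (c + (k + 1) * p) = Tk k 0 0 * u (c + k * p) + Tk k 0 1 * u (c + k * p - 1) ∧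
      u (c + (k + 1) * p - 1) = Tk k 1 0 * u (c + k * p) + Tk k 1 1 * u (c + k * p - 1) := by
    intro k hk1 hk2
    have h3 : (k + K) * p ≥ 0 := by
      apply mul_nonneg <;> omega
    have h4 : (K - k - 1) * (p : ℤ) ≥ 0 := by
      apply mul_nonneg <;> omega
    have := T_sol w u (c + k * p) p (fun y hy1 hy2 => hu y (by nlinarith) (by nlinarith))
    rw [show c + (k + 1) * (p : ℤ) = c + k * p + p by ring]
    exact this
  set b : ℤ → ℝ := fun k => max |u (c + k * p)| |u (c + k * p - 1)| with hb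
  have h0 : ∀ k : ℤ, |k| ≤ K → b k ≤ B := by
    intro k hk
    rw [abs_le] at hk
    have h3 : (k + K) * p ≥ 0 := by
      apply mul_nonneg <;> omega
    have h4 : (K - k) * (p : ℤ) ≥ 0 := by
      apply mul_nonneg <;> omega
    refine max_le (hB _ (by nlinarith) (by nlinarith)) (hB _ (by nlinarith) (by nlinarith))
  have h1 : ∀ k : ℤ, |k| < K → b k ≤ 4 / (D + 2) * max (b (k - 1)) (b (k + 1)) := by
    intro k hk
    rw [abs_lt] at hk
    obtain ⟨s1, s2⟩ := hsol k (by omega) (by omega)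
    obtain ⟨s3, s4⟩ := hsol (k - 1) (by omega) (by omega)
    rw [show k - 1 + 1 = k by ring] at s3 s4
    have c1 := hclose k (by omega) (by omega)
    have c2 := hclose (k - 1) (by omega) (by omega)
    set x0 := u (c + k * p) with hx0
    set x1 := u (c + k * p - 1) with hx1
    set y0 := u (c + (k + 1) * p) with hy0
    set y1 := u (c + (k + 1) * p - 1) with hy1
    set z0 := u (c + (k - 1) * p) with hz0
    set z1 := u (c + (k - 1) * p - 1) with hz1
    -- invert the previous block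
    have hdet : Tk (k - 1) 0 0 * Tk (k - 1) 1 1 - Tk (k - 1) 0 1 * Tk (k - 1) 1 0 = 1 := by
      have := T_det w (c + (k - 1) * p) p
      rw [Matrix.det_fin_two] at this
      exact this
    have i0 : z0 = Tk (k - 1) 1 1 * x0 - Tk (k - 1) 0 1 * x1 := by
      rw [s3, s4]; linear_combination (-z0) * hdet
    have i1 : z1 = -(Tk (k - 1) 1 0) * x0 + Tk (k - 1) 0 0 * x1 := by
      rw [s3, s4]; linear_combination (-z1) * hdet
    have htrace : (T w₀ 0 p).trace = T w₀ 0 p 0 0 + T w₀ 0 p 1 1 := Matrix.trace_fin_two _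
    set η : ℝ := (D - 2) / 8 with hη
    have e0 : y0 + z0 = (T w₀ 0 p).trace * x0 + ((Tk k 0 0 - T w₀ 0 p 0 0) * x0 +
        (Tk (k - 1) 1 1 - T w₀ 0 p 1 1) * x0) + ((Tk k 0 1 - T w₀ 0 p 0 1) * x1 -
        (Tk (k - 1) 0 1 - T w₀ 0 p 0 1) * x1) := by
      rw [htrace, s1, i0]; ring
    have e1 : y1 + z1 = (T w₀ 0 p).trace * x1 + ((Tk k 1 1 - T w₀ 0 p 1 1) * x1 +
        (Tk (k - 1) 0 0 - T w₀ 0 p 0 0) * x1) + ((Tk k 1 0 - T w₀ 0 p 1 0) * x0 -
        (Tk (k - 1) 1 0 - T w₀ 0 p 1 0) * x0) := by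
      rw [htrace, s2, i1]; ring
    have hbk0 : |x0| ≤ b k := le_max_left _ _
    have hbk1 : |x1| ≤ b k := le_max_right _ _
    have hη0 : 0 ≤ η := by rw [hη]; linarith
    have hprod : ∀ s x : ℝ, |s| ≤ η → |x| ≤ b k → |s * x| ≤ η * b k := by
      intro s x hs hx
      rw [abs_mul]
      exact mul_le_mul hs hx (abs_nonneg _) hη0
    have f0 : D * |x0| ≤ |y0| + |z0| + 4 * (η * b k) := by
      have : (T w₀ 0 p).trace * x0 = y0 + z0 - (Tk k 0 0 - T w₀ 0 p 0 0) * x0 -
        (Tk (k - 1) 1 1 - T w₀ 0 p 1 1) * x0 - (Tk k 0 1 - T w₀ 0 p 0 1) * x1 +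
        (Tk (k - 1) 0 1 - T w₀ 0 p 0 1) * x1 := by linarith
      rw [hD, ← abs_mul, this]
      have g1 := hprod _ x0 (c1 0 0) hbk0
      have g2 := hprod _ x0 (c2 1 1) hbk0
      have g3 := hprod _ x1 (c1 0 1) hbk1
      have g4 := hprod _ x1 (c2 0 1) hbk1
      have g5 := le_abs_self y0
      have g6 := le_abs_self z0
      have g7 := neg_abs_le y0
      have g8 := neg_abs_le z0
      rw [abs_le] at g1 g2 g3 g4 ⊢
      constructor <;> linarith [g1.1, g1.2, g2.1, g2.2, g3.1, g3.2, g4.1, g4.2]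
    have f1 : D * |x1| ≤ |y1| + |z1| + 4 * (η * b k) := by
      have : (T w₀ 0 p).trace * x1 = y1 + z1 - (Tk k 1 1 - T w₀ 0 p 1 1) * x1 -
        (Tk (k - 1) 0 0 - T w₀ 0 p 0 0) * x1 - (Tk k 1 0 - T w₀ 0 p 1 0) * x0 +
        (Tk (k - 1) 1 0 - T w₀ 0 p 1 0) * x0 := by linarith
      rw [hD, ← abs_mul, this]
      have g1 := hprod _ x1 (c1 1 1) hbk1
      have g2 := hprod _ x1 (c2 0 0) hbk1
      have g3 := hprod _ x0 (c1 1 0) hbk0
      have g4 := hprod _ x0 (c2 1 0) hbk0
      have g5 := le_abs_self y1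
      have g6 := le_abs_self z1
      have g7 := neg_abs_le y1
      have g8 := neg_abs_le z1
      rw [abs_le] at g1 g2 g3 g4 ⊢
      constructor <;> linarith [g1.1, g1.2, g2.1, g2.2, g3.1, g3.2, g4.1, g4.2]
    set m := max (b (k - 1)) (b (k + 1)) with hm
    have m1 : |y0| ≤ m := le_trans (le_max_left _ _) (le_max_right (b (k - 1)) (b (k + 1)))
    have m2 : |y1| ≤ m := le_trans (le_max_right _ _) (le_max_right (b (k - 1)) (b (k + 1)))
    have m3 : |z0| ≤ m := le_trans (le_max_left _ _) (le_max_left (b (k - 1)) (b (k + 1)))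
    have m4 : |z1| ≤ m := le_trans (le_max_right _ _) (le_max_left (b (k - 1)) (b (k + 1)))
    have hDb : D * b k ≤ 2 * m + 4 * (η * b k) := by
      have hbk : b k = |x0| ∨ b k = |x1| := by
        rcases max_cases |x0| |x1| with ⟨h, -⟩ | ⟨h, -⟩
        · left; exact h
        · right; exact h
      rcases hbk with h | h
      · calc D * b k = D * |x0| := by rw [h]
          _ ≤ |y0| + |z0| + 4 * (η * b k) := f0
          _ ≤ _ := by linarith
      · calc D * b k = D * |x1| := by rw [h]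
          _ ≤ |y1| + |z1| + 4 * (η * b k) := f1
          _ ≤ _ := by linarith
    rw [div_mul_eq_mul_div, le_div_iff₀ (by linarith)]
    rw [hη] at hDb
    nlinarith
  have := geom_decay b (4 / (D + 2)) B (by positivity) K h0 h1 K 0 (by simp)
  simp only [hb, zero_mul, add_zero] at this
  exact ⟨(le_max_left _ _).trans this, (le_max_right _ _).trans this⟩

end Pool.Agent.N658.PP
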