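import Mathlib
import Pool.Agent.N658.PP.Transfer

set_option autoImplicit false

/-! Opening of a gap at a prescribed energy by an arbitrarily small periodic perturbation of a
periodic potential. -/

namespace Pool.Agent.N658.PP

open Matrix

/-- powers of the period matrix -/
lemma T_periodic_pow (w : ℤ → ℝ) (N : ℕ) (hper : ∀ x, w (x + N) = w x) (m : ℤ) (j : ℕ) :
    T w (m * N) (j * N) = T w 0 N ^ j := by
  have hP : Function.Periodic w (N : ℤ) := hper
  have h1 : ∀ m : ℤ, T w (m * N) N = T w 0 N := by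
    intro m
    have h2 := T_shift w 0 (m * N) N
    rw [zero_add] at h2
    rw [← h2]
    congr 1
    funext y
    exact hP.int_mul m y
  induction j generalizing m with
  | zero => simp [T_zero]
  | succ j ih =>
    rw [show (j + 1) * N = N + j * N by ring, T_add, h1 m]
    rw [show m * (N : ℤ) + N = (m + 1) * N by ring, ih (m + 1), pow_succ]

/-- trace of a product with two marked factors -/
lemma trace_formula (B : Matrix (Fin 2) (Fin 2) ℝ) (x y : ℝ) :
    (B * (A y * A x)).trace = B 0 0 * (y * x - 1) + B 0 1 * x - B 1 0 * y - B 1 1 := by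
  rw [Matrix.trace_fin_two]
  simp [A, Matrix.mul_apply, Fin.sum_univ_two]
  ring

lemma trace_inv_formula (B : Matrix (Fin 2) (Fin 2) ℝ) (hB : B.det = 1) (x y s t : ℝ) :
    ((B * (A y * A x)).adjugate * (B * (A (y + t) * A (x + s)))).trace = 2 - s * t := by
  rw [Matrix.det_fin_two] at hB
  rw [Matrix.trace_fin_two, Matrix.adjugate_fin_two]
  simp [A, Matrix.mul_apply, Fin.sum_univ_two]
  linear_combination (2 - s * t) * hB

/-- Cayley-Hamilton for unimodular `2 × 2` matrices, applied to powers -/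
lemma trace_rec (M X : Matrix (Fin 2) (Fin 2) ℝ) (hM : M.det = 1) (k : ℕ) :
    (M ^ (k + 2) * X).trace = M.trace * (M ^ (k + 1) * X).trace - (M ^ k * X).trace := by
  have h1 : M ^ 2 = M.trace • M - 1 := by
    rw [Matrix.det_fin_two] at hM
    ext i j
    fin_cases i <;> fin_cases j <;>
      simp [pow_two, Matrix.mul_apply, Fin.sum_univ_two, Matrix.trace_fin_two] <;>
      first | linear_combination (-1) * hM | ring
  have h2 : M ^ (k + 2) * X = M.trace • (M ^ (k + 1) * X) - M ^ k * X := by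
    rw [pow_add, h1, mul_sub, mul_one, Matrix.mul_smul, sub_mul, Matrix.smul_mul, ← pow_succ]
  rw [h2, Matrix.trace_sub, Matrix.trace_smul, smul_eq_mul]

lemma trace_rec0 (M X : Matrix (Fin 2) (Fin 2) ℝ) :
    (M * X).trace = M.trace * X.trace - (M.adjugate * X).trace := by
  have h1 : M = M.trace • 1 - M.adjugate := by
    rw [Matrix.adjugate_fin_two]
    ext i j
    fin_cases i <;> fin_cases j <;> simp [Matrix.trace_fin_two]
  have h2 : M * X = M.trace • X - M.adjugate * X := by
    conv_lhs => rw [h1]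
    rw [sub_mul, Matrix.smul_mul, one_mul]
  rw [h2, Matrix.trace_sub, Matrix.trace_smul, smul_eq_mul]

/-- the elliptic case: some product `M ^ k * X` is hyperbolic -/
lemma elliptic (M X : Matrix (Fin 2) (Fin 2) ℝ) (hM : M.det = 1) (htr : |M.trace| < 2)
    (hX : 2 < (M.adjugate * X).trace) : ∃ k : ℕ, 2 < (M ^ k * X).trace := by
  set θ : ℝ := Real.arccos (M.trace / 2) with hθ
  rw [abs_lt] at htr
  have hcos : Real.cos θ = M.trace / 2 := Real.cos_arccos (by linarith) (by linarith)
  have hsin : Real.sin θ ≠ 0 := by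
    have : 0 < Real.sin θ := by
      rw [hθ, Real.sin_arccos]
      apply Real.sqrt_pos.mpr
      nlinarith
    exact this.ne'
  set t₀ : ℝ := (M.adjugate * X).trace with ht₀
  set α : ℝ := (X).trace with hα
  set β : ℝ := (α * Real.cos θ - t₀) / Real.sin θ with hβ
  have hβ' : β * Real.sin θ = α * Real.cos θ - t₀ := by rw [hβ]; field_simp
  -- closed form
  have hform : ∀ k : ℕ, (M ^ k * X).trace = α * Real.cos (k * θ) + β * Real.sin (k * θ) ∧
      (M ^ (k + 1) * X).trace = α * Real.cos ((k + 1) * θ) + β * Real.sin ((k + 1) * θ) := by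
    intro k
    induction k with
    | zero =>
      refine ⟨by simp [hα], ?_⟩
      rw [zero_add, pow_one, trace_rec0 M X]
      simp only [Nat.cast_zero, zero_add, one_mul]
      rw [hβ', hcos]
      ring
    | succ k ih =>
      refine ⟨?_, ?_⟩
      · rw [ih.2]; push_cast; ring_nf
      · rw [show k + 1 + 1 = k + 2 by ring, trace_rec M X hM k, ih.1, ih.2]
        have e1 : ((k + 1 : ℕ) : ℝ) + 1 = (k + 2 : ℝ) := by push_cast; ring
        rw [e1]
        have c1 : Real.cos ((k + 2) * θ) = 2 * Real.cos θ * Real.cos ((k + 1) * θ) -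
            Real.cos (k * θ) := by
          rw [show (k + 2 : ℝ) * θ = (k + 1) * θ + θ by ring,
            show (k : ℝ) * θ = (k + 1) * θ - θ by ring, Real.cos_add, Real.cos_sub]
          ring
        have c2 : Real.sin ((k + 2) * θ) = 2 * Real.cos θ * Real.sin ((k + 1) * θ) -
            Real.sin (k * θ) := by
          rw [show (k + 2 : ℝ) * θ = (k + 1) * θ + θ by ring,
            show (k : ℝ) * θ = (k + 1) * θ - θ by ring, Real.sin_add, Real.sin_sub]
          ring
        rw [c1, c2, hcos]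
        ring
  -- Dirichlet approximation
  have hpos : 0 < t₀ - 2 := by linarith
  set C : ℝ := (|α| + |β|) * (2 * Real.pi) + 1 with hC
  have hC0 : 0 < C := by positivity
  obtain ⟨n, hn⟩ := exists_nat_gt (C / (t₀ - 2))
  have hn0 : 0 < n := by
    have : (0 : ℝ) < n := lt_trans (by positivity) hn
    exact_mod_cast this
  obtain ⟨j, k, hk0, hkn, hjk⟩ := Real.exists_int_int_abs_mul_sub_le (θ / (2 * Real.pi)) hn0
  have hpi := Real.pi_pos
  set ε : ℝ := k * θ - j * (2 * Real.pi) with hε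
  have hεle : |ε| ≤ 2 * Real.pi / (n + 1) := by
    have h1 : ε = (k * (θ / (2 * Real.pi)) - j) * (2 * Real.pi) := by
      rw [hε]; field_simp
    rw [h1, abs_mul, abs_of_pos (by positivity : 0 < 2 * Real.pi)]
    have h2 := mul_le_mul_of_nonneg_right hjk (by positivity : 0 ≤ 2 * Real.pi)
    refine h2.trans (le_of_eq ?_)
    ring
  refine ⟨(k - 1).toNat, ?_⟩
  have hkn' : (((k - 1).toNat : ℕ) : ℝ) = (k : ℝ) - 1 := by
    have : (((k - 1).toNat : ℕ) : ℤ) = k - 1 := Int.toNat_of_nonneg (by omega)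
    have h2 : ((((k - 1).toNat : ℕ) : ℤ) : ℝ) = ((k - 1 : ℤ) : ℝ) := by rw [this]
    push_cast at h2
    exact h2
  rw [(hform _).1, hkn']
  have a1 : ((k : ℝ) - 1) * θ = (ε - θ) + j * (2 * Real.pi) := by rw [hε]; ring
  rw [a1, Real.cos_add_int_mul_two_pi, Real.sin_add_int_mul_two_pi]
  have a2 : t₀ = α * Real.cos (-θ) + β * Real.sin (-θ) := by
    rw [Real.cos_neg, Real.sin_neg]; linarith
  have a3 : |Real.cos (ε - θ) - Real.cos (-θ)| ≤ |ε| := by
    have := Real.abs_cos_sub_cos_le (ε - θ) (-θ)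
    rwa [show ε - θ - -θ = ε by ring] at this
  have a4 : |Real.sin (ε - θ) - Real.sin (-θ)| ≤ |ε| := by
    have := Real.abs_sin_sub_sin_le (ε - θ) (-θ)
    rwa [show ε - θ - -θ = ε by ring] at this
  have a5 : |α * (Real.cos (ε - θ) - Real.cos (-θ))| ≤ |α| * |ε| := by
    rw [abs_mul]; exact mul_le_mul_of_nonneg_left a3 (abs_nonneg _)
  have a6 : |β * (Real.sin (ε - θ) - Real.sin (-θ))| ≤ |β| * |ε| := by
    rw [abs_mul]; exact mul_le_mul_of_nonneg_left a4 (abs_nonneg _)
  have a7 : (|α| + |β|) * |ε| < t₀ - 2 := by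
    have h1 : (|α| + |β|) * |ε| ≤ (|α| + |β|) * (2 * Real.pi / (n + 1)) :=
      mul_le_mul_of_nonneg_left hεle (by positivity)
    refine h1.trans_lt ?_
    rw [← mul_div_assoc, div_lt_iff₀ (by positivity)]
    rw [div_lt_iff₀ hpos] at hn
    nlinarith
  have a8 := abs_le.mp a5
  have a9 := abs_le.mp a6
  nlinarith [a8.1, a9.1]

/-- the perturbation by `s` at `0` and `t` at `1` inside each period `p` -/
noncomputable def bump (p : ℕ) (s t : ℝ) (x : ℤ) : ℝ :=
  if x % p = 0 then s else if x % p = 1 then t else 0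

lemma bump_periodic (p : ℕ) (s t : ℝ) (x : ℤ) : bump p s t (x + p) = bump p s t x := by
  unfold bump
  rw [Int.add_emod_right]

lemma bump_abs (p : ℕ) (s t δ : ℝ) (hs : |s| ≤ δ) (ht : |t| ≤ δ) (x : ℤ) :
    |bump p s t x| ≤ δ := by
  unfold bump
  have : 0 ≤ δ := (abs_nonneg s).trans hs
  split_ifs
  · exact hs
  · exact ht
  · simpa using this

/-- from a hyperbolic product to a hyperbolic periodic potential -/
lemma realize (w₀ : ℤ → ℝ) (N : ℕ) (hN : 2 ≤ N) (hper : ∀ x, w₀ (x + N) = w₀ x) (s t : ℝ) (k : ℕ)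
    (h : 2 < |(T w₀ 0 N ^ k * (T w₀ 2 (N - 2) * (A (w₀ 1 + t) * A (w₀ 0 + s)))).trace|) :
    2 < |(T (fun x => w₀ x + bump ((k + 1) * N) s t x) 0 ((k + 1) * N)).trace| := by
  set w : ℤ → ℝ := fun x => w₀ x + bump ((k + 1) * N) s t x with hw
  have hmod : ∀ x : ℤ, 0 ≤ x → x < ((k + 1) * N : ℕ) → x % ((k + 1) * N : ℕ) = x := by
    intro x h1 h2
    exact Int.emod_eq_of_lt h1 h2
  have hbig : (N : ℤ) ≤ ((k + 1) * N : ℕ) := by
    push_cast
    nlinarith
  have hw2 : ∀ x : ℤ, 2 ≤ x → x < ((k + 1) * N : ℕ) → w x = w₀ x := by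
    intro x h1 h2
    simp only [hw, bump]
    rw [hmod x (by omega) h2, if_neg (by omega), if_neg (by omega), add_zero]
  have hw0 : w 0 = w₀ 0 + s := by
    simp only [hw, bump]
    rw [hmod 0 le_rfl (by omega), if_pos rfl]
  have hw1 : w 1 = w₀ 1 + t := by
    simp only [hw, bump]
    rw [hmod 1 (by omega) (by omega), if_neg (by omega), if_pos rfl]
  have h1 : T w 0 N = T w₀ 2 (N - 2) * (A (w₀ 1 + t) * A (w₀ 0 + s)) := by
    obtain ⟨r, rfl⟩ : ∃ r, N = 2 + r := ⟨N - 2, by omega⟩
    rw [T_add]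
    have e1 : T w 0 2 = A (w₀ 1 + t) * A (w₀ 0 + s) := by
      rw [T_succ, T_succ, T_zero, mul_one]
      rw [← hw0, ← hw1]
      congr 3
    have e2 : T w (0 + ((2 : ℕ) : ℤ)) r = T w₀ 2 (2 + r - 2) := by
      rw [show 2 + r - 2 = r by omega]
      have := T_congr w w₀ 2 r (fun y h1 h2 => hw2 y h1 (by omega))
      simpa using this
    rw [e1, e2]
  have h2 : T w 0 ((k + 1) * N) = T w₀ 0 N ^ k * T w 0 N := by
    rw [show (k + 1) * N = N + k * N by ring, T_add]
    congr 1
    rw [← T_periodic_pow w₀ N hper 1 k]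
    rw [show (0 : ℤ) + N = 1 * N by ring]
    apply T_congr
    intro y hy1 hy2
    apply hw2 y (by omega)
    push_cast at hy2 ⊢
    linarith
  rw [h2, h1]
  exact h

/-- **Gap opening.** -/
theorem gap_open (w₀ : ℤ → ℝ) (N : ℕ) (hN : 0 < N) (hper : ∀ x, w₀ (x + N) = w₀ x) (δ : ℝ)
    (hδ : 0 < δ) : ∃ p : ℕ, 0 < p ∧ N ∣ p ∧ ∃ r : ℤ → ℝ, (∀ x, r (x + p) = r x) ∧
      (∀ x, |r x| ≤ δ) ∧ 2 < |(T (fun x => w₀ x + r x) 0 p).trace| := by
  -- work with the period `N' = 2 N`
  set N' : ℕ := 2 * N with hN'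
  have hN2 : 2 ≤ N' := by omega
  have hper' : ∀ x, w₀ (x + N') = w₀ x := by
    intro x
    have : w₀ (x + N + N) = w₀ x := by rw [hper, hper]
    rw [← this]; congr 1; rw [hN']; push_cast; ring
  -- it suffices to find a hyperbolic product
  suffices h : ∃ (s t : ℝ) (k : ℕ), |s| ≤ δ ∧ |t| ≤ δ ∧
      2 < |(T w₀ 0 N' ^ k * (T w₀ 2 (N' - 2) * (A (w₀ 1 + t) * A (w₀ 0 + s)))).trace| by
    obtain ⟨s, t, k, hs, ht, h⟩ := h
    refine ⟨(k + 1) * N', by positivity, ⟨(k + 1) * 2, by rw [hN']; ring⟩,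
      bump ((k + 1) * N') s t, bump_periodic _ _ _, bump_abs _ _ _ _ hs ht,
      realize w₀ N' hN2 hper' s t k h⟩
  set M := T w₀ 0 N' with hM
  set B := T w₀ 2 (N' - 2) with hB
  have hdetB : B.det = 1 := T_det _ _ _
  have hMB : M = B * (A (w₀ 1) * A (w₀ 0)) := by
    rw [hM, hB]
    obtain ⟨r, hr⟩ : ∃ r, N' = 2 + r := ⟨N' - 2, by omega⟩
    rw [hr, T_add, T_succ, T_succ, T_zero, mul_one, show 2 + r - 2 = r by omega]
    simp
  set x1 := w₀ 0 with hx1
  set x2 := w₀ 1 with hx2
  rcases lt_trichotomy |M.trace| 2 with hlt | heq | hgt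
  · -- elliptic
    have hdetM : M.det = 1 := T_det _ _ _
    obtain ⟨k, hk⟩ := elliptic M (B * (A (x2 + (-δ)) * A (x1 + δ))) hdetM hlt (by
      rw [hMB, trace_inv_formula B hdetB]
      nlinarith)
    exact ⟨δ, -δ, k, by rw [abs_of_pos hδ], by rw [abs_neg, abs_of_pos hδ],
      lt_of_lt_of_le hk (le_abs_self _)⟩
  · -- parabolic
    have htrM : M.trace = B 0 0 * (x2 * x1 - 1) + B 0 1 * x1 - B 1 0 * x2 - B 1 1 := by
      rw [hMB, trace_formula]
    have hgen : ∀ s t : ℝ, (M ^ 0 * (B * (A (x2 + t) * A (x1 + s)))).trace = M.trace +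
        (B 0 0 * x2 + B 0 1) * s + (B 0 0 * x1 - B 1 0) * t + B 0 0 * (s * t) := by
      intro s t
      rw [pow_zero, one_mul, trace_formula, htrM]; ring
    have habs : ∀ z : ℝ, 0 < M.trace * z → 2 < |M.trace + z| := by
      intro z hz
      rcases abs_cases M.trace with ⟨h1, h2⟩ | ⟨h1, h2⟩
      · have : M.trace = 2 := by linarith
        rw [this] at hz ⊢
        rw [lt_abs]; left; linarith
      · have : M.trace = -2 := by linarith
        rw [this] at hz ⊢
        rw [lt_abs]; right; linarith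
    have htr0 : M.trace ≠ 0 := by
      intro h; rw [h] at heq; norm_num at heq
    by_cases h1 : B 0 0 * x2 + B 0 1 = 0
    · by_cases h2 : B 0 0 * x1 - B 1 0 = 0
      · -- both linear terms vanish
        have hB00 : B 0 0 ≠ 0 := by
          intro h3
          rw [Matrix.det_fin_two] at hdetB
          rw [h3] at h1 h2 hdetB
          have h4 : B 0 1 = 0 := by linarith
          rw [h4] at hdetB
          norm_num at hdetB
        rcases lt_or_gt_of_ne (mul_ne_zero htr0 hB00) with h3 | h3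
        · refine ⟨δ, -δ, 0, by rw [abs_of_pos hδ], by rw [abs_neg, abs_of_pos hδ], ?_⟩
          rw [hgen, h1, h2]
          have := habs (B 0 0 * (δ * -δ)) (by
            have := mul_pos (neg_pos.mpr h3) (mul_pos hδ hδ)
            nlinarith)
          simpa using this
        · refine ⟨δ, δ, 0, by rw [abs_of_pos hδ], by rw [abs_of_pos hδ], ?_⟩
          rw [hgen, h1, h2]
          have := habs (B 0 0 * (δ * δ)) (by
            have := mul_pos h3 (mul_pos hδ hδ)
            nlinarith)
          simpa using this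
      · rcases lt_or_gt_of_ne (mul_ne_zero htr0 h2) with h3 | h3
        · refine ⟨0, -δ, 0, by simpa using hδ.le, by rw [abs_neg, abs_of_pos hδ], ?_⟩
          rw [hgen, h1]
          have := habs ((B 0 0 * x1 - B 1 0) * -δ) (by
            have := mul_pos (neg_pos.mpr h3) hδ
            nlinarith)
          simpa using this
        · refine ⟨0, δ, 0, by simpa using hδ.le, by rw [abs_of_pos hδ], ?_⟩
          rw [hgen, h1]
          have := habs ((B 0 0 * x1 - B 1 0) * δ) (by
            have := mul_pos h3 hδ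
            nlinarith)
          simpa using this
    · rcases lt_or_gt_of_ne (mul_ne_zero htr0 h1) with h3 | h3
      · refine ⟨-δ, 0, 0, by rw [abs_neg, abs_of_pos hδ], by simpa using hδ.le, ?_⟩
        rw [hgen]
        have := habs ((B 0 0 * x2 + B 0 1) * -δ) (by
          have := mul_pos (neg_pos.mpr h3) hδ
          nlinarith)
        simpa using this
      · refine ⟨δ, 0, 0, by rw [abs_of_pos hδ], by simpa using hδ.le, ?_⟩
        rw [hgen]
        have := habs ((B 0 0 * x2 + B 0 1) * δ) (by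
          have := mul_pos h3 hδ
          nlinarith)
        simpa using this
  · refine ⟨0, 0, 0, by simpa using hδ.le, by simpa using hδ.le, ?_⟩
    rw [pow_zero, one_mul, add_zero, add_zero, ← hMB]
    exact hgt

end Pool.Agent.N658.PP
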