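import Mathlib

set_option autoImplicit false

/-! A combinatorial form of multiscale analysis: a nonnegative finitely supported sequence whose
resonant indices are sparse at every scale decays exponentially away from one index. -/

namespace Pool.Agent.N658.PP

/-- index `i` is good with rate `κ` -/
def Good (a : ℤ → ℝ) (κ : ℝ) (i : ℤ) : Prop :=
  ∃ l, l ≠ i ∧ a i ≤ (1 / 2) * (Real.exp (-(κ * |(l : ℝ) - i|)) * a l)

lemma Good.mono {a : ℤ → ℝ} {κ κ' : ℝ} {i : ℤ} (h : Good a κ i) (ha : ∀ i, 0 ≤ a i)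
    (hκ : κ' ≤ κ) : Good a κ' i := by
  obtain ⟨l, hl, h⟩ := h
  refine ⟨l, hl, h.trans ?_⟩
  have h1 : Real.exp (-(κ * |(l : ℝ) - i|)) ≤ Real.exp (-(κ' * |(l : ℝ) - i|)) := by
    apply Real.exp_le_exp.mpr
    have := mul_le_mul_of_nonneg_right hκ (abs_nonneg ((l : ℝ) - i))
    linarith
  have := mul_le_mul_of_nonneg_right h1 (ha l)
  linarith

/-- maximum principle: if every index of `J` is good, then the value at an index of `J` is
controlled from outside `J` -/
lemma maxp (a : ℤ → ℝ) (ha : ∀ i, 0 ≤ a i) (F : Finset ℤ) (hF : ∀ i, i ∉ F → a i = 0)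
    (κ : ℝ) (hκ : 0 ≤ κ) (J : ℤ → Prop) (hJ : ∀ i, J i → a i ≠ 0 → Good a κ i) (i : ℤ)
    (hi : a i ≠ 0) :
    ∃ l, ¬ J l ∧ a l ≠ 0 ∧ a i ≤ Real.exp (-(κ * |(l : ℝ) - i|)) * a l := by
  classical
  have hiF : i ∈ F := by
    by_contra h
    exact hi (hF i h)
  obtain ⟨l, hl, hmax⟩ := Finset.exists_max_image F
    (fun l : ℤ => Real.exp (-(κ * |(l : ℝ) - i|)) * a l) ⟨i, hiF⟩
  have h1 : a i ≤ Real.exp (-(κ * |(l : ℝ) - i|)) * a l := by
    have := hmax i hiF
    simpa using this
  have hal : a l ≠ 0 := by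
    intro h
    rw [h, mul_zero] at h1
    exact hi (le_antisymm h1 (ha i))
  have hmax' : ∀ m : ℤ, Real.exp (-(κ * |(m : ℝ) - i|)) * a m ≤
      Real.exp (-(κ * |(l : ℝ) - i|)) * a l := by
    intro m
    by_cases hm : m ∈ F
    · exact hmax m hm
    · rw [hF m hm, mul_zero]
      exact mul_nonneg (Real.exp_pos _).le (ha l)
  refine ⟨l, ?_, hal, h1⟩
  intro hJl
  obtain ⟨m, hm, hg⟩ := hJ l hJl hal
  have h2 : Real.exp (-(κ * |(l : ℝ) - i|)) * a l ≤
      (1 / 2) * (Real.exp (-(κ * |(m : ℝ) - i|)) * a m) := by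
    have h3 : Real.exp (-(κ * |(l : ℝ) - i|)) * a l ≤ Real.exp (-(κ * |(l : ℝ) - i|)) *
        ((1 / 2) * (Real.exp (-(κ * |(m : ℝ) - l|)) * a m)) :=
      mul_le_mul_of_nonneg_left hg (Real.exp_pos _).le
    refine h3.trans ?_
    have h4 : Real.exp (-(κ * |(l : ℝ) - i|)) * Real.exp (-(κ * |(m : ℝ) - l|)) ≤
        Real.exp (-(κ * |(m : ℝ) - i|)) := by
      rw [← Real.exp_add]
      apply Real.exp_le_exp.mpr
      have h5 : |(m : ℝ) - i| ≤ |(m : ℝ) - l| + |(l : ℝ) - i| := by
        have := abs_add_le ((m : ℝ) - l) ((l : ℝ) - i)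
        simpa using this
      have := mul_le_mul_of_nonneg_left h5 hκ
      linarith
    have := mul_le_mul_of_nonneg_right h4 (ha m)
    nlinarith
  have h6 := hmax' m
  have h7 : 0 < Real.exp (-(κ * |(l : ℝ) - i|)) * a l :=
    mul_pos (Real.exp_pos _) (lt_of_le_of_ne (ha l) (Ne.symm hal))
  linarith

/-- rates of the successive scales -/
noncomputable def rate (κ : ℝ) (s : ℕ) : ℝ := κ * (1 + (1 / 2) ^ s)

lemma rate_zero (κ : ℝ) : rate κ 0 = 2 * κ := by unfold rate; ring

lemma rate_succ (κ : ℝ) (s : ℕ) : rate κ s - rate κ (s + 1) = κ * (1 / 2) ^ (s + 1) := by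
  unfold rate; rw [pow_succ]; ring

lemma rate_ge (κ : ℝ) (hκ : 0 ≤ κ) (s : ℕ) : κ ≤ rate κ s := by
  unfold rate
  have : 0 ≤ κ * (1 / 2) ^ s := by positivity
  linarith

lemma rate_le (κ : ℝ) (hκ : 0 ≤ κ) (s : ℕ) : rate κ s ≤ 2 * κ := by
  unfold rate
  have h1 : ((1 : ℝ) / 2) ^ s ≤ 1 := pow_le_one₀ (by norm_num) (by norm_num)
  nlinarith

/-- The multiscale lemma.  `B s` is the set of indices that are resonant at all scales `≤ s`,
`ρ (s+1)` is the radius of the boxes of scale `s+1`, resonant indices of level `s` are pairwise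
at distance more than `R s`. -/
theorem msa (a : ℤ → ℝ) (ha : ∀ i, 0 ≤ a i) (F : Finset ℤ) (hF : ∀ i, i ∉ F → a i = 0)
    (κ : ℝ) (hκ : 0 < κ) (B : ℕ → ℤ → Prop) (ρ R : ℕ → ℕ)
    (hB0 : ∀ i, ¬ B 0 i → a i ≤ (1 / 2) * (Real.exp (-(2 * κ)) * max (a (i - 1)) (a (i + 1))))
    (hBs : ∀ s i, B s i → ¬ B (s + 1) i →
      a i ≤ (1 / 2) * (Real.exp (κ * ρ s) * max (max (a (i - ρ s - 1)) (a (i - ρ s)))
        (max (a (i + ρ s)) (a (i + ρ s + 1)))))
    (hsep : ∀ s i i', B s i → B s i' → i < i' → (R s : ℤ) < i' - i)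
    (hρ : ∀ s, 1 ≤ ρ s)
    (hR : ∀ s, (5 * ρ s * 2 ^ (s + 1) : ℕ) ≤ R s)
    (hRtop : ∀ N : ℕ, ∃ s, N ≤ R s) :
    ∃ i₀ : ℤ, ∀ i : ℤ, a i ≤ Real.exp (-(κ * |(i : ℝ) - i₀|)) * a i₀ := by
  classical
  -- goodness at all scales
  have hgood : ∀ s i, a i ≠ 0 → ¬ B s i → Good a (rate κ s) i := by
    intro s
    induction s with
    | zero =>
      intro i hi hB
      have h := hB0 i hB
      rw [rate_zero]
      rcases le_total (a (i - 1)) (a (i + 1)) with h1 | h1
      · rw [max_eq_right h1] at h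
        refine ⟨i + 1, by omega, ?_⟩
        have : |(((i + 1 : ℤ) : ℝ)) - i| = 1 := by push_cast; simp
        rw [this, mul_one]; exact h
      · rw [max_eq_left h1] at h
        refine ⟨i - 1, by omega, ?_⟩
        have : |(((i - 1 : ℤ) : ℝ)) - i| = 1 := by push_cast; simp
        rw [this, mul_one]; exact h
    | succ s ih =>
      intro i hi hB
      by_cases hBs' : B s i
      · -- the new scale
        have h := hBs s i hBs' hB
        -- the max is attained at some l with |l - i| ∈ {ρ, ρ+1}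
        have hmem : ∃ l : ℤ, (ρ s : ℤ) ≤ |l - i| ∧ |l - i| ≤ ρ s + 1 ∧
            a i ≤ (1 / 2) * (Real.exp (κ * ρ s) * a l) := by
          have hr := hρ s
          rcases max_cases (max (a (i - ρ s - 1)) (a (i - ρ s)))
            (max (a (i + ρ s)) (a (i + ρ s + 1))) with ⟨h1, -⟩ | ⟨h1, -⟩
          · rw [h1] at h
            rcases max_cases (a (i - ρ s - 1)) (a (i - ρ s)) with ⟨h2, -⟩ | ⟨h2, -⟩
            · rw [h2] at h
              exact ⟨i - ρ s - 1, by rw [le_abs]; omega, by rw [abs_le]; omega, h⟩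
            · rw [h2] at h
              exact ⟨i - ρ s, by rw [le_abs]; omega, by rw [abs_le]; omega, h⟩
          · rw [h1] at h
            rcases max_cases (a (i + ρ s)) (a (i + ρ s + 1)) with ⟨h2, -⟩ | ⟨h2, -⟩
            · rw [h2] at h
              exact ⟨i + ρ s, by rw [le_abs]; omega, by rw [abs_le]; omega, h⟩
            · rw [h2] at h
              exact ⟨i + ρ s + 1, by rw [le_abs]; omega, by rw [abs_le]; omega, h⟩
        obtain ⟨l, hl1, hl2, hl⟩ := hmem
        have hal : a l ≠ 0 := by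
          intro h0
          rw [h0] at hl
          simp only [mul_zero] at hl
          exact hi (le_antisymm hl (ha i))
        -- maximum principle in the punctured ball
        obtain ⟨m, hmJ, ham, hm⟩ := maxp a ha F hF (rate κ s)
          (hκ.le.trans (rate_ge κ hκ.le s)) (fun l => l ≠ i ∧ |l - i| ≤ R s)
          (by
            intro l' hl' hal'
            apply ih l' hal'
            intro hBl
            rcases lt_trichotomy l' i with h3 | h3 | h3
            · have := hsep s l' i hBl hBs' h3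
              have h4 := hl'.2
              rw [abs_le] at h4
              omega
            · exact hl'.1 h3
            · have := hsep s i l' hBs' hBl h3
              have h4 := hl'.2
              rw [abs_le] at h4
              omega) l hal
        have hlR : (ρ s : ℝ) ≤ |(l : ℝ) - i| := by
          have : ((ρ s : ℤ) : ℝ) ≤ ((|l - i| : ℤ) : ℝ) := by exact_mod_cast hl1
          push_cast at this
          exact this
        have hlR2 : |(l : ℝ) - i| ≤ (ρ s : ℝ) + 1 := by
          have : ((|l - i| : ℤ) : ℝ) ≤ ((ρ s + 1 : ℤ) : ℝ) := by exact_mod_cast hl2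
          push_cast at this
          exact this
        have hρ1 : (1 : ℝ) ≤ ρ s := by exact_mod_cast hρ s
        by_cases hmi : m = i
        · -- contradiction
          exfalso
          subst hmi
          have h5 : a m ≤ (1 / 2) * (Real.exp (κ * ρ s) *
              (Real.exp (-(rate κ s * |(m : ℝ) - l|)) * a m)) := by
            refine hl.trans ?_
            have := mul_le_mul_of_nonneg_left hm (Real.exp_pos (κ * ρ s)).le
            linarith
          have h6 : Real.exp (κ * ρ s) * Real.exp (-(rate κ s * |(m : ℝ) - l|)) ≤ 1 := by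
            rw [← Real.exp_add]
            rw [Real.exp_le_one_iff]
            have h7 : κ * ρ s ≤ rate κ s * |(m : ℝ) - l| := by
              rw [abs_sub_comm]
              exact mul_le_mul (rate_ge κ hκ.le s) hlR (by positivity)
                (hκ.le.trans (rate_ge κ hκ.le s))
            linarith
          have h8 : 0 < a m := lt_of_le_of_ne (ha m) (Ne.symm hi)
          have h9 : Real.exp (κ * ρ s) * (Real.exp (-(rate κ s * |(m : ℝ) - l|)) * a m) ≤ a m := by
            rw [← mul_assoc]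
            have := mul_le_mul_of_nonneg_right h6 h8.le
            linarith
          linarith
        · have hmR : (R s : ℤ) < |m - i| := by
            by_contra h10
            exact hmJ ⟨hmi, not_lt.mp h10⟩
          refine ⟨m, hmi, ?_⟩
          refine hl.trans ?_
          have h5 : Real.exp (κ * ρ s) * a l ≤ Real.exp (κ * ρ s) *
              (Real.exp (-(rate κ s * |(m : ℝ) - l|)) * a m) :=
            mul_le_mul_of_nonneg_left hm (Real.exp_pos _).le
          have h6 : Real.exp (κ * ρ s) * Real.exp (-(rate κ s * |(m : ℝ) - l|)) ≤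
              Real.exp (-(rate κ (s + 1) * |(m : ℝ) - i|)) := by
            rw [← Real.exp_add]
            apply Real.exp_le_exp.mpr
            have h7 : |(m : ℝ) - i| ≤ |(m : ℝ) - l| + |(l : ℝ) - i| := by
              have := abs_add_le ((m : ℝ) - l) ((l : ℝ) - i)
              simpa using this
            have hmR' : (R s : ℝ) ≤ |(m : ℝ) - i| := by
              have : ((R s : ℤ) : ℝ) ≤ ((|m - i| : ℤ) : ℝ) := by exact_mod_cast hmR.le
              push_cast at this
              exact this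
            have hR' : (5 * ρ s * 2 ^ (s + 1) : ℝ) ≤ R s := by exact_mod_cast hR s
            have h8 := rate_succ κ s
            have h9 := rate_le κ hκ.le s
            have h10 : 0 ≤ rate κ s := hκ.le.trans (rate_ge κ hκ.le s)
            have h11 : rate κ s * |(m : ℝ) - i| ≤ rate κ s * |(m : ℝ) - l| +
                rate κ s * (ρ s + 1) := by
              have := mul_le_mul_of_nonneg_left (h7.trans (add_le_add_right hlR2 _)) h10
              linarith
            have h12 : rate κ s * ((ρ s : ℝ) + 1) ≤ 2 * κ * ((ρ s : ℝ) + 1) :=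
              mul_le_mul_of_nonneg_right h9 (by positivity)
            have h13 : κ * (1 / 2) ^ (s + 1) * (5 * ρ s * 2 ^ (s + 1)) ≤
                κ * (1 / 2) ^ (s + 1) * |(m : ℝ) - i| :=
              mul_le_mul_of_nonneg_left (hR'.trans hmR') (by positivity)
            have h14 : κ * (1 / 2) ^ (s + 1) * (5 * ρ s * 2 ^ (s + 1)) = 5 * κ * ρ s := by
              have : ((1 : ℝ) / 2) ^ (s + 1) * 2 ^ (s + 1) = 1 := by
                rw [← mul_pow]; norm_num
              calc κ * (1 / 2) ^ (s + 1) * (5 * ρ s * 2 ^ (s + 1))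
                  = 5 * κ * ρ s * ((1 / 2) ^ (s + 1) * 2 ^ (s + 1)) := by ring
                _ = 5 * κ * ρ s := by rw [this]; ring
            have h15 : κ ≤ κ * ρ s := by nlinarith
            have h16 : rate κ (s + 1) * |(m : ℝ) - i| = rate κ s * |(m : ℝ) - i| -
                κ * (1 / 2) ^ (s + 1) * |(m : ℝ) - i| := by
              rw [← h8]; ring
            nlinarith
          have h7 := mul_le_mul_of_nonneg_right h6 (ha m)
          nlinarith
      · refine (ih i hi hBs').mono ha ?_
        have := rate_succ κ s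
        have h2 : 0 ≤ κ * (1 / 2) ^ (s + 1) := by positivity
        linarith
  -- conclusion
  by_cases hall : ∀ i, a i = 0
  · exact ⟨0, fun i => by rw [hall i, hall 0]; simp⟩
  push Not at hall
  obtain ⟨i₁, hi₁⟩ := hall
  have hi₁F : i₁ ∈ F := by
    by_contra h
    exact hi₁ (hF i₁ h)
  obtain ⟨i₀, hi₀F, hmax⟩ := Finset.exists_max_image F a ⟨i₁, hi₁F⟩
  have hi₀ : a i₀ ≠ 0 := by
    intro h
    have := hmax i₁ hi₁F
    rw [h] at this
    exact hi₁ (le_antisymm this (ha i₁))
  have hmax' : ∀ i, a i ≤ a i₀ := by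
    intro i
    by_cases h : i ∈ F
    · exact hmax i h
    · rw [hF i h]; exact ha i₀
  -- diameter of F
  obtain ⟨N, hN⟩ : ∃ N : ℕ, ∀ i ∈ F, |i| ≤ (N : ℤ) := by
    refine ⟨∑ i ∈ F, i.natAbs, fun i hi => ?_⟩
    have : i.natAbs ≤ ∑ i ∈ F, i.natAbs :=
      Finset.single_le_sum (f := fun i : ℤ => i.natAbs) (fun _ _ => Nat.zero_le _) hi
    have h2 : |i| = (i.natAbs : ℤ) := Int.abs_eq_natAbs i
    rw [h2]
    exact_mod_cast this
  obtain ⟨s, hs⟩ := hRtop (2 * N)
  have huniq : ∀ i i', a i ≠ 0 → a i' ≠ 0 → B s i → B s i' → ¬ i < i' := by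
    intro i i' hai hai' h1 h2 h3
    have h4 := hsep s i i' h1 h2 h3
    have h5 : |i| ≤ N := hN i (by by_contra h; exact hai (hF i h))
    have h6 : |i'| ≤ N := hN i' (by by_contra h; exact hai' (hF i' h))
    rw [abs_le] at h5 h6
    omega
  have hB0' : B s i₀ := by
    by_contra hnB
    obtain ⟨l, hl, h⟩ := hgood s i₀ hi₀ hnB
    have h1 : Real.exp (-(rate κ s * |(l : ℝ) - i₀|)) * a l ≤ a i₀ := by
      have h2 : Real.exp (-(rate κ s * |(l : ℝ) - i₀|)) ≤ 1 := by
        rw [Real.exp_le_one_iff]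
        have := mul_nonneg (hκ.le.trans (rate_ge κ hκ.le s)) (abs_nonneg ((l : ℝ) - i₀))
        linarith
      have h3 := mul_le_mul h2 (hmax' l) (ha l) zero_le_one
      linarith
    have h4 : 0 < a i₀ := lt_of_le_of_ne (ha i₀) (Ne.symm hi₀)
    linarith
  refine ⟨i₀, fun i => ?_⟩
  by_cases hai : a i = 0
  · rw [hai]
    exact mul_nonneg (Real.exp_pos _).le (ha i₀)
  obtain ⟨l, hlJ, hal, hl⟩ := maxp a ha F hF κ hκ.le (fun l => l ≠ i₀)
    (by
      intro l hl hal
      have hnB : ¬ B s l := by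
        intro hBl
        rcases lt_trichotomy l i₀ with h | h | h
        · exact huniq l i₀ hal hi₀ hBl hB0' h
        · exact hl h
        · exact huniq i₀ l hi₀ hal hB0' hBl h
      exact (hgood s l hal hnB).mono ha (rate_ge κ hκ.le s)) i hai
  have hli : l = i₀ := by
    by_contra h
    exact hlJ h
  subst hli
  rw [abs_sub_comm]
  exact hl

end Pool.Agent.N658.PP
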