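import Mathlib
import Pool.Agent.N658.PP.Dir
import Pool.Agent.N658.PP.MSA

set_option autoImplicit false

/-! Localization of Dirichlet eigenfunctions with respect to a periodic array of cuts. -/

namespace Pool.Agent.N658.PP

open Finset

/-- the `ℓ²` mass on `[x, y)` -/
noncomputable def mass (u : ℤ → ℝ) (x y : ℤ) : ℝ := Real.sqrt (∑ z ∈ Ico x y, u z ^ 2)

lemma mass_nonneg (u : ℤ → ℝ) (x y : ℤ) : 0 ≤ mass u x y := Real.sqrt_nonneg _

lemma mass_sq (u : ℤ → ℝ) (x y : ℤ) : mass u x y ^ 2 = ∑ z ∈ Ico x y, u z ^ 2 :=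
  Real.sq_sqrt (sum_nonneg fun _ _ => sq_nonneg _)

lemma abs_le_mass (u : ℤ → ℝ) (x y z : ℤ) (h1 : x ≤ z) (h2 : z < y) : |u z| ≤ mass u x y := by
  rw [mass, ← Real.sqrt_sq_eq_abs]
  apply Real.sqrt_le_sqrt
  exact single_le_sum (f := fun z => u z ^ 2) (fun _ _ => sq_nonneg _) (mem_Ico.mpr ⟨h1, h2⟩)

lemma mass_mono (u : ℤ → ℝ) (x y x' y' : ℤ) (h1 : x' ≤ x) (h2 : y ≤ y') :
    mass u x y ≤ mass u x' y' := by
  apply Real.sqrt_le_sqrt
  exact sum_le_sum_of_subset_of_nonneg (Ico_subset_Ico h1 h2) (fun _ _ _ => sq_nonneg _)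

lemma mass_eq_zero (u : ℤ → ℝ) (x y : ℤ) (h : ∀ z, x ≤ z → z < y → u z = 0) : mass u x y = 0 := by
  rw [mass, sum_eq_zero, Real.sqrt_zero]
  intro z hz
  rw [mem_Ico] at hz
  rw [h z hz.1 hz.2]; norm_num

lemma sum_two_points (F : Finset ℤ) (y z : ℤ) (α β : ℝ) (hα : 0 ≤ α) (hβ : 0 ≤ β) :
    ∑ x ∈ F, ((if x = y then α else 0) + (if x = z then β else 0)) ^ 2 ≤ (α + β) ^ 2 := by
  have h1 : ∀ x ∈ F, ((if x = y then α else 0) + (if x = z then β else 0)) ^ 2 ≤
      ((if x = y then α else 0) + (if x = z then β else 0)) * (α + β) := by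
    intro x _
    rw [pow_two]
    apply mul_le_mul_of_nonneg_left
    · apply add_le_add
      · split_ifs <;> linarith
      · split_ifs <;> linarith
    · apply add_nonneg <;> split_ifs <;> linarith
  refine (sum_le_sum h1).trans ?_
  rw [← sum_mul, sum_add_distrib, sum_ite_eq', sum_ite_eq', pow_two]
  apply mul_le_mul_of_nonneg_right
  · apply add_le_add
    · split_ifs <;> linarith
    · split_ifs <;> linarith
  · positivity

/-- restriction of an eigenfunction to a stretch `[p, q)` free of resonances -/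
lemma star (v : ℤ → ℝ) (lo hi : ℤ) (E : ℝ) (u : ℤ → ℝ) (hu : IsEig v lo hi E u) (p q : ℤ)
    (h : ℝ) (hno : ∀ e ∈ Spec v (max lo p) (min hi q), h ≤ |e - E|) :
    h * mass u p q ≤ |u (p - 1)| + |u q| := by
  classical
  obtain ⟨hsupp, heq, -⟩ := hu
  set w : ℤ → ℝ := fun x => if p ≤ x ∧ x < q then u x else 0 with hw
  have hws : Supp (max lo p) (min hi q) w := by
    intro x hx
    simp only [hw]
    by_cases h1 : p ≤ x ∧ x < q
    · rw [if_pos h1]
      apply hsupp
      rcases hx with hx | hx
      · rcases lt_max_iff.mp hx with h2 | h2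
        · left; exact h2
        · omega
      · rcases min_le_iff.mp hx with h2 | h2
        · right; exact h2
        · omega
    · rw [if_neg h1]
  by_cases hne : ∃ x, w x ≠ 0
  swap
  · push Not at hne
    have : mass u p q = 0 := by
      apply mass_eq_zero
      intro z h1 h2
      have := hne z
      simp only [hw] at this
      rwa [if_pos ⟨h1, h2⟩] at this
    rw [this, mul_zero]
    positivity
  have hmass : ∑ x ∈ Ico (max lo p) (min hi q), w x ^ 2 = mass u p q ^ 2 := by
    rw [mass_sq]
    have h1 : ∑ z ∈ Ico p q, u z ^ 2 = ∑ z ∈ Ico p q, w z ^ 2 := by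
      refine sum_congr rfl fun z hz => ?_
      rw [mem_Ico] at hz
      simp only [hw]
      rw [if_pos hz]
    rw [h1]
    refine sum_subset (Ico_subset_Ico (le_max_right _ _) (min_le_right _ _)) ?_
    intro z _ hz
    rw [mem_Ico, not_and_or, not_le, not_lt] at hz
    rw [hws z hz]; norm_num
  have hmpos : 0 < mass u p q := by
    obtain ⟨x, hx⟩ := hne
    have h1 : p ≤ x ∧ x < q := by
      by_contra h
      apply hx
      simp only [hw]
      rw [if_neg h]
    have h2 : u x ≠ 0 := by
      simp only [hw] at hx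
      rwa [if_pos h1] at hx
    exact lt_of_lt_of_le (abs_pos.mpr h2) (abs_le_mass u p q x h1.1 h1.2)
  by_contra hcon
  push Not at hcon
  set s : ℝ := |u (p - 1)| + |u q| with hs
  have hs0 : 0 ≤ s := by positivity
  obtain ⟨e, he, he2⟩ := spec_near w E (s / mass u p q) hws hne (by positivity) (by
    rw [hmass, div_pow, div_mul_cancel₀ _ (by positivity)]
    refine le_trans (sum_le_sum (g := fun x => ((if x = p then |u (p - 1)| else 0) +
      (if x = q - 1 then |u q| else 0)) ^ 2) fun x hx => ?_)
      (sum_two_points _ p (q - 1) _ _ (abs_nonneg _) (abs_nonneg _))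
    rw [mem_Ico, max_le_iff, lt_min_iff] at hx
    obtain ⟨⟨hx1, hx2⟩, hx3, hx4⟩ := hx
    have hE := heq x hx1 hx3
    have hwx : w x = u x := by
      simp only [hw]; rw [if_pos ⟨hx2, hx4⟩]
    have hwp : w (x + 1) = u (x + 1) - (if x = q - 1 then u q else 0) := by
      simp only [hw]
      by_cases h1 : x = q - 1
      · rw [if_neg (by omega), if_pos h1, h1]; simp
      · rw [if_pos (by omega), if_neg h1]; simp
    have hwm : w (x - 1) = u (x - 1) - (if x = p then u (p - 1) else 0) := by
      simp only [hw]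
      by_cases h1 : x = p
      · rw [if_neg (by omega), if_pos h1, h1]; simp
      · rw [if_pos (by omega), if_neg h1]; simp
    have hval : H v w x - E * w x =
        -((if x = p then u (p - 1) else 0) + (if x = q - 1 then u q else 0)) := by
      unfold H at hE ⊢
      rw [hwx, hwp, hwm]
      linear_combination hE
    rw [hval, neg_sq]
    have habs : |(if x = p then u (p - 1) else 0) + (if x = q - 1 then u q else 0)| ≤
        (if x = p then |u (p - 1)| else 0) + (if x = q - 1 then |u q| else 0) := by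
      refine (abs_add_le _ _).trans (le_of_eq ?_)
      split_ifs <;> simp
    rw [← sq_abs]
    exact pow_le_pow_left₀ (abs_nonneg _) habs 2)
  have h3 := hno e he
  have h4 : s / mass u p q < h := by
    rw [div_lt_iff₀ hmpos]; exact hcon
  linarith

/-- radius of the boxes of scale `s + 1` -/
def rad (s : ℕ) : ℕ := 16 ^ (s + 1)

/-- separation of the resonant wells of level `s` -/
def sepn (s : ℕ) : ℕ := 5 * 32 ^ (s + 1)

/-- length of the stretches of level `s`, in units of the well length -/
def stretch (s : ℕ) : ℕ := 256 * 32 ^ s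

lemma stretch_ge (s : ℕ) : sepn s + 2 * rad s + 1 ≤ stretch s := by
  unfold sepn rad stretch
  have h1 : 16 ^ (s + 1) ≤ 32 ^ (s + 1) := Nat.pow_le_pow_left (by norm_num) _
  have h2 : 1 ≤ 32 ^ (s + 1) := Nat.one_le_pow _ _ (by norm_num)
  have h3 : 256 * 32 ^ s = 8 * 32 ^ (s + 1) := by rw [pow_succ]; ring
  omega

/-- resonant wells -/
def Res (v : ℤ → ℝ) (lo hi : ℤ) (E : ℝ) (c : ℤ → ℤ) (h : ℕ → ℝ) : ℕ → ℤ → Prop
  | 0, i => ∃ e ∈ Spec v (max lo (c i)) (min hi (c (i + 1))), |e - E| < h 0
  | s + 1, i => Res v lo hi E c h s i ∧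
      ∃ e ∈ Spec v (max lo (c (i - rad s))) (min hi (c (i + rad s + 1))), |e - E| < h (s + 1)

/-- Localization of a Dirichlet eigenfunction. -/
theorem localize (v : ℤ → ℝ) (n : ℕ) (hn : 1 ≤ n) (lo hi : ℤ) (E : ℝ) (u : ℤ → ℝ)
    (hu : IsEig v lo hi E u) (c₀ : ℤ) (κ τ : ℝ) (hκ : 0 < κ) (hτ : 0 ≤ τ) (h : ℕ → ℝ)
    (hh : ∀ s, 0 < h s) (hτ0 : 4 * τ ≤ h 0 * Real.exp (-(2 * κ)))
    (hτs : ∀ s, 4 * τ ≤ h (s + 1) * Real.exp (κ * rad s))
    (hsep : ∀ s, Sep v (stretch s * n) (2 * h s))
    (hcut : ∀ i : ℤ, |u (c₀ + i * n)| ≤ τ * max (mass u (c₀ + (i - 1) * n) (c₀ + i * n))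
        (mass u (c₀ + i * n) (c₀ + (i + 1) * n)) ∧
      |u (c₀ + i * n - 1)| ≤ τ * max (mass u (c₀ + (i - 1) * n) (c₀ + i * n))
        (mass u (c₀ + i * n) (c₀ + (i + 1) * n))) :
    ∃ i₀ : ℤ, ∀ i : ℤ, mass u (c₀ + i * n) (c₀ + (i + 1) * n) ≤
      Real.exp (-(κ * |(i : ℝ) - i₀|)) * mass u (c₀ + i₀ * n) (c₀ + (i₀ + 1) * n) := by
  set c : ℤ → ℤ := fun i => c₀ + i * n with hc
  set a : ℤ → ℝ := fun i => mass u (c i) (c (i + 1)) with ha
  have hcmono : ∀ i j : ℤ, i ≤ j → c i ≤ c j := by
    intro i j hij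
    simp only [hc]
    have : i * (n : ℤ) ≤ j * n := mul_le_mul_of_nonneg_right hij (by omega)
    omega
  have ha0 : ∀ i, 0 ≤ a i := fun i => mass_nonneg _ _ _
  have hcutl : ∀ i, |u (c i)| ≤ τ * max (a (i - 1)) (a i) := by
    intro i
    have := (hcut i).1
    simp only [ha, hc]
    rw [show i - 1 + 1 = i by ring]
    exact this
  have hcutr : ∀ i, |u (c i - 1)| ≤ τ * max (a (i - 1)) (a i) := by
    intro i
    have := (hcut i).2
    simp only [ha, hc]
    rw [show i - 1 + 1 = i by ring]
    exact this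
  -- finite support
  set L : ℤ := |lo| + |hi| + |c₀| + 1 with hL
  have hsupp : ∀ i, i ∉ Icc (-L) L → a i = 0 := by
    intro i hi'
    rw [mem_Icc, not_and_or, not_le, not_le] at hi'
    apply mass_eq_zero
    intro z h1 h2
    apply hu.1
    have b1 := abs_le.mp (le_refl |lo|)
    have b2 := abs_le.mp (le_refl |hi|)
    have b3 := abs_le.mp (le_refl |c₀|)
    have hn' : (1 : ℤ) ≤ n := by exact_mod_cast hn
    rcases hi' with h3 | h3
    · left
      have : (i + 1) * (n : ℤ) ≤ (i + 1) * 1 := by
        apply mul_le_mul_of_nonpos_left hn'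
        have := abs_nonneg lo
        have := abs_nonneg hi
        have := abs_nonneg c₀
        omega
      simp only [hc] at h2
      omega
    · right
      have : i * 1 ≤ i * (n : ℤ) := by
        apply mul_le_mul_of_nonneg_left hn'
        have := abs_nonneg lo
        have := abs_nonneg hi
        have := abs_nonneg c₀
        omega
      simp only [hc] at h1
      omega
  have hsepB : ∀ s i i', Res v lo hi E c h s i → Res v lo hi E c h s i' → i < i' →
      (sepn s : ℤ) < i' - i := by
    intro s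
    induction s with
    | zero =>
      intro i i' hi1 hi2 hlt
      by_contra hcon
      push Not at hcon
      obtain ⟨e, he, he2⟩ := hi1
      obtain ⟨e', he', he2'⟩ := hi2
      have l1 := spec_lt he
      have l2 := spec_lt he'
      have hs := stretch_ge 0
      have h1 : c (i' + 1) ≤ c i + (stretch 0 * n : ℕ) := by
        simp only [hc]
        have h2 : (i' + 1 - i) * (n : ℤ) ≤ (stretch 0 : ℤ) * n :=
          mul_le_mul_of_nonneg_right (by omega) (by omega)
        push_cast
        linarith
      have h3 := hcmono (i + 1) i' (by omega)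
      have hS := hsep 0 (max lo (c i)) (min hi (c (i + 1))) (max lo (c i')) (min hi (c (i' + 1)))
        l1.le ((min_le_right _ _).trans (h3.trans (le_max_right _ _))) l2.le
        (by
          have h4 : min hi (c (i' + 1)) ≤ c (i' + 1) := min_le_right _ _
          have h5 : c i ≤ max lo (c i) := le_max_right _ _
          push_cast at h1
          linarith) e he e' he'
      have h6 : |e - e'| < 2 * h 0 := by
        calc |e - e'| = |(e - E) - (e' - E)| := by ring_nf
          _ ≤ |e - E| + |e' - E| := abs_sub _ _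
          _ < 2 * h 0 := by linarith
      linarith
    | succ s ih =>
      intro i i' hi1 hi2 hlt
      have h0 := ih i i' hi1.1 hi2.1 hlt
      by_contra hcon
      push Not at hcon
      obtain ⟨-, e, he, he2⟩ := hi1
      obtain ⟨-, e', he', he2'⟩ := hi2
      have l1 := spec_lt he
      have l2 := spec_lt he'
      have hs := stretch_ge (s + 1)
      have hr : rad s ≤ rad (s + 1) := by
        unfold rad
        exact Nat.pow_le_pow_right (by norm_num) (by omega)
      have hrs : 2 * rad s + 1 ≤ sepn s := by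
        unfold rad sepn
        have h1 : 16 ^ (s + 1) ≤ 32 ^ (s + 1) := Nat.pow_le_pow_left (by norm_num) _
        have h2 : 1 ≤ 32 ^ (s + 1) := Nat.one_le_pow _ _ (by norm_num)
        omega
      have h1 : c (i' + rad s + 1) ≤ c (i - rad s) + (stretch (s + 1) * n : ℕ) := by
        simp only [hc]
        have h2 : (i' + rad s + 1 - (i - rad s)) * (n : ℤ) ≤ (stretch (s + 1) : ℤ) * n :=
          mul_le_mul_of_nonneg_right (by omega) (by omega)
        push_cast
        linarith
      have h3 := hcmono (i + rad s + 1) (i' - rad s) (by omega)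
      have hS := hsep (s + 1) (max lo (c (i - rad s))) (min hi (c (i + rad s + 1)))
        (max lo (c (i' - rad s))) (min hi (c (i' + rad s + 1)))
        l1.le ((min_le_right _ _).trans (h3.trans (le_max_right _ _))) l2.le
        (by
          have h4 : min hi (c (i' + rad s + 1)) ≤ c (i' + rad s + 1) := min_le_right _ _
          have h5 : c (i - rad s) ≤ max lo (c (i - rad s)) := le_max_right _ _
          push_cast at h1
          linarith) e he e' he'
      have h6 : |e - e'| < 2 * h (s + 1) := by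
        calc |e - e'| = |(e - E) - (e' - E)| := by ring_nf
          _ ≤ |e - E| + |e' - E| := abs_sub _ _
          _ < 2 * h (s + 1) := by linarith
      linarith
  have hexp1 : Real.exp (-(2 * κ)) < 1 := by
    rw [Real.exp_lt_one_iff]; linarith
  refine msa a ha0 (Icc (-L) L) hsupp κ hκ (Res v lo hi E c h) rad sepn ?_ ?_ hsepB ?_ ?_ ?_
  · -- nonresonant wells
    intro i hB
    have hno : ∀ e ∈ Spec v (max lo (c i)) (min hi (c (i + 1))), h 0 ≤ |e - E| := by
      intro e he
      by_contra hcon
      exact hB ⟨e, he, not_le.mp hcon⟩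
    have h1 := star v lo hi E u hu (c i) (c (i + 1)) (h 0) hno
    have h2 := hcutr i
    have h3 := hcutl (i + 1)
    rw [show i + 1 - 1 = i by ring] at h3
    have hai : a i = mass u (c i) (c (i + 1)) := rfl
    rw [← hai] at h1
    set m := max (a (i - 1)) (a (i + 1)) with hm
    have hm0 : 0 ≤ m := le_trans (ha0 (i - 1)) (le_max_left _ _)
    have hml : a (i - 1) ≤ m := le_max_left _ _
    have hmr : a (i + 1) ≤ m := le_max_right _ _
    by_cases hle : a i ≤ m
    · have h4 : max (a (i - 1)) (a i) ≤ m := max_le hml hle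
      have h5 : max (a i) (a (i + 1)) ≤ m := max_le hle hmr
      have h6 : h 0 * a i ≤ 2 * τ * m := by
        have := mul_le_mul_of_nonneg_left h4 hτ
        have := mul_le_mul_of_nonneg_left h5 hτ
        linarith
      have h7 : h 0 * a i ≤ h 0 * ((1 / 2) * (Real.exp (-(2 * κ)) * m)) := by
        have := mul_le_mul_of_nonneg_right hτ0 hm0
        nlinarith
      exact le_of_mul_le_mul_left h7 (hh 0)
    · push Not at hle
      have h4 : max (a (i - 1)) (a i) ≤ a i := max_le (hml.trans hle.le) le_rfl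
      have h5 : max (a i) (a (i + 1)) ≤ a i := max_le le_rfl (hmr.trans hle.le)
      have h6 : h 0 * a i ≤ 2 * τ * a i := by
        have := mul_le_mul_of_nonneg_left h4 hτ
        have := mul_le_mul_of_nonneg_left h5 hτ
        linarith
      exfalso
      have h7 : 0 < a i := lt_of_le_of_lt hm0 hle
      have h8 : h 0 ≤ 2 * τ := le_of_mul_le_mul_right h6 h7
      have h9 := hh 0
      nlinarith
  · -- resonant wells that are not resonant at the next scale
    intro s i hB hnB
    have hno : ∀ e ∈ Spec v (max lo (c (i - rad s))) (min hi (c (i + rad s + 1))),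
        h (s + 1) ≤ |e - E| := by
      intro e he
      by_contra hcon
      exact hnB ⟨hB, e, he, not_le.mp hcon⟩
    have h1 := star v lo hi E u hu (c (i - rad s)) (c (i + rad s + 1)) (h (s + 1)) hno
    have h2 := hcutr (i - rad s)
    have h3 := hcutl (i + rad s + 1)
    rw [show i + rad s + 1 - 1 = i + rad s by ring] at h3
    have h4 : a i ≤ mass u (c (i - rad s)) (c (i + rad s + 1)) := by
      apply mass_mono
      · exact hcmono _ _ (by omega)
      · exact hcmono _ _ (by omega)
    set m := max (max (a (i - rad s - 1)) (a (i - rad s)))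
      (max (a (i + rad s)) (a (i + rad s + 1))) with hm
    have hm0 : 0 ≤ m := le_trans (ha0 (i - rad s)) ((le_max_right _ _).trans (le_max_left _ _))
    have h5 : τ * max (a (i - rad s - 1)) (a (i - rad s)) ≤ τ * m :=
      mul_le_mul_of_nonneg_left (le_max_left _ _) hτ
    have h6 : τ * max (a (i + rad s)) (a (i + rad s + 1)) ≤ τ * m :=
      mul_le_mul_of_nonneg_left (le_max_right _ _) hτ
    have h7 : h (s + 1) * a i ≤ 2 * τ * m := by
      have := mul_le_mul_of_nonneg_left h4 (hh (s + 1)).le
      linarith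
    have h8 : h (s + 1) * a i ≤ h (s + 1) * ((1 / 2) * (Real.exp (κ * rad s) * m)) := by
      have := mul_le_mul_of_nonneg_right (hτs s) hm0
      nlinarith
    exact le_of_mul_le_mul_left h8 (hh (s + 1))
  · intro s
    unfold rad
    exact Nat.one_le_pow _ _ (by norm_num)
  · intro s
    unfold rad sepn
    rw [show 5 * 16 ^ (s + 1) * 2 ^ (s + 1) = 5 * (16 ^ (s + 1) * 2 ^ (s + 1)) by ring,
      ← mul_pow]
    norm_num
  · intro N
    refine ⟨N, ?_⟩
    unfold sepn
    have : N < 32 ^ N := Nat.lt_pow_self (by norm_num)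
    have h2 : 32 ^ N ≤ 32 ^ (N + 1) := Nat.pow_le_pow_right (by norm_num) (by omega)
    omega

end Pool.Agent.N658.PP
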