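import Mathlib
import Pool.Agent.N658.PP.Wells

set_option autoImplicit false

/-! Uniform localization of the Dirichlet eigenfunctions of an exhausting family of intervals
implies that the eigenvectors of the whole-line operator span a dense subspace. -/

namespace Pool.Agent.N658.PP

open Finset Filter Topology

lemma eig_bound {V : ℤ → ℝ} {Cv : ℝ} (hV : ∀ x, |V x| ≤ Cv) {lo hi : ℤ} {E : ℝ} {u : ℤ → ℝ}
    (hu : IsEig V lo hi E u) : |E| ≤ 2 + Cv := by
  obtain ⟨hs, he, y, hy⟩ := hu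
  have hym : y ∈ Ico lo hi := by
    rw [mem_Ico]
    by_contra h
    exact hy (hs y (by omega))
  obtain ⟨x, hx, hmax⟩ := exists_max_image (Ico lo hi) (fun x => |u x|) ⟨y, hym⟩
  have hmax' : ∀ z, |u z| ≤ |u x| := by
    intro z
    by_cases hz : z ∈ Ico lo hi
    · exact hmax z hz
    · rw [mem_Ico] at hz
      rw [hs z (by omega), abs_zero]
      exact abs_nonneg _
  have hpos : 0 < |u x| := lt_of_lt_of_le (abs_pos.mpr hy) (hmax' y)
  rw [mem_Ico] at hx
  have h1 := he x hx.1 hx.2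
  have h2 : |E| * |u x| ≤ (2 + Cv) * |u x| := by
    rw [← abs_mul, ← h1, H]
    calc |u (x + 1) + u (x - 1) + V x * u x| ≤ |u (x + 1) + u (x - 1)| + |V x * u x| :=
          abs_add_le _ _
      _ ≤ |u (x + 1)| + |u (x - 1)| + |V x| * |u x| := by
          rw [abs_mul]; gcongr; exact abs_add_le _ _
      _ ≤ |u x| + |u x| + Cv * |u x| :=
          add_le_add (add_le_add (hmax' _) (hmax' _))
            (mul_le_mul_of_nonneg_right (hV x) (abs_nonneg _))
      _ = (2 + Cv) * |u x| := by ring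
  exact le_of_mul_le_mul_right h2 hpos

lemma summable_exp_int (κ : ℝ) (hκ : 0 < κ) (c : ℝ) :
    Summable (fun x : ℤ => Real.exp (-(κ * |(x : ℝ) - c|))) := by
  have h1 : Summable (fun n : ℕ => Real.exp (κ * |c|) * Real.exp (-κ) ^ n) :=
    (summable_geometric_of_lt_one (Real.exp_pos _).le (by
      rw [Real.exp_lt_one_iff]; linarith)).mul_left _
  have key : ∀ (x : ℝ) (n : ℕ), |x| = n → Real.exp (-(κ * |x - c|)) ≤
      Real.exp (κ * |c|) * Real.exp (-κ) ^ n := by
    intro x n hx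
    rw [← Real.exp_nat_mul, ← Real.exp_add]
    apply Real.exp_le_exp.mpr
    have h2 : |x| ≤ |x - c| + |c| := by
      have := abs_add_le (x - c) c
      simpa using this
    rw [hx] at h2
    have := mul_le_mul_of_nonneg_left h2 hκ.le
    linarith
  apply Summable.of_nat_of_neg
  · refine Summable.of_nonneg_of_le (fun n => (Real.exp_pos _).le) (fun n => ?_) h1
    exact key _ n (by push_cast; exact abs_of_nonneg (by positivity))
  · refine Summable.of_nonneg_of_le (fun n => (Real.exp_pos _).le) (fun n => ?_) h1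
    exact key _ n (by push_cast; rw [abs_neg]; exact abs_of_nonneg (by positivity))

/-- the set of (possibly zero) eigenvectors -/
def eigset (V : ℤ → ℝ) : Set (lp (fun _ : ℤ => ℂ) 2) :=
  {ψ | ∃ E : ℝ, ∀ n : ℤ, ψ (n + 1) + ψ (n - 1) + (V n : ℂ) * ψ n = (E : ℂ) * ψ n}

lemma memlp_of_exp (u : ℤ → ℝ) (C κ : ℝ) (hκ : 0 < κ) (hu : ∀ x : ℤ, |u x| ≤ C * Real.exp (-(κ * |(x : ℝ)|))) :
    Memℓp (fun x : ℤ => (u x : ℂ)) 2 := by
  apply memℓp_gen
  have hs := (summable_exp_int (2 * κ) (by linarith) 0).mul_left (C ^ 2)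
  refine Summable.of_nonneg_of_le (fun x => by positivity) (fun x => ?_) hs
  rw [Complex.norm_real, Real.norm_eq_abs]
  have h2 : (2 : ENNReal).toReal = ((2 : ℕ) : ℝ) := by norm_num
  rw [h2, Real.rpow_natCast]
  calc |u x| ^ 2 ≤ (C * Real.exp (-(κ * |(x : ℝ)|))) ^ 2 :=
        pow_le_pow_left₀ (abs_nonneg _) (hu x) 2
    _ = C ^ 2 * Real.exp (-(2 * κ * |(x : ℝ) - 0|)) := by
        rw [mul_pow, ← Real.exp_nat_mul, sub_zero]
        congr 2
        push_cast; ring

/-- compactness of uniformly localized eigenfunctions, tested against a vector orthogonal to all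
eigenvectors -/
lemma compactness (V : ℤ → ℝ) (Cv : ℝ) (hV : ∀ x, |V x| ≤ Cv) (C κ : ℝ) (hC : 0 ≤ C) (hκ : 0 < κ)
    (lo hi : ℕ → ℤ) (hex : ∀ x : ℤ, ∀ᶠ N in atTop, lo N ≤ x ∧ x < hi N)
    (φ : lp (fun _ : ℤ => ℂ) 2) (hφ : ∀ ψ ∈ eigset V, inner ℂ ψ φ = 0) (R ε : ℝ) (hε : 0 < ε) :
    ∃ N₀, ∀ N ≥ N₀, ∀ (E : ℝ) (u : ℤ → ℝ), IsEig V (lo N) (hi N) E u → ∀ c : ℤ, |(c : ℝ)| ≤ R →
      (∀ x : ℤ, |u x| ≤ C * Real.exp (-(κ * |(x : ℝ) - c|))) →
      ‖∑ y ∈ Ico (lo N) (hi N), (u y : ℂ) * φ y‖ ≤ ε := by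
  by_contra hcon
  push Not at hcon
  choose N hN E u hu c hc hloc hbig using hcon
  -- uniform decay
  set C' : ℝ := C * Real.exp (κ * R) with hC'
  have hloc' : ∀ j (x : ℤ), |u j x| ≤ C' * Real.exp (-(κ * |(x : ℝ)|)) := by
    intro j x
    refine (hloc j x).trans ?_
    rw [hC', mul_assoc, ← Real.exp_add]
    apply mul_le_mul_of_nonneg_left _ hC
    apply Real.exp_le_exp.mpr
    have h2 : |(x : ℝ)| ≤ |(x : ℝ) - c j| + |(c j : ℝ)| := by
      have := abs_add_le ((x : ℝ) - c j) (c j)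
      simpa using this
    have := mul_le_mul_of_nonneg_left (h2.trans (add_le_add_right (hc j) _)) hκ.le
    linarith
  have hC'0 : 0 ≤ C' := by positivity
  have hbd : ∀ j (x : ℤ), |u j x| ≤ C' := by
    intro j x
    refine (hloc' j x).trans ?_
    have : Real.exp (-(κ * |(x : ℝ)|)) ≤ 1 := by
      rw [Real.exp_le_one_iff]
      have : 0 ≤ κ * |(x : ℝ)| := by positivity
      linarith
    nlinarith
  have hK : IsCompact ((Set.univ.pi fun _ : ℤ => Set.Icc (-C') C') ×ˢ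
      Set.Icc (-(2 + Cv)) (2 + Cv)) :=
    (isCompact_univ_pi fun _ => isCompact_Icc).prod isCompact_Icc
  obtain ⟨⟨U, E₀⟩, -, σ, hσ, hlim⟩ := hK.tendsto_subseq (x := fun j => (u j, E j)) (by
    intro j
    refine ⟨?_, ?_⟩
    · intro x _
      exact ⟨(abs_le.mp (hbd j x)).1, (abs_le.mp (hbd j x)).2⟩
    · have := abs_le.mp (eig_bound hV (hu j))
      exact ⟨this.1, this.2⟩)
  rw [Prod.tendsto_iff] at hlim
  obtain ⟨hU, hE⟩ := hlim
  have hUx : ∀ x, Tendsto (fun j => u (σ j) x) atTop (𝓝 (U x)) := fun x =>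
    (tendsto_pi_nhds.mp hU) x
  have hE' : Tendsto (fun j => E (σ j)) atTop (𝓝 E₀) := hE
  have hNtop : Tendsto (fun j => N (σ j)) atTop atTop :=
    (tendsto_atTop_mono hN tendsto_id).comp hσ.tendsto_atTop
  -- the limit is an eigenvector
  have heq : ∀ x, H V U x = E₀ * U x := by
    intro x
    have h1 : Tendsto (fun j => H V (u (σ j)) x) atTop (𝓝 (H V U x)) := by
      unfold H
      exact ((hUx (x + 1)).add (hUx (x - 1))).add ((hUx x).const_mul (V x))
    have h2 : Tendsto (fun j => E (σ j) * u (σ j) x) atTop (𝓝 (E₀ * U x)) := hE'.mul (hUx x)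
    refine tendsto_nhds_unique (h1.congr' ?_) h2
    filter_upwards [hNtop.eventually (hex x)] with j hj
    exact (hu (σ j)).2.1 x hj.1 hj.2
  have hUdec : ∀ x : ℤ, |U x| ≤ C' * Real.exp (-(κ * |(x : ℝ)|)) := by
    intro x
    exact le_of_tendsto ((hUx x).abs) (Eventually.of_forall fun j => hloc' (σ j) x)
  set ψ : lp (fun _ : ℤ => ℂ) 2 := ⟨fun x : ℤ => (U x : ℂ), memlp_of_exp U C' κ hκ hUdec⟩ with hψ
  have hψx : ∀ x, ψ x = (U x : ℂ) := fun x => rfl
  have hψmem : ψ ∈ eigset V := by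
    refine ⟨E₀, fun x => ?_⟩
    rw [hψx, hψx, hψx]
    have h := congrArg (fun r : ℝ => (r : ℂ)) (heq x)
    unfold H at h
    simp only [Complex.ofReal_add, Complex.ofReal_mul] at h
    exact h
  have hinner := hφ ψ hψmem
  rw [lp.inner_eq_tsum] at hinner
  have hinner' : ∑' x : ℤ, (U x : ℂ) * φ x = 0 := by
    rw [← hinner]
    refine tsum_congr fun x => ?_
    rw [hψx, RCLike.inner_apply, Complex.conj_ofReal, mul_comm]
  -- dominated convergence
  have hdom : Tendsto (fun j => ∑' x : ℤ, (u (σ j) x : ℂ) * φ x) atTop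
      (𝓝 (∑' x : ℤ, (U x : ℂ) * φ x)) := by
    refine tendsto_tsum_of_dominated_convergence
      (bound := fun x : ℤ => C' * Real.exp (-(κ * |(x : ℝ) - 0|)) * ‖φ‖) ?_ ?_ ?_
    · exact ((summable_exp_int κ hκ 0).mul_left C').mul_right _
    · intro x
      exact ((Complex.continuous_ofReal.tendsto _).comp (hUx x)).mul_const _
    · refine Eventually.of_forall fun j x => ?_
      rw [norm_mul, Complex.norm_real, Real.norm_eq_abs, sub_zero]
      exact mul_le_mul (hloc' _ _) (lp.norm_apply_le_norm (by norm_num) φ x) (norm_nonneg _)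
        (by positivity)
  rw [hinner'] at hdom
  have hfin : ∀ j, ∑' x : ℤ, (u (σ j) x : ℂ) * φ x =
      ∑ y ∈ Ico (lo (N (σ j))) (hi (N (σ j))), (u (σ j) y : ℂ) * φ y := by
    intro j
    refine tsum_eq_sum fun x hx => ?_
    rw [mem_Ico] at hx
    rw [(hu (σ j)).1 x (by omega)]
    simp
  simp only [hfin] at hdom
  have h1 := hdom.norm
  rw [norm_zero] at h1
  have h2 := (h1.eventually (gt_mem_nhds hε)).exists
  obtain ⟨j, hj⟩ := h2
  exact absurd (hbig (σ j)) (not_lt.mpr hj.le)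

end Pool.Agent.N658.PP
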