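import Mathlib
import Pool.Agent.N658.PP.PurePoint

set_option autoImplicit false

/-! Density of the span of the eigenvectors. -/

namespace Pool.Agent.N658.PP

open Finset Filter Topology

namespace Sys

variable {v : ℤ → ℝ} {a b : ℤ} (S : Sys v a b)

lemma isEig (k : Finset.Ico a b) : IsEig v a b (S.E k) (S.φ k) := by
  refine ⟨S.supp k, S.eq k, ?_⟩
  by_contra h
  push Not at h
  have := S.orth k k
  simp [h] at this

lemma unit (k : Finset.Ico a b) : ∑ x ∈ Finset.Ico a b, S.φ k x ^ 2 = 1 := by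
  have := S.orth k k
  rw [if_pos rfl] at this
  rw [← this]
  exact sum_congr rfl fun x _ => by ring

lemma sum_sq_le (y : ℤ) : ∑ k, S.φ k y ^ 2 ≤ 1 := by
  by_cases hy : y ∈ Finset.Ico a b
  · have := S.comp y hy y hy
    rw [if_pos rfl] at this
    rw [← this]
    exact le_of_eq (sum_congr rfl fun x _ => by ring)
  · rw [Finset.mem_Ico] at hy
    have : ∀ k, S.φ k y ^ 2 = 0 := by
      intro k
      rw [S.supp k y (by omega)]; norm_num
    simp [this]

lemma abs_le_one (k : Finset.Ico a b) (y : ℤ) : |S.φ k y| ≤ 1 := by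
  have h1 := S.sum_sq_le y
  have h2 : S.φ k y ^ 2 ≤ ∑ k, S.φ k y ^ 2 :=
    single_le_sum (f := fun k => S.φ k y ^ 2) (fun _ _ => sq_nonneg _) (mem_univ k)
  rw [← sq_le_one_iff_abs_le_one]
  linarith

lemma bessel (w : ℤ → ℂ) : ∑ k, ‖∑ y ∈ Finset.Ico a b, (S.φ k y : ℂ) * w y‖ ^ 2 =
    ∑ y ∈ Finset.Ico a b, ‖w y‖ ^ 2 := by
  have h1 := S.parseval (fun y => (w y).re)
  have h2 := S.parseval (fun y => (w y).im)
  have h3 : ∀ k, ‖∑ y ∈ Finset.Ico a b, (S.φ k y : ℂ) * w y‖ ^ 2 =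
      (∑ y ∈ Finset.Ico a b, S.φ k y * (w y).re) ^ 2 +
      (∑ y ∈ Finset.Ico a b, S.φ k y * (w y).im) ^ 2 := by
    intro k
    rw [← Complex.normSq_eq_norm_sq, Complex.normSq_apply, Complex.re_sum, Complex.im_sum]
    simp only [Complex.re_ofReal_mul, Complex.im_ofReal_mul]
    ring
  simp only [h3]
  rw [sum_add_distrib, h1, h2, ← sum_add_distrib]
  refine sum_congr rfl fun y _ => ?_
  rw [← Complex.normSq_eq_norm_sq, Complex.normSq_apply]
  ring

end Sys

lemma mass_le_one {v : ℤ → ℝ} {a b : ℤ} (S : Sys v a b) (k : Finset.Ico a b) (x y : ℤ) :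
    mass (S.φ k) x y ≤ 1 := by
  rw [mass, Real.sqrt_le_one]
  rw [← S.unit k]
  have h1 : ∑ z ∈ Ico x y, S.φ k z ^ 2 = ∑ z ∈ (Ico x y).filter (fun z => z ∈ Ico a b),
      S.φ k z ^ 2 := by
    rw [sum_filter]
    refine sum_congr rfl fun z _ => ?_
    by_cases h : z ∈ Ico a b
    · rw [if_pos h]
    · rw [if_neg h]
      rw [mem_Ico] at h
      rw [S.supp k z (by omega)]; norm_num
  rw [h1]
  refine sum_le_sum_of_subset_of_nonneg ?_ (fun _ _ _ => sq_nonneg _)
  intro z hz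
  exact (mem_filter.mp hz).2

theorem pure_point (V : ℤ → ℝ) (Cv : ℝ) (hV : ∀ x, |V x| ≤ Cv) (C κ : ℝ) (hC : 0 < C) (hκ : 0 < κ)
    (D : ℕ) (lo hi : ℕ → ℤ) (hex : ∀ x : ℤ, ∀ᶠ N in atTop, lo N ≤ x ∧ x < hi N)
    (hule : ∀ N E u, IsEig V (lo N) (hi N) E u → ∃ c : ℤ, ∀ x : ℤ,
      |u x| ≤ C * Real.exp (-(κ * |(x : ℝ) - c|)) * mass u c (c + D)) :
    (Submodule.span ℂ (eigset V)).topologicalClosure = ⊤ := by
  classical
  rw [Submodule.topologicalClosure_eq_top_iff, Submodule.eq_bot_iff]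
  intro φ hφ
  have hφ' : ∀ ψ ∈ eigset V, inner ℂ ψ φ = 0 := fun ψ hψ =>
    (Submodule.mem_orthogonal _ _).mp hφ ψ (Submodule.subset_span hψ)
  by_contra hne
  obtain ⟨x₀, hx₀⟩ : ∃ x₀, φ x₀ ≠ 0 := by
    by_contra h
    push Not at h
    exact hne (lp.ext (funext h))
  set ε : ℝ := ‖φ x₀‖ with hε
  have hε0 : 0 < ε := norm_pos_iff.mpr hx₀
  set f : ℤ → ℝ := fun y => Real.exp (-(2 * κ * |(y : ℝ) - x₀|)) with hf
  have hfs : Summable f := summable_exp_int (2 * κ) (by linarith) x₀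
  set W : ℝ := C ^ 2 * Real.exp (2 * κ * D) with hW
  have hW0 : 0 < W := by positivity
  set Φ : ℝ := ‖φ‖ + 1 with hΦ
  have hΦ0 : 0 < Φ := by positivity
  obtain ⟨s0, hs0⟩ := summable_iff_vanishing_norm.mp hfs ((ε / 4) ^ 2 / (W * Φ ^ 2))
    (by positivity)
  -- radius of the near centres
  set R : ℝ := ∑ y ∈ s0, |(y : ℝ)| + D with hR
  have hR0 : 0 ≤ R := by positivity
  -- mass of the exponential
  set Z : ℝ := ∑' x : ℤ, Real.exp (-(2 * κ * |(x : ℝ) - ((0 : ℤ) : ℝ)|)) with hZ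
  have hZs : Summable (fun x : ℤ => Real.exp (-(2 * κ * |(x : ℝ) - ((0 : ℤ) : ℝ)|))) :=
    summable_exp_int (2 * κ) (by linarith) _
  have hZc : ∀ (c : ℤ) (F : Finset ℤ), ∑ x ∈ F, Real.exp (-(2 * κ * |(x : ℝ) - c|)) ≤ Z := by
    intro c F
    have h1 : Summable (fun x : ℤ => Real.exp (-(2 * κ * |(x : ℝ) - c|))) :=
      summable_exp_int (2 * κ) (by linarith) c
    refine (h1.sum_le_tsum F (fun _ _ => (Real.exp_pos _).le)).trans (le_of_eq ?_)
    rw [hZ, ← (Equiv.addRight c).tsum_eq (fun x : ℤ => Real.exp (-(2 * κ * |(x : ℝ) - c|)))]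
    refine tsum_congr fun x => ?_
    simp
  have hZ0 : 0 ≤ Z := tsum_nonneg fun _ => (Real.exp_pos _).le
  obtain ⟨R2, hR2⟩ := exists_nat_ge (R + D + 1)
  set Q : ℝ := C ^ 2 * Z * (2 * R2) with hQ
  have hQ0 : 0 ≤ Q := by positivity
  obtain ⟨N₀, hN₀⟩ := compactness V Cv hV C κ hC.le hκ lo hi hex φ hφ' R (ε / (4 * (Q + 1)))
    (by positivity)
  obtain ⟨N, hN1, hN2⟩ := ((hex x₀).and (eventually_ge_atTop N₀)).exists
  obtain ⟨S⟩ := exists_sys V (lo N) (hi N)
  have hcen : ∀ k, ∃ c : ℤ, ∀ x : ℤ, |S.φ k x| ≤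
      C * Real.exp (-(κ * |(x : ℝ) - c|)) * mass (S.φ k) c (c + D) := fun k =>
    hule N (S.E k) (S.φ k) (S.isEig k)
  choose c hc using hcen
  set g : Finset.Ico (lo N) (hi N) → ℂ := fun k => ∑ y ∈ Ico (lo N) (hi N), (S.φ k y : ℂ) * φ y
    with hg
  -- near and far
  set near : Finset.Ico (lo N) (hi N) → Prop := fun k => ∃ y ∈ s0, c k ≤ y ∧ y < c k + D with hnear
  have hnearR : ∀ k, near k → |(c k : ℝ)| ≤ R := by
    rintro k ⟨y, hy, h1, h2⟩
    have h3 : |(y : ℝ)| ≤ ∑ y ∈ s0, |(y : ℝ)| :=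
      single_le_sum (f := fun y : ℤ => |(y : ℝ)|) (fun _ _ => abs_nonneg _) hy
    have h4 : ((c k : ℤ) : ℝ) ≤ y := by exact_mod_cast h1
    have h5 : (y : ℝ) ≤ c k + D := by exact_mod_cast h2.le
    have h6 := abs_le.mp (le_refl |(y : ℝ)|)
    rw [abs_le, hR]
    have h7 : (0 : ℝ) ≤ D := by positivity
    constructor <;> linarith
  -- mass lower bound
  have hmassk : ∀ k, 1 ≤ C ^ 2 * Z * mass (S.φ k) (c k) (c k + D) ^ 2 := by
    intro k
    rw [← S.unit k]
    have h1 : ∀ x ∈ Ico (lo N) (hi N), S.φ k x ^ 2 ≤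
        (C ^ 2 * mass (S.φ k) (c k) (c k + D) ^ 2) * Real.exp (-(2 * κ * |(x : ℝ) - c k|)) := by
      intro x _
      rw [← sq_abs]
      refine (pow_le_pow_left₀ (abs_nonneg _) (hc k x) 2).trans (le_of_eq ?_)
      rw [mul_pow, mul_pow, ← Real.exp_nat_mul]
      have : (((2 : ℕ) : ℝ) * -(κ * |(x : ℝ) - c k|)) = -(2 * κ * |(x : ℝ) - c k|) := by
        push_cast; ring
      rw [this]; ring
    refine (sum_le_sum h1).trans ?_
    rw [← mul_sum]
    have h2 := hZc (c k) (Ico (lo N) (hi N))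
    calc (C ^ 2 * mass (S.φ k) (c k) (c k + D) ^ 2) *
          ∑ x ∈ Ico (lo N) (hi N), Real.exp (-(2 * κ * |(x : ℝ) - c k|))
        ≤ (C ^ 2 * mass (S.φ k) (c k) (c k + D) ^ 2) * Z :=
          mul_le_mul_of_nonneg_left h2 (by positivity)
      _ = _ := by ring
  -- the number of near eigenfunctions
  have hcount : ((univ.filter near).card : ℝ) ≤ Q := by
    have h1 : ((univ.filter near).card : ℝ) ≤ ∑ k ∈ univ.filter near,
        C ^ 2 * Z * mass (S.φ k) (c k) (c k + D) ^ 2 := by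
      rw [card_eq_sum_ones]
      push_cast
      exact sum_le_sum fun k _ => hmassk k
    refine h1.trans ?_
    have h2 : ∀ k ∈ univ.filter near, C ^ 2 * Z * mass (S.φ k) (c k) (c k + D) ^ 2 ≤
        C ^ 2 * Z * ∑ y ∈ Ico (-(R2 : ℤ)) R2, S.φ k y ^ 2 := by
      intro k hk
      rw [mem_filter] at hk
      have h3 := hnearR k hk.2
      rw [abs_le] at h3
      apply mul_le_mul_of_nonneg_left _ (by positivity)
      rw [mass_sq]
      refine sum_le_sum_of_subset_of_nonneg (Ico_subset_Ico ?_ ?_) (fun _ _ _ => sq_nonneg _)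
      · have : (-(R2 : ℝ)) ≤ c k := by
          have : (0 : ℝ) ≤ D := by positivity
          linarith
        exact_mod_cast this
      · have : ((c k : ℝ) + D) ≤ R2 := by linarith
        exact_mod_cast this
    refine (sum_le_sum h2).trans ?_
    rw [← mul_sum, hQ]
    apply mul_le_mul_of_nonneg_left _ (by positivity)
    rw [sum_comm]
    have h4 : ∀ y ∈ Ico (-(R2 : ℤ)) R2, ∑ k ∈ univ.filter near, S.φ k y ^ 2 ≤ 1 := by
      intro y _
      refine le_trans ?_ (S.sum_sq_le y)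
      exact sum_le_sum_of_subset_of_nonneg (filter_subset _ _) (fun _ _ _ => sq_nonneg _)
    refine (sum_le_sum h4).trans ?_
    rw [sum_const, Int.card_Ico, nsmul_eq_mul, mul_one]
    have : ((R2 : ℤ) - -(R2 : ℤ)).toNat = 2 * R2 := by omega
    rw [this]; push_cast; exact le_rfl
  -- expansion
  have hexp := S.expandC (fun y => φ y) x₀ (mem_Ico.mpr hN1)
  have hbound : ε ≤ ∑ k, |S.φ k x₀| * ‖g k‖ := by
    rw [hε]
    have h1 : φ x₀ = ∑ k, (S.φ k x₀ : ℂ) * g k := hexp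
    rw [h1]
    refine (norm_sum_le _ _).trans (le_of_eq ?_)
    refine sum_congr rfl fun k _ => ?_
    rw [norm_mul, Complex.norm_real, Real.norm_eq_abs]
  rw [← sum_filter_add_sum_filter_not univ near] at hbound
  -- near part
  have hnearsum : ∑ k ∈ univ.filter near, |S.φ k x₀| * ‖g k‖ ≤ ε / 4 := by
    have h1 : ∀ k ∈ univ.filter near, |S.φ k x₀| * ‖g k‖ ≤ ε / (4 * (Q + 1)) := by
      intro k hk
      rw [mem_filter] at hk
      have h2 := hN₀ N hN2 (S.E k) (S.φ k) (S.isEig k) (c k) (hnearR k hk.2) (by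
        intro x
        refine (hc k x).trans ?_
        have := mass_le_one S k (c k) (c k + D)
        have h3 : 0 ≤ C * Real.exp (-(κ * |(x : ℝ) - c k|)) := by positivity
        nlinarith)
      have h3 := S.abs_le_one k x₀
      calc |S.φ k x₀| * ‖g k‖ ≤ 1 * (ε / (4 * (Q + 1))) :=
            mul_le_mul h3 h2 (norm_nonneg _) zero_le_one
        _ = _ := one_mul _
    refine (sum_le_sum h1).trans ?_
    rw [sum_const, nsmul_eq_mul]
    calc ((univ.filter near).card : ℝ) * (ε / (4 * (Q + 1))) ≤ (Q + 1) * (ε / (4 * (Q + 1))) :=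
          mul_le_mul_of_nonneg_right (by linarith) (by positivity)
      _ = ε / 4 := by field_simp
  -- far part
  have hfarsum : ∑ k ∈ univ.filter (fun k => ¬ near k), |S.φ k x₀| * ‖g k‖ ≤ ε / 4 := by
    refine (Real.sum_mul_le_sqrt_mul_sqrt _ _ _).trans ?_
    have h1 : ∑ k ∈ univ.filter (fun k => ¬ near k), ‖g k‖ ^ 2 ≤ Φ ^ 2 := by
      refine (sum_le_sum_of_subset_of_nonneg (filter_subset _ _)
        (fun _ _ _ => sq_nonneg _)).trans ?_
      rw [hg, S.bessel]
      have h2 := lp.sum_rpow_le_norm_rpow (p := 2) (by norm_num) φ (Ico (lo N) (hi N))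
      have h3 : (2 : ENNReal).toReal = ((2 : ℕ) : ℝ) := by norm_num
      rw [h3] at h2
      simp only [Real.rpow_natCast] at h2
      refine h2.trans ?_
      exact pow_le_pow_left₀ (norm_nonneg _) (by linarith) 2
    have h2 : ∑ k ∈ univ.filter (fun k => ¬ near k), |S.φ k x₀| ^ 2 ≤ (ε / 4) ^ 2 / Φ ^ 2 := by
      have h3 : ∀ k ∈ univ.filter (fun k => ¬ near k), |S.φ k x₀| ^ 2 ≤
          W * ∑ y ∈ (Ico (lo N) (hi N)) \ s0, f y * S.φ k y ^ 2 := by
        intro k hk
        rw [mem_filter] at hk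
        have hfar := hk.2
        have h4 := pow_le_pow_left₀ (abs_nonneg _) (hc k x₀) 2
        refine h4.trans ?_
        rw [mul_pow, mul_pow, mass_sq, ← Real.exp_nat_mul]
        have h5 : ∀ y ∈ Ico (c k) (c k + D), Real.exp (((2 : ℕ) : ℝ) * -(κ * |(x₀ : ℝ) - c k|)) ≤
            Real.exp (2 * κ * D) * f y := by
          intro y hy
          rw [mem_Ico] at hy
          simp only [hf]
          rw [← Real.exp_add]
          apply Real.exp_le_exp.mpr
          push_cast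
          have h6 : |(y : ℝ) - x₀| ≤ |(x₀ : ℝ) - c k| + D := by
            have h7 : (c k : ℝ) ≤ y := by exact_mod_cast hy.1
            have h8 : (y : ℝ) ≤ c k + D := by exact_mod_cast hy.2.le
            have h9 := abs_le.mp (le_refl |(x₀ : ℝ) - c k|)
            rw [abs_le]
            constructor <;> linarith
          nlinarith
        have h6 : C ^ 2 * Real.exp (((2 : ℕ) : ℝ) * -(κ * |(x₀ : ℝ) - c k|)) *
            ∑ z ∈ Ico (c k) (c k + D), S.φ k z ^ 2 =
            ∑ z ∈ Ico (c k) (c k + D), C ^ 2 * (Real.exp (((2 : ℕ) : ℝ) *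
              -(κ * |(x₀ : ℝ) - c k|)) * S.φ k z ^ 2) := by
          rw [mul_sum]
          exact sum_congr rfl fun z _ => by ring
        rw [h6, hW, mul_sum]
        have h7 : ∀ z ∈ Ico (c k) (c k + D), C ^ 2 * (Real.exp (((2 : ℕ) : ℝ) *
              -(κ * |(x₀ : ℝ) - c k|)) * S.φ k z ^ 2) ≤
            C ^ 2 * Real.exp (2 * κ * D) * (f z * S.φ k z ^ 2) := by
          intro z hz
          have := mul_le_mul_of_nonneg_right (h5 z hz) (sq_nonneg (S.φ k z))
          have h8 : (0 : ℝ) < C ^ 2 := by positivity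
          nlinarith
        refine (sum_le_sum h7).trans ?_
        rw [← sum_filter_add_sum_filter_not (Ico (c k) (c k + D)) (fun z => z ∈ Ico (lo N) (hi N))]
        have h8 : ∑ z ∈ (Ico (c k) (c k + D)).filter (fun z => z ∉ Ico (lo N) (hi N)),
            C ^ 2 * Real.exp (2 * κ * D) * (f z * S.φ k z ^ 2) = 0 := by
          refine sum_eq_zero fun z hz => ?_
          rw [mem_filter] at hz
          have h9 := hz.2
          rw [mem_Ico] at h9
          rw [S.supp k z (by omega)]; ring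
        rw [h8, add_zero]
        refine sum_le_sum_of_subset_of_nonneg ?_ (fun z _ _ => by positivity)
        intro z hz
        rw [mem_filter, mem_Ico] at hz
        rw [Finset.mem_sdiff]
        refine ⟨hz.2, fun hzs => hfar ⟨z, hzs, hz.1⟩⟩
      refine (sum_le_sum h3).trans ?_
      rw [← mul_sum, sum_comm]
      have h4 : ∀ y ∈ (Ico (lo N) (hi N)) \ s0, ∑ k ∈ univ.filter (fun k => ¬ near k),
          f y * S.φ k y ^ 2 ≤ f y := by
        intro y _
        rw [← mul_sum]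
        have h5 : ∑ k ∈ univ.filter (fun k => ¬ near k), S.φ k y ^ 2 ≤ 1 :=
          le_trans (sum_le_sum_of_subset_of_nonneg (filter_subset _ _)
            (fun _ _ _ => sq_nonneg _)) (S.sum_sq_le y)
        have h6 : 0 ≤ f y := (Real.exp_pos _).le
        nlinarith
      have h5 := hs0 ((Ico (lo N) (hi N)) \ s0) sdiff_disjoint
      rw [Real.norm_eq_abs] at h5
      have h6 := (le_abs_self _).trans h5.le
      have h7 := mul_le_mul_of_nonneg_left ((sum_le_sum h4).trans h6) hW0.le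
      refine h7.trans (le_of_eq ?_)
      field_simp
    have h3 : Real.sqrt (∑ k ∈ univ.filter (fun k => ¬ near k), |S.φ k x₀| ^ 2) ≤ ε / 4 / Φ := by
      rw [← div_pow] at h2
      exact Real.sqrt_le_iff.mpr ⟨by positivity, h2⟩
    have h4 : Real.sqrt (∑ k ∈ univ.filter (fun k => ¬ near k), ‖g k‖ ^ 2) ≤ Φ :=
      Real.sqrt_le_iff.mpr ⟨hΦ0.le, h1⟩
    calc Real.sqrt (∑ k ∈ univ.filter (fun k => ¬ near k), |S.φ k x₀| ^ 2) *
          Real.sqrt (∑ k ∈ univ.filter (fun k => ¬ near k), ‖g k‖ ^ 2) ≤ (ε / 4 / Φ) * Φ :=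
          mul_le_mul h3 h4 (Real.sqrt_nonneg _) (by positivity)
      _ = ε / 4 := by field_simp
  linarith

end Pool.Agent.N658.PP
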