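import Mathlib
import Pool.Agent.N658.PP.Gap

set_option autoImplicit false

/-! Barriers for all energies of a bounded interval inside one long period. -/

namespace Pool.Agent.N658.PP

/-- a barrier pattern for energies near `E` -/
theorem pattern (V₀ : ℤ → ℝ) (N₀ : ℕ) (hN₀ : 0 < N₀) (hper : ∀ x, V₀ (x + N₀) = V₀ x) (δ : ℝ)
    (hδ : 0 < δ) (E : ℝ) : ∃ (p : ℕ) (U : ℤ → ℝ) (ε θ : ℝ), 0 < p ∧ 0 < ε ∧ 0 < θ ∧ θ < 1 ∧
      (∀ x, U (x + p) = U x) ∧ (∀ x, |U x - V₀ x| ≤ δ) ∧
      ∀ (v u : ℤ → ℝ) (E' : ℝ) (c : ℤ) (K : ℕ) (B : ℝ), |E' - E| ≤ ε →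
        (∀ y, c - K * p ≤ y → y < c + K * p → |v y - U (y - c)| ≤ ε) →
        (∀ y, c - K * p ≤ y → y < c + K * p → u (y + 1) + u (y - 1) + v y * u y = E' * u y) →
        (∀ y, c - K * p - 1 ≤ y → y ≤ c + K * p → |u y| ≤ B) →
        |u c| ≤ θ ^ K * B ∧ |u (c - 1)| ≤ θ ^ K * B := by
  obtain ⟨p, hp, hNp, r, hr, hrδ, htr⟩ := gap_open (fun x => E - V₀ x) N₀ hN₀
    (fun x => by simp only [hper x]) δ hδ
  have hV₀p : ∀ x, V₀ (x + p) = V₀ x := by
    intro x
    obtain ⟨k, rfl⟩ := hNp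
    have hP : Function.Periodic V₀ (N₀ : ℤ) := hper
    have := hP.int_mul k x
    rw [← this]; congr 1; push_cast; ring
  obtain ⟨ε, hε, θ, hθ0, hθ1, hbar⟩ := barrier (fun x => E - V₀ x + r x) p hp
    (fun x => by simp only [hV₀p x, hr x]) htr
  refine ⟨p, fun x => V₀ x - r x, ε / 2, θ, hp, by positivity, hθ0, hθ1, ?_, ?_, ?_⟩
  · intro x; simp only [hV₀p x, hr x]
  · intro x
    have := hrδ x
    rw [show V₀ x - r x - V₀ x = -r x by ring, abs_neg]
    exact this
  · intro v u E' c K B hE' hv hu hB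
    refine hbar (fun y => E' - v y) u c K B ?_ ?_ hB
    · intro y h1 h2
      have h3 := hv y h1 h2
      rw [show E' - v y - (E - V₀ (y - c) + r (y - c)) =
        (E' - E) - (v y - (V₀ (y - c) - r (y - c))) by ring]
      refine (abs_sub _ _).trans ?_
      linarith
    · intro y h1 h2
      have := hu y h1 h2
      linarith

theorem barrier_system (V₀ : ℤ → ℝ) (N₀ : ℕ) (hN₀ : 0 < N₀) (hper : ∀ x, V₀ (x + N₀) = V₀ x)
    (δ : ℝ) (hδ : 0 < δ) (Emax : ℝ) (hEmax : 0 ≤ Emax) :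
    ∃ (ε θ : ℝ) (P : ℕ), 0 < ε ∧ 0 < θ ∧ θ < 1 ∧ 0 < P ∧
      ∀ (n K : ℕ), N₀ ∣ n → (K + 2) * P ≤ n → ∃ V1 : ℤ → ℝ, (∀ x, V1 (x + n) = V1 x) ∧
        (∀ x, |V1 x - V₀ x| ≤ δ) ∧
        ∀ (v : ℤ → ℝ) (m : ℤ), (∀ x, |v x - V1 (x + m)| ≤ ε) → ∀ E, |E| ≤ Emax →
          ∃ (c₀ : ℤ) (W : ℕ), 0 ≤ c₀ + m - W - 1 ∧ c₀ + m + W < n ∧
            ∀ (i : ℤ) (u : ℤ → ℝ) (B : ℝ),
              (∀ y, c₀ + i * n - W ≤ y → y < c₀ + i * n + W →
                u (y + 1) + u (y - 1) + v y * u y = E * u y) →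
              (∀ y, c₀ + i * n - W - 1 ≤ y → y ≤ c₀ + i * n + W → |u y| ≤ B) →
              |u (c₀ + i * n)| ≤ θ ^ K * B ∧ |u (c₀ + i * n - 1)| ≤ θ ^ K * B := by
  classical
  choose p U ε θ hp hε hθ0 hθ1 hUper hUδ hbar using pattern V₀ N₀ hN₀ hper δ hδ
  obtain ⟨t, -, ht⟩ := (isCompact_Icc (a := -Emax) (b := Emax)).elim_nhds_subcover
    (fun E => Metric.closedBall E (ε E)) (fun E _ => Metric.closedBall_mem_nhds E (hε E))
  have htne : t.Nonempty := by
    by_contra h
    rw [Finset.not_nonempty_iff_eq_empty] at h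
    have h0 : (0 : ℝ) ∈ Set.Icc (-Emax) Emax := ⟨by linarith, hEmax⟩
    have := ht h0
    rw [h] at this
    simp at this
  set J : ℕ := t.card with hJ
  have hJ0 : 0 < J := Finset.card_pos.mpr htne
  set e : t ≃ Fin J := t.equivFin with he
  -- uniform constants
  obtain ⟨ε₀, hε₀, hε₀le⟩ : ∃ ε₀ : ℝ, 0 < ε₀ ∧ ∀ E ∈ t, ε₀ ≤ ε E := by
    obtain ⟨E₁, -, hmin⟩ := Finset.exists_min_image t ε htne
    exact ⟨ε E₁, hε E₁, hmin⟩
  obtain ⟨θ₀, hθ₀0, hθ₀1, hθ₀le⟩ : ∃ θ₀ : ℝ, 0 < θ₀ ∧ θ₀ < 1 ∧ ∀ E ∈ t, θ E ≤ θ₀ := by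
    obtain ⟨E₁, -, hmax⟩ := Finset.exists_max_image t θ htne
    exact ⟨θ E₁, hθ0 E₁, hθ1 E₁, hmax⟩
  obtain ⟨P₀, hP₀, hP₀le⟩ : ∃ P₀ : ℕ, 0 < P₀ ∧ ∀ E ∈ t, p E ≤ P₀ := by
    obtain ⟨E₁, -, hmax⟩ := Finset.exists_max_image t p htne
    exact ⟨p E₁, hp E₁, hmax⟩
  refine ⟨ε₀, θ₀, 2 * P₀ * J, hε₀, hθ₀0, hθ₀1, by positivity, ?_⟩
  intro n K hNn hKn
  have hn0 : 0 < n := lt_of_lt_of_le (by positivity) hKn
  set L : ℕ := n / J with hL
  have hLbig : (2 * K + 4) * P₀ ≤ L := by
    rw [hL, Nat.le_div_iff_mul_le hJ0]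
    calc (2 * K + 4) * P₀ * J = (K + 2) * (2 * P₀ * J) := by ring
      _ ≤ n := hKn
  have hL0 : 0 < L := lt_of_lt_of_le (by positivity) hLbig
  have hLJ : L * J ≤ n := Nat.div_mul_le_self n J
  set V1 : ℤ → ℝ := fun x => if h : ((x % n) / L).toNat < J then
    U (e.symm ⟨_, h⟩ : ℝ) (x % n) else V₀ (x % n) with hV1
  have hV₀mod : ∀ x : ℤ, V₀ (x % n) = V₀ x := by
    intro x
    obtain ⟨k, hk⟩ := hNn
    have hP : Function.Periodic V₀ (N₀ : ℤ) := hper
    have h1 := Int.emod_add_mul_ediv x n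
    have := hP.int_mul (k * (x / n)) (x % n)
    rw [← this]
    congr 1
    rw [← h1, hk]
    push_cast
    have h2 : x % (↑N₀ * ↑k) = (x % (↑N₀ * ↑k) + ↑N₀ * ↑k * (x / (↑N₀ * ↑k))) % (↑N₀ * ↑k) := by
      rw [Int.add_mul_emod_self_left, Int.emod_emod_of_dvd _ (dvd_refl _)]
    rw [← h2]
    have h3 : (x % (↑N₀ * ↑k) + ↑N₀ * ↑k * (x / (↑N₀ * ↑k))) / (↑N₀ * ↑k) = x / (↑N₀ * (k : ℤ)) := by
      rw [Int.emod_add_mul_ediv]
    rw [h3]
    ring
  refine ⟨V1, ?_, ?_, ?_⟩
  · intro x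
    simp only [hV1]
    rw [Int.add_emod_right]
  · intro x
    simp only [hV1]
    rw [← hV₀mod x]
    split_ifs with h
    · exact hUδ _ _
    · simpa using hδ.le
  · intro v m hv E hE
    have hEt := ht (show E ∈ Set.Icc (-Emax) Emax from abs_le.mp hE)
    rw [Set.mem_iUnion₂] at hEt
    obtain ⟨E₁, hE₁t, hE₁⟩ := hEt
    rw [Metric.mem_closedBall, Real.dist_eq] at hE₁
    -- the segment of `E₁`
    set j : ℕ := (e ⟨E₁, hE₁t⟩ : ℕ) with hj
    have hjJ : j < J := (e ⟨E₁, hE₁t⟩).2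
    set q : ℕ := p E₁ with hq
    have hq0 : 0 < q := hp E₁
    have hqP : q ≤ P₀ := hP₀le E₁ hE₁t
    obtain ⟨d, hd⟩ : ∃ d : ℕ, d = (j * L) / q + (K + 2) := ⟨_, rfl⟩
    have hd1 : j * L + (K + 1) * q < d * q := by
      rw [hd, add_mul]
      have := Nat.lt_div_mul_add (a := j * L) hq0
      nlinarith
    have hd2 : d * q ≤ j * L + (K + 2) * q := by
      rw [hd, add_mul]
      have := Nat.div_mul_le_self (j * L) q
      omega
    have hseg : j * L + (2 * K + 2) * q < (j + 1) * L := by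
      have h1 : (2 * K + 2) * q ≤ (2 * K + 2) * P₀ := Nat.mul_le_mul_left _ hqP
      have h2 : (2 * K + 2) * P₀ < (2 * K + 4) * P₀ := by
        apply Nat.mul_lt_mul_of_pos_right (by omega) hP₀
      nlinarith
    have hjn : (j + 1) * L ≤ n := by
      calc (j + 1) * L ≤ J * L := Nat.mul_le_mul_right _ hjJ
        _ = L * J := by ring
        _ ≤ n := hLJ
    have hwin1 : j * L + K * q + q < d * q := by
      have : (K + 1) * q = K * q + q := by ring
      omega
    have hwin2 : d * q + K * q < (j + 1) * L := by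
      have : (K + 2) * q + K * q = (2 * K + 2) * q := by ring
      omega
    refine ⟨(d * q : ℕ) - m, K * q, ?_, ?_, ?_⟩
    · have : ((K * q + q : ℕ) : ℤ) < ((d * q : ℕ) : ℤ) := by
        have : K * q + q < d * q := by omega
        exact_mod_cast this
      push_cast at this ⊢
      have hq' : (1 : ℤ) ≤ q := by exact_mod_cast hq0
      linarith
    · have : ((d * q + K * q : ℕ) : ℤ) < (n : ℤ) := by
        have : d * q + K * q < n := by omega
        exact_mod_cast this
      push_cast at this ⊢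
      linarith
    · intro i u B hu hB
      set c : ℤ := (d * q : ℕ) - m + i * n with hc
      have hpow : θ E₁ ^ K ≤ θ₀ ^ K := pow_le_pow_left₀ (hθ0 E₁).le (hθ₀le E₁ hE₁t) K
      have hB0 : 0 ≤ B := by
        have := hB c (by push_cast; nlinarith [show (0 : ℤ) ≤ (K : ℤ) * q by positivity])
          (by push_cast; nlinarith [show (0 : ℤ) ≤ (K : ℤ) * q by positivity])
        exact (abs_nonneg _).trans this
      have key := hbar E₁ v u E c K B hE₁ ?_ ?_ ?_
      · exact ⟨key.1.trans (mul_le_mul_of_nonneg_right hpow hB0),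
          key.2.trans (mul_le_mul_of_nonneg_right hpow hB0)⟩
      · intro y h1 h2
        have h3 := hv y
        -- the potential in the window
        have h4 : V1 (y + m) = U E₁ (y - c) := by
          set z : ℤ := y - c + (d * q : ℕ) with hz
          have hz1 : ((j * L : ℕ) : ℤ) ≤ z := by
            have h5 : ((j * L + K * q : ℕ) : ℤ) ≤ ((d * q : ℕ) : ℤ) := by
              have : j * L + K * q ≤ d * q := by omega
              exact_mod_cast this
            push_cast at h5 ⊢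
            rw [hz]
            push_cast
            linarith
          have hz2 : z < (((j + 1) * L : ℕ) : ℤ) := by
            have h5 : ((d * q + K * q : ℕ) : ℤ) < (((j + 1) * L : ℕ) : ℤ) := by exact_mod_cast hwin2
            push_cast at h5 ⊢
            rw [hz]
            push_cast
            linarith
          have hz3 : z < n := lt_of_lt_of_le hz2 (by exact_mod_cast hjn)
          have hz0 : 0 ≤ z := le_trans (by positivity) hz1
          have hmod : (y + m) % n = z := by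
            have h6 : y + m = z + i * n := by rw [hz, hc]; ring
            rw [h6, Int.add_mul_emod_self_right]
            exact Int.emod_eq_of_lt hz0 hz3
          have hdiv : z / L = j := by
            have hL' : (0 : ℤ) < L := by exact_mod_cast hL0
            apply le_antisymm
            · apply Int.lt_add_one_iff.mp
              rw [Int.ediv_lt_iff_lt_mul hL']
              push_cast at hz2
              exact hz2
            · rw [Int.le_ediv_iff_mul_le hL']
              push_cast at hz1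
              exact hz1
          have htn : (z / L).toNat = j := by rw [hdiv]; simp
          simp only [hV1]
          rw [hmod]
          have hlt : (z / L).toNat < J := by rw [htn]; exact hjJ
          rw [dif_pos hlt]
          have hidx : (⟨(z / L).toNat, hlt⟩ : Fin J) = e ⟨E₁, hE₁t⟩ := Fin.ext htn
          rw [hidx, Equiv.symm_apply_apply]
          have hPU : Function.Periodic (U E₁) (q : ℤ) := hUper E₁
          have := hPU.int_mul d (y - c)
          rw [← this, hz]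
          push_cast
          rfl
        rw [h4] at h3
        exact h3.trans (hε₀le E₁ hE₁t)
      · intro y h1 h2
        exact hu y (by push_cast; linarith) (by push_cast; linarith)
      · intro y h1 h2
        exact hB y (by push_cast; linarith) (by push_cast; linarith)

end Pool.Agent.N658.PP
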