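import Mathlib
import Pool.Agent.N658.PP.Dir
import Pool.Agent.Helper635.LLL

set_option autoImplicit false

/-! A counting form of the Wegner estimate, and the local lemma: small periodic perturbations
separating the Dirichlet spectra of all disjoint intervals in stretches of bounded length. -/

namespace Pool.Agent.N658.PP

open Finset

lemma card_zero_coord {T : Type} [Fintype T] [DecidableEq T] (m : ℕ) (hm : 0 < m) (s : T) :
    (univ.filter (fun ω : T → Fin m => (ω s).val = 0)).card = m ^ (Fintype.card T - 1) := by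
  have h1 : univ.filter (fun ω : T → Fin m => (ω s).val = 0) =
      Fintype.piFinset (fun t => if t = s then ({⟨0, hm⟩} : Finset (Fin m)) else univ) := by
    ext ω
    simp only [mem_filter, mem_univ, true_and, Fintype.mem_piFinset]
    constructor
    · intro h t
      by_cases ht : t = s
      · subst ht
        rw [if_pos rfl, mem_singleton]
        exact Fin.ext h
      · rw [if_neg ht]; exact mem_univ _
    · intro h
      have := h s
      rw [if_pos rfl, mem_singleton] at this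
      rw [this]
  rw [h1, Fintype.card_piFinset, ← Finset.mul_prod_erase univ _ (mem_univ s), if_pos rfl,
    card_singleton, one_mul]
  have h2 : ∀ t ∈ univ.erase s, (if t = s then ({⟨0, hm⟩} : Finset (Fin m)) else univ).card = m := by
    intro t ht
    rw [if_neg (ne_of_mem_erase ht), card_univ, Fintype.card_fin]
  rw [prod_congr rfl h2, prod_const, card_erase_of_mem (mem_univ s), card_univ]

/-- counting along the lines in the direction of the indicator of `S` -/
lemma line_count {T : Type} [Fintype T] [DecidableEq T] (m : ℕ) (hm : 0 < m) (S : Finset T)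
    (hS : S.Nonempty) (P : (T → Fin m) → Prop) [DecidablePred P] (K : ℕ)
    (hK : ∀ ω : T → Fin m, ∀ A : Finset ℕ, (∀ t ∈ A, ∃ ω', P ω' ∧
      (∀ s ∈ S, (ω' s).val = (ω s).val + t) ∧ ∀ s, s ∉ S → ω' s = ω s) → A.card ≤ K) :
    (univ.filter P).card ≤ K * (S.card * m ^ (Fintype.card T - 1)) := by
  classical
  set μ : (T → Fin m) → ℕ := fun ω => S.inf' hS (fun s => (ω s).val) with hμ
  have hμle : ∀ ω, ∀ s ∈ S, μ ω ≤ (ω s).val := fun ω s hs => inf'_le _ hs
  set base : (T → Fin m) → (T → Fin m) := fun ω s =>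
    if s ∈ S then ⟨(ω s).val - μ ω, lt_of_le_of_lt (Nat.sub_le _ _) (ω s).2⟩ else ω s with hbase
  set Z : Finset (T → Fin m) := S.biUnion (fun s => univ.filter (fun ω => (ω s).val = 0)) with hZ
  have hmaps : ∀ ω ∈ univ.filter P, base ω ∈ Z := by
    intro ω _
    obtain ⟨s, hs, h⟩ := exists_mem_eq_inf' hS (fun s => (ω s).val)
    rw [hZ, mem_biUnion]
    refine ⟨s, hs, ?_⟩
    rw [mem_filter]
    refine ⟨mem_univ _, ?_⟩
    simp only [hbase]
    rw [if_pos hs]
    simp only
    rw [hμ]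
    simp only
    rw [h]
    exact Nat.sub_self _
  have hfib : ∀ z ∈ Z, ((univ.filter P).filter (fun ω => base ω = z)).card ≤ K := by
    intro z _
    rw [← card_image_of_injOn (f := μ)]
    · apply hK z
      intro t ht
      rw [mem_image] at ht
      obtain ⟨ω, hω, rfl⟩ := ht
      rw [mem_filter, mem_filter] at hω
      refine ⟨ω, hω.1.2, ?_, ?_⟩
      · intro s hs
        rw [← hω.2]
        simp only [hbase]
        rw [if_pos hs]
        simp only
        have := hμle ω s hs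
        omega
      · intro s hs
        rw [← hω.2]
        simp only [hbase]
        rw [if_neg hs]
    · intro ω hω ω' hω' heq
      rw [mem_coe, mem_filter] at hω hω'
      have h1 : base ω = base ω' := by rw [hω.2, hω'.2]
      funext s
      have h2 := congrFun h1 s
      simp only [hbase] at h2
      by_cases hs : s ∈ S
      · rw [if_pos hs, if_pos hs] at h2
        have h3 := congrArg Fin.val h2
        simp only at h3
        have h4 := hμle ω s hs
        have h5 := hμle ω' s hs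
        apply Fin.ext
        omega
      · rwa [if_neg hs, if_neg hs] at h2
  have h1 := card_le_mul_card_image_of_maps_to hmaps K hfib
  refine h1.trans (Nat.mul_le_mul_left K ?_)
  refine card_biUnion_le.trans ?_
  rw [sum_congr rfl (fun s _ => card_zero_coord m hm s), sum_const, smul_eq_mul]

/-- the symmetric local lemma with explicit decidability instances -/
lemma lll' {T C ι : Type} [Fintype T] [hT : DecidableEq T] [Fintype C]
    (I : Finset ι) (B : ι → (T → C) → Prop) [∀ i, DecidablePred (B i)] (S : ι → Finset T)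
    (hB : ∀ i ∈ I, ∀ ω ω' : T → C, (∀ t ∈ S i, ω t = ω' t) → B i ω → B i ω') (p : ℝ) (d : ℕ)
    (hp0 : 0 ≤ p)
    (hp : ∀ i ∈ I, ((univ.filter (B i)).card : ℝ) ≤ p * Fintype.card (T → C))
    (hd : ∀ i ∈ I, (I.filter (fun j => ¬ Disjoint (S i) (S j))).card ≤ d)
    (h4 : 4 * p * d ≤ 1) (hd1 : 1 ≤ d) (hne : 0 < Fintype.card (T → C)) :
    ∃ ω : T → C, ∀ i ∈ I, ¬ B i ω := by
  have h1 : hT = fun a b => Classical.propDecidable (a = b) := Subsingleton.elim _ _
  subst h1
  refine Helper635.LLL.lll I B S hB p d hp0 ?_ ?_ h4 hd1 hne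
  · intro i hi
    have := hp i hi
    refine le_trans (le_of_eq ?_) this
    unfold Helper635.LLL.cnt Helper635.LLL.ev
    congr!
  · intro i hi
    refine le_trans (le_of_eq ?_) (hd i hi)
    congr!

/-- number of grid points in an interval -/
lemma grid_count (c h g : ℝ) (hh : 0 < h) (hg : 0 ≤ g) (A : Finset ℕ) (hA : ∀ t ∈ A, |c + t * h| < g) :
    (A.card : ℝ) ≤ 2 * g / h + 1 := by
  rcases A.eq_empty_or_nonempty with rfl | hne
  · simp only [card_empty, Nat.cast_zero]
    positivity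
  · have h1 := hA _ (A.min'_mem hne)
    have h2 := hA _ (A.max'_mem hne)
    have h3 : A ⊆ Icc (A.min' hne) (A.max' hne) := fun t ht =>
      mem_Icc.mpr ⟨A.min'_le t ht, A.le_max' t ht⟩
    have h4 := card_le_card h3
    rw [Nat.card_Icc] at h4
    have h5 := A.min'_le_max' hne
    have h6 : (A.card : ℝ) ≤ (A.max' hne : ℝ) - (A.min' hne : ℝ) + 1 := by
      have : A.card + A.min' hne ≤ A.max' hne + 1 := by omega
      have : (A.card : ℝ) + (A.min' hne : ℝ) ≤ (A.max' hne : ℝ) + 1 := by exact_mod_cast this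
      linarith
    rw [abs_lt] at h1 h2
    have h7 : ((A.max' hne : ℝ) - (A.min' hne : ℝ)) * h < 2 * g := by nlinarith
    have h8 : (A.max' hne : ℝ) - (A.min' hne : ℝ) < 2 * g / h := by
      rw [lt_div_iff₀ hh]; exact h7
    linarith

/-- the random potential attached to a grid configuration -/
noncomputable def rp (N m : ℕ) (δ : ℝ) (ω : ZMod N → Fin m) (x : ℤ) : ℝ :=
  (ω (x : ZMod N)).val * (δ / m)

/-- the bad event for the intervals `[a, b)`, `[a', b')` -/
def Bad (v : ℤ → ℝ) (N m : ℕ) (δ g : ℝ) (a b a' b' : ℤ) (ω : ZMod N → Fin m) : Prop :=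
  ∃ e ∈ Spec (fun x => v x + rp N m δ ω x) a b, ∃ e' ∈ Spec (fun x => v x + rp N m δ ω x) a' b',
    |e - e'| < g

lemma cast_inj_of_window {N : ℕ} {x y : ℤ} (h : ((x : ℤ) : ZMod N) = (y : ZMod N))
    (hxy : |x - y| < N) : x = y := by
  rw [ZMod.intCast_eq_intCast_iff] at h
  have h1 := h.dvd
  have h2 := Int.eq_zero_of_abs_lt_dvd h1 (by rwa [abs_sub_comm])
  omega

lemma wegner (v : ℤ → ℝ) (N m M : ℕ) [NeZero N] (hm : 0 < m) (hMN : M ≤ N) (δ g : ℝ)
    (hδ : 0 < δ) (hg : 0 < g) (hmg : δ / m ≤ 2 * g) (a b a' b' : ℤ) (h1 : a ≤ b) (h2 : b ≤ a')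
    (h3 : a' ≤ b') (h4 : b' ≤ a + M)
    [DecidablePred (Bad v N m δ g a b a' b')] :
    ((univ.filter (Bad v N m δ g a b a' b')).card : ℝ) ≤
      (4 * M ^ 3 * g / δ) * Fintype.card (ZMod N → Fin m) := by
  have hN : 0 < N := Nat.pos_of_ne_zero (NeZero.ne N)
  have hm' : (0 : ℝ) < m := by exact_mod_cast hm
  rcases eq_or_lt_of_le h1 with hab | hab
  · have : ∀ ω, ¬ Bad v N m δ g a b a' b' ω := by
      rintro ω ⟨e, he, -⟩
      have := spec_lt he
      omega
    have h0 : (univ.filter (Bad v N m δ g a b a' b')).card = 0 := by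
      rw [card_eq_zero, filter_eq_empty_iff]
      exact fun ω _ => this ω
    rw [h0]
    simp only [Nat.cast_zero]
    positivity
  set S : Finset (ZMod N) := (Ico a b).image (fun x : ℤ => (x : ZMod N)) with hS
  have hSne : S.Nonempty := ⟨(a : ZMod N), mem_image_of_mem _ (mem_Ico.mpr ⟨le_rfl, hab⟩)⟩
  have hScard : (S.card : ℝ) ≤ M := by
    have : S.card ≤ (Ico a b).card := card_image_le
    rw [Int.card_Ico] at this
    have h5 : S.card ≤ M := by omega
    exact_mod_cast h5
  set h : ℝ := δ / m with hh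
  have hhpos : 0 < h := by positivity
  -- the bound on a line
  set K : ℕ := ⌊(M : ℝ) * M * (4 * g / h)⌋₊ with hK
  have hline : ∀ ω : ZMod N → Fin m, ∀ A : Finset ℕ, (∀ t ∈ A, ∃ ω', Bad v N m δ g a b a' b' ω' ∧
      (∀ s ∈ S, (ω' s).val = (ω s).val + t) ∧ ∀ s, s ∉ S → ω' s = ω s) → A.card ≤ K := by
    intro ω A hA
    apply Nat.le_floor
    obtain ⟨S1⟩ := exists_sys (fun x => v x + rp N m δ ω x) a b
    obtain ⟨S2⟩ := exists_sys (fun x => v x + rp N m δ ω x) a' b'
    have hsub : A ⊆ (univ : Finset (Finset.Ico a b × Finset.Ico a' b')).biUnion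
        (fun p => A.filter (fun t : ℕ => |(S1.E p.1 - S2.E p.2) + t * h| < g)) := by
      intro t ht
      obtain ⟨ω', ⟨e, he, e', he', hlt⟩, hs1, hs2⟩ := hA t ht
      have he1 : e - t * h ∈ Spec (fun x => v x + rp N m δ ω x) a b := by
        apply spec_const (t := (t : ℝ) * h)
        refine spec_congr (fun x hx1 hx2 => ?_) he
        have hxS : ((x : ℤ) : ZMod N) ∈ S := mem_image_of_mem _ (mem_Ico.mpr ⟨hx1, hx2⟩)
        unfold rp
        rw [hs1 _ hxS]
        push_cast
        ring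
      have he2 : e' ∈ Spec (fun x => v x + rp N m δ ω x) a' b' := by
        refine spec_congr (fun x hx1 hx2 => ?_) he'
        have hxS : ((x : ℤ) : ZMod N) ∉ S := by
          intro hmem
          rw [hS, mem_image] at hmem
          obtain ⟨y, hy, hyx⟩ := hmem
          rw [mem_Ico] at hy
          have := cast_inj_of_window hyx (by rw [abs_lt]; constructor <;> omega)
          omega
        unfold rp
        rw [hs2 _ hxS]
      obtain ⟨k, hk⟩ := S1.of_mem_spec he1
      obtain ⟨k', hk'⟩ := S2.of_mem_spec he2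
      rw [mem_biUnion]
      refine ⟨(k, k'), mem_univ _, ?_⟩
      rw [mem_filter]
      refine ⟨ht, ?_⟩
      simp only
      rw [hk, hk']
      rw [show e - t * h - e' + t * h = e - e' by ring]
      exact hlt
    have h5 : (A.card : ℝ) ≤ ∑ p : Finset.Ico a b × Finset.Ico a' b',
        ((A.filter (fun t : ℕ => |(S1.E p.1 - S2.E p.2) + t * h| < g)).card : ℝ) := by
      have := (card_le_card hsub).trans card_biUnion_le
      exact_mod_cast this
    have h6 : ∀ p : Finset.Ico a b × Finset.Ico a' b',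
        ((A.filter (fun t : ℕ => |(S1.E p.1 - S2.E p.2) + t * h| < g)).card : ℝ) ≤ 4 * g / h := by
      intro p
      have h7 := grid_count (S1.E p.1 - S2.E p.2) h g hhpos hg.le
        (A.filter (fun t : ℕ => |(S1.E p.1 - S2.E p.2) + t * h| < g))
        (fun t ht => (mem_filter.mp ht).2)
      have h8 : (1 : ℝ) ≤ 2 * g / h := by rw [le_div_iff₀ hhpos]; linarith
      have h9 : 4 * g / h = 2 * g / h + 2 * g / h := by ring
      linarith
    refine h5.trans ((sum_le_sum (fun p _ => h6 p)).trans ?_)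
    rw [sum_const, nsmul_eq_mul, card_univ, Fintype.card_prod, Fintype.card_coe,
      Fintype.card_coe, Int.card_Ico, Int.card_Ico]
    have h10 : ((b - a).toNat : ℝ) ≤ M := by
      have : (b - a).toNat ≤ M := by omega
      exact_mod_cast this
    have h11 : ((b' - a').toNat : ℝ) ≤ M := by
      have : (b' - a').toNat ≤ M := by omega
      exact_mod_cast this
    have h12 : 0 ≤ 4 * g / h := by positivity
    have h13 : ((b - a).toNat : ℝ) * ((b' - a').toNat : ℝ) ≤ (M : ℝ) * M :=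
      mul_le_mul h10 h11 (by positivity) (by positivity)
    push_cast
    exact mul_le_mul_of_nonneg_right h13 h12
  have h5 := line_count m hm S hSne (Bad v N m δ g a b a' b') K hline
  have h6 : (univ.filter (Bad v N m δ g a b a' b')).card ≤
      K * (S.card * m ^ (Fintype.card (ZMod N) - 1)) := h5
  have h7 : (K : ℝ) ≤ (M : ℝ) * M * (4 * g / h) := Nat.floor_le (by positivity)
  have h8 : ((m ^ (Fintype.card (ZMod N) - 1) : ℕ) : ℝ) * m = Fintype.card (ZMod N → Fin m) := by
    rw [Fintype.card_fun, Fintype.card_fin, ZMod.card]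
    have : m ^ N = m ^ (N - 1) * m := by
      rw [← pow_succ]; congr 1; omega
    rw [this]; push_cast; ring
  have h9 : ((univ.filter (Bad v N m δ g a b a' b')).card : ℝ) ≤
      (K : ℝ) * (S.card * ((m ^ (Fintype.card (ZMod N) - 1) : ℕ) : ℝ)) := by exact_mod_cast h6
  refine h9.trans ?_
  have h10 : (K : ℝ) * (S.card * ((m ^ (Fintype.card (ZMod N) - 1) : ℕ) : ℝ)) ≤
      ((M : ℝ) * M * (4 * g / h)) * (M * ((m ^ (Fintype.card (ZMod N) - 1) : ℕ) : ℝ)) := by
    refine mul_le_mul h7 ?_ (by positivity) (by positivity)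
    exact mul_le_mul_of_nonneg_right hScard (by positivity)
  refine h10.trans (le_of_eq ?_)
  rw [← h8, hh]
  field_simp

/-- the window of an event -/
noncomputable def win (N M : ℕ) [NeZero N] (i : ℤ × ℤ × ℤ × ℤ) : Finset (ZMod N) :=
  (Ico i.1 (i.1 + M)).image (fun x : ℤ => (x : ZMod N))

/-- the index set of the events -/
noncomputable def idx (N M : ℕ) : Finset (ℤ × ℤ × ℤ × ℤ) :=
  ((Ico (0 : ℤ) N) ×ˢ (Icc (0 : ℤ) M) ×ˢ (Icc (0 : ℤ) M) ×ˢ
    (Icc (0 : ℤ) M)).filter (fun i => i.2.1 ≤ i.2.2.1 ∧ i.2.2.1 ≤ i.2.2.2)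

lemma mem_idx {N M : ℕ} (i : ℤ × ℤ × ℤ × ℤ) : i ∈ idx N M ↔ 0 ≤ i.1 ∧ i.1 < N ∧ 0 ≤ i.2.1 ∧
    i.2.1 ≤ i.2.2.1 ∧ i.2.2.1 ≤ i.2.2.2 ∧ i.2.2.2 ≤ M := by
  simp only [idx, mem_filter, mem_product, mem_Icc, mem_Ico]
  omega

lemma nbr (N M : ℕ) [NeZero N] (hM : 1 ≤ M) (i : ℤ × ℤ × ℤ × ℤ) :
    ((idx N M).filter (fun j => ¬ Disjoint (win N M i) (win N M j))).card ≤ 16 * M ^ 4 := by
  have hsub : (idx N M).filter (fun j => ¬ Disjoint (win N M i) (win N M j)) ⊆
      ((Ioo (-(M : ℤ)) M).image (fun r => (i.1 + r) % N)) ×ˢ (Icc (0 : ℤ) M) ×ˢ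
        (Icc (0 : ℤ) M) ×ˢ (Icc (0 : ℤ) M) := by
    intro j hj
    rw [mem_filter] at hj
    obtain ⟨hj1, hj2⟩ := hj
    have hj' := (mem_idx j).mp hj1
    rw [Finset.not_disjoint_iff] at hj2
    obtain ⟨z, hz1, hz2⟩ := hj2
    simp only [win, mem_image, mem_Ico] at hz1 hz2
    obtain ⟨x, hx, rfl⟩ := hz1
    obtain ⟨y, hy, hyx⟩ := hz2
    simp only [mem_product, mem_Icc, mem_image, mem_Ioo]
    refine ⟨⟨x - y + (j.1 - i.1), ?_, ?_⟩, ⟨by omega, by omega⟩, ⟨by omega, by omega⟩,
      ⟨by omega, by omega⟩⟩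
    · omega
    · rw [ZMod.intCast_eq_intCast_iff] at hyx
      have h1 : (i.1 + (x - y + (j.1 - i.1))) % N = (j.1 + (x - y)) % N := by
        congr 1; ring
      rw [h1]
      have h2 := hyx.dvd
      have h3 : (j.1 + (x - y)) % N = j.1 % N := by
        rw [Int.add_emod, Int.emod_eq_zero_of_dvd h2]
        simp
      rw [h3]
      exact Int.emod_eq_of_lt hj'.1 hj'.2.1
  refine (card_le_card hsub).trans ?_
  rw [card_product, card_product, card_product, Int.card_Icc]
  have h1 : ((Ioo (-(M : ℤ)) M).image (fun r => (i.1 + r) % N)).card ≤ 2 * M := by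
    refine card_image_le.trans ?_
    rw [Int.card_Ioo]
    omega
  have h2 : ((M : ℤ) + 1 - 0).toNat ≤ 2 * M := by omega
  refine (Nat.mul_le_mul h1 (Nat.mul_le_mul h2 (Nat.mul_le_mul h2 h2))).trans (le_of_eq ?_)
  ring

/-- the bad event attached to an index -/
def bad (v : ℤ → ℝ) (N m : ℕ) (δ g : ℝ) (i : ℤ × ℤ × ℤ × ℤ) (ω : ZMod N → Fin m) : Prop :=
  Bad v N m δ g i.1 (i.1 + i.2.1) (i.1 + i.2.2.1) (i.1 + i.2.2.2) ω

lemma bad_dep (v : ℤ → ℝ) (N m M : ℕ) [NeZero N] (δ g : ℝ) (i : ℤ × ℤ × ℤ × ℤ) (hi : i ∈ idx N M)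
    (ω ω' : ZMod N → Fin m) (h : ∀ t ∈ win N M i, ω t = ω' t) (hb : bad v N m δ g i ω) :
    bad v N m δ g i ω' := by
  obtain ⟨e, he, e', he', hlt⟩ := hb
  have hi' := (mem_idx i).mp hi
  have hx : ∀ x, i.1 ≤ x → x < i.1 + M → rp N m δ ω x = rp N m δ ω' x := by
    intro x h1 h2
    unfold rp
    rw [h (x : ZMod N) (mem_image_of_mem _ (mem_Ico.mpr ⟨h1, h2⟩))]
  refine ⟨e, spec_congr (fun x h1 h2 => ?_) he, e', spec_congr (fun x h1 h2 => ?_) he', hlt⟩
  · rw [hx x h1 (by omega)]
  · rw [hx x (by omega) (by omega)]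

lemma exists_omega (v : ℤ → ℝ) (N : ℕ) [NeZero N] (M : ℕ)
    (hM : 1 ≤ M) (hMN : M ≤ N) (δ : ℝ) (hδ : 0 < δ) (m : ℕ) (hm : 0 < m)
    (hmg : δ / m ≤ 2 * (δ / (256 * M ^ 7))) :
    ∃ ω : ZMod N → Fin m, ∀ i ∈ idx N M, ¬ bad v N m δ (δ / (256 * M ^ 7)) i ω := by
  classical
  have hM' : (1 : ℝ) ≤ M := by exact_mod_cast hM
  have hM4 : 1 ≤ M ^ 4 := Nat.one_le_pow _ _ hM
  have hg0 : 0 < δ / (256 * (M : ℝ) ^ 7) := by positivity
  have hne : Nonempty (ZMod N → Fin m) := ⟨fun _ => ⟨0, hm⟩⟩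
  have hcard : 0 < Fintype.card (ZMod N → Fin m) := Fintype.card_pos
  have hp0 : 0 ≤ 4 * (M : ℝ) ^ 3 * (δ / (256 * M ^ 7)) / δ := by positivity
  have h4 : 4 * (4 * (M : ℝ) ^ 3 * (δ / (256 * M ^ 7)) / δ) * ((16 * M ^ 4 : ℕ) : ℝ) ≤ 1 := by
    push_cast
    have h5 : (4 : ℝ) * (4 * M ^ 3 * (δ / (256 * M ^ 7)) / δ) * (16 * M ^ 4) = 1 := by
      field_simp
      ring
    rw [h5]
  refine lll' (idx N M) (bad v N m δ (δ / (256 * M ^ 7))) (win N M)
    (fun i hi ω ω' h hb => bad_dep v N m M δ _ i hi ω ω' h hb) _ (16 * M ^ 4) hp0 ?_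
    (fun i _ => nbr N M hM i) h4 (by omega) hcard
  intro i hi
  have hi' := (mem_idx i).mp hi
  exact wegner v N m M hm hMN δ _ hδ hg0 hmg i.1 (i.1 + i.2.1) (i.1 + i.2.2.1)
    (i.1 + i.2.2.2) (by omega) (by omega) (by omega) (by omega)

/-- The local lemma step: a small periodic nonnegative perturbation separates the Dirichlet
spectra of all disjoint intervals contained in a stretch of length `M`. -/
theorem exists_q (v : ℤ → ℝ) (N : ℕ) (hN : 0 < N) (hv : ∀ x, v (x + N) = v x) (M : ℕ)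
    (hM : 1 ≤ M) (hMN : M ≤ N) (δ : ℝ) (hδ : 0 < δ) :
    ∃ q : ℤ → ℝ, (∀ x, q (x + N) = q x) ∧ (∀ x, 0 ≤ q x ∧ q x ≤ δ) ∧
      Sep (fun x => v x + q x) M (δ / (256 * M ^ 7)) := by
  have : NeZero N := ⟨hN.ne'⟩
  have hM' : (1 : ℝ) ≤ M := by exact_mod_cast hM
  have hg0 : 0 < δ / (256 * (M : ℝ) ^ 7) := by positivity
  obtain ⟨m, hm1⟩ := exists_nat_gt (δ / (2 * (δ / (256 * (M : ℝ) ^ 7))))
  have hm0 : (0 : ℝ) < m := lt_trans (by positivity) hm1
  have hm : 0 < m := by exact_mod_cast hm0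
  have hmg : δ / m ≤ 2 * (δ / (256 * M ^ 7)) := by
    rw [div_lt_iff₀ (by positivity)] at hm1
    rw [div_le_iff₀ hm0]
    linarith
  obtain ⟨ω, hω⟩ := exists_omega v N M hM hMN δ hδ m hm hmg
  have hper : ∀ x : ℤ, rp N m δ ω (x + N) = rp N m δ ω x := by
    intro x
    unfold rp
    push_cast
    rw [ZMod.natCast_self, add_zero]
  refine ⟨rp N m δ ω, hper, ?_, ?_⟩
  · intro x
    unfold rp
    refine ⟨by positivity, ?_⟩
    have h1 : ((ω (x : ZMod N)).val : ℝ) ≤ m := by exact_mod_cast (ω (x : ZMod N)).2.le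
    calc ((ω (x : ZMod N)).val : ℝ) * (δ / m) ≤ m * (δ / m) :=
          mul_le_mul_of_nonneg_right h1 (by positivity)
      _ = δ := by field_simp
  · intro a b a' b' h1 h2 h3 h4 e he e' he'
    -- reduce the base point modulo `N`
    have hperk : ∀ k : ℤ, (fun x => v x + rp N m δ ω x) =
        (fun x => (fun y => v y + rp N m δ ω y) (x + k * N)) := by
      intro k
      funext x
      have h5 : Function.Periodic (fun y => v y + rp N m δ ω y) (N : ℤ) := by
        intro y
        simp only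
        rw [hv y, hper y]
      have := h5.int_mul k x
      exact this.symm
    have key : ∀ a b : ℤ, ∀ e, e ∈ Spec (fun x => v x + rp N m δ ω x) a b → ∀ k : ℤ,
        e ∈ Spec (fun x => v x + rp N m δ ω x) (a + k * N) (b + k * N) := by
      intro a b e he k
      rw [hperk k] at he
      exact spec_shift he
    obtain ⟨k, hk1⟩ : ∃ k : ℤ, a + k * N = a % N := by
      refine ⟨-(a / N), ?_⟩
      have := Int.emod_add_mul_ediv a N
      linarith
    have hN' : (0 : ℤ) < N := by exact_mod_cast hN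
    have h5 := Int.emod_nonneg a hN'.ne'
    have h6 := Int.emod_lt_of_pos a hN'
    have hnot := hω (a % N, b - a, a' - a, b' - a) (by
      rw [mem_idx]
      simp only
      omega)
    by_contra hcon
    push Not at hcon
    apply hnot
    refine ⟨e, ?_, e', ?_, hcon⟩
    · have := key a b e he k
      rw [hk1, show b + k * N = a % N + (b - a) by rw [← hk1]; ring] at this
      exact this
    · have := key a' b' e' he' k
      rw [show a' + k * N = a % N + (a' - a) by rw [← hk1]; ring,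
        show b' + k * N = a % N + (b' - a) by rw [← hk1]; ring] at this
      exact this

end Pool.Agent.N658.PP
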