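import Mathlib
import Pool.Agent.N658.PP.PurePoint2
import Pool.Agent.N658.PP.Wegner
import Pool.Agent.N658.PP.System

set_option autoImplicit false

/-! Choice of the parameters. -/

namespace Pool.Agent.N658.PP

open Filter Topology

lemma param_large (δ₀ θ : ℝ) (hδ : 0 < δ₀) (hθ0 : 0 < θ) (hθ1 : θ < 1) (P : ℕ) (hP : 0 < P) :
    ∃ nstar : ℕ, ∀ n : ℕ, nstar ≤ n → 2 ≤ n / P ∧ 1 ≤ n ∧
      4 * θ ^ (n / P - 2) * (2048 * (256 * (n : ℝ)) ^ 7 / δ₀) ^ 33 ≤ 1 := by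
  set G : ℝ := (2048 * (256 * (P : ℝ)) ^ 7 / δ₀) ^ 33 with hG
  have hP' : (0 : ℝ) < P := by exact_mod_cast hP
  have hG0 : 0 < G := by positivity
  have hlim := tendsto_pow_const_mul_const_pow_of_abs_lt_one 231 (r := θ)
    (by rw [abs_of_pos hθ0]; exact hθ1)
  have hev := hlim.eventually (gt_mem_nhds (show (0 : ℝ) < θ ^ 3 / (4 * G) by positivity))
  obtain ⟨k₀, hk₀⟩ := eventually_atTop.mp hev
  refine ⟨(k₀ + 2) * P, fun n hn => ?_⟩
  have h1 : k₀ + 2 ≤ n / P := by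
    rw [Nat.le_div_iff_mul_le hP]; exact hn
  refine ⟨by omega, ?_, ?_⟩
  · have : 1 ≤ (k₀ + 2) * P := Nat.mul_pos (by omega) hP
    omega
  obtain ⟨K, hK⟩ : ∃ K, n / P = K + 2 := ⟨n / P - 2, by omega⟩
  have h2 := hk₀ (K + 3) (by omega)
  rw [hK, Nat.add_sub_cancel]
  have h3 : (n : ℝ) ≤ P * ((K + 3 : ℕ) : ℝ) := by
    have h4 := Nat.lt_div_mul_add (a := n) hP
    rw [hK] at h4
    have h5 : n ≤ P * (K + 3) := by nlinarith
    exact_mod_cast h5
  have h4 : (2048 * (256 * (n : ℝ)) ^ 7 / δ₀) ^ 33 ≤ G * ((K + 3 : ℕ) : ℝ) ^ 231 := by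
    have h5 : 2048 * (256 * (n : ℝ)) ^ 7 / δ₀ ≤
        2048 * (256 * (P : ℝ)) ^ 7 / δ₀ * ((K + 3 : ℕ) : ℝ) ^ 7 := by
      rw [div_mul_eq_mul_div, div_le_div_iff_of_pos_right hδ]
      have h6 : (n : ℝ) ^ 7 ≤ (P * ((K + 3 : ℕ) : ℝ)) ^ 7 := pow_le_pow_left₀ (by positivity) h3 7
      rw [mul_pow, mul_pow] at *
      linarith
    have h6 := pow_le_pow_left₀ (by positivity) h5 33
    refine h6.trans (le_of_eq ?_)
    rw [mul_pow, hG, ← pow_mul]
  have h5 : 4 * θ ^ K * (2048 * (256 * (n : ℝ)) ^ 7 / δ₀) ^ 33 ≤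
      4 * θ ^ K * (G * ((K + 3 : ℕ) : ℝ) ^ 231) := mul_le_mul_of_nonneg_left h4 (by positivity)
  refine h5.trans ?_
  have h6 : ((K + 3 : ℕ) : ℝ) ^ 231 * θ ^ (K + 3) ≤ θ ^ 3 / (4 * G) := h2.le
  rw [pow_add, le_div_iff₀ (by positivity)] at h6
  have h7 : 0 < θ ^ 3 := by positivity
  have h8 : (4 * θ ^ K * (G * ((K + 3 : ℕ) : ℝ) ^ 231)) * θ ^ 3 ≤ 1 * θ ^ 3 := by
    calc (4 * θ ^ K * (G * ((K + 3 : ℕ) : ℝ) ^ 231)) * θ ^ 3
        = ((K + 3 : ℕ) : ℝ) ^ 231 * (θ ^ K * θ ^ 3) * (4 * G) := by ring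
      _ ≤ 1 * θ ^ 3 := by linarith
  exact le_of_mul_le_mul_right h8 h7

/-- sizes of the successive perturbations -/
noncomputable def dl (δ₀ : ℝ) (n : ℕ) : ℕ → ℝ
  | 0 => δ₀
  | s + 1 => dl δ₀ n s / (2048 * ((stretch s * n : ℕ) : ℝ) ^ 7)

lemma stretch_pos (s : ℕ) : 0 < stretch s := by
  unfold stretch; positivity

lemma dl_pos (δ₀ : ℝ) (hδ : 0 < δ₀) (n : ℕ) (hn : 1 ≤ n) (s : ℕ) : 0 < dl δ₀ n s := by
  induction s with
  | zero => exact hδ
  | succ s ih =>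
    have h1 : 0 < ((stretch s * n : ℕ) : ℝ) := by
      have := Nat.mul_pos (stretch_pos s) hn
      exact_mod_cast this
    unfold dl
    positivity

lemma dl_half (δ₀ : ℝ) (hδ : 0 < δ₀) (n : ℕ) (hn : 1 ≤ n) (s : ℕ) :
    dl δ₀ n (s + 1) ≤ dl δ₀ n s / 2 := by
  have h1 : (1 : ℝ) ≤ ((stretch s * n : ℕ) : ℝ) := by
    have := Nat.mul_pos (stretch_pos s) hn
    exact_mod_cast this
  have h2 := dl_pos δ₀ hδ n hn s
  have h3 : (1 : ℝ) ≤ ((stretch s * n : ℕ) : ℝ) ^ 7 := one_le_pow₀ h1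
  rw [show dl δ₀ n (s + 1) = dl δ₀ n s / (2048 * ((stretch s * n : ℕ) : ℝ) ^ 7) from rfl]
  apply div_le_div_of_nonneg_left h2.le (by norm_num)
  linarith

lemma dl_lower (δ₀ : ℝ) (hδ : 0 < δ₀) (hδ1 : δ₀ ≤ 1) (n : ℕ) (hn : 1 ≤ n) (s : ℕ) :
    1 ≤ dl δ₀ n s * (2048 * (256 * (n : ℝ)) ^ 7 / δ₀) ^ (16 ^ s) := by
  set X : ℝ := 2048 * (256 * (n : ℝ)) ^ 7 / δ₀ with hX
  have hn' : (1 : ℝ) ≤ n := by exact_mod_cast hn
  have hbase : (2 : ℝ) ^ 35 ≤ 2048 * (256 * (n : ℝ)) ^ 7 := by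
    have h1 : (256 : ℝ) ^ 7 ≤ (256 * (n : ℝ)) ^ 7 := pow_le_pow_left₀ (by norm_num) (by linarith) 7
    have h2 : (2 : ℝ) ^ 35 ≤ 2048 * 256 ^ 7 := by norm_num
    linarith
  have hX1 : 2048 * (256 * (n : ℝ)) ^ 7 ≤ X := by
    rw [hX, le_div_iff₀ hδ]
    have : 0 ≤ 2048 * (256 * (n : ℝ)) ^ 7 := by positivity
    nlinarith
  have hX35 : (2 : ℝ) ^ 35 ≤ X := hbase.trans hX1
  have hXone : 1 ≤ X := le_trans (by norm_num) hX35
  induction s with
  | zero =>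
    rw [pow_zero, pow_one]
    unfold dl
    rw [hX, mul_div_cancel₀ _ hδ.ne']
    exact le_trans (by norm_num) hbase
  | succ s ih =>
    have hd := dl_pos δ₀ hδ n hn s
    have hM : 0 < 2048 * ((stretch s * n : ℕ) : ℝ) ^ 7 := by
      have := Nat.mul_pos (stretch_pos s) hn
      have : (0 : ℝ) < ((stretch s * n : ℕ) : ℝ) := by exact_mod_cast this
      positivity
    have h1 : 2048 * ((stretch s * n : ℕ) : ℝ) ^ 7 ≤ X ^ (s + 1) := by
      have h2 : 2048 * ((stretch s * n : ℕ) : ℝ) ^ 7 =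
          (2048 * (256 * (n : ℝ)) ^ 7) * ((2 : ℝ) ^ 35) ^ s := by
        unfold stretch
        push_cast
        rw [← pow_mul, show (256 : ℝ) * 32 ^ s * n = (256 * n) * 32 ^ s by ring, mul_pow _ _ 7,
          ← pow_mul 32, show (32 : ℝ) = 2 ^ 5 by norm_num, ← pow_mul 2 5]
        ring
      rw [h2, pow_succ, mul_comm]
      exact mul_le_mul (pow_le_pow_left₀ (by positivity) hX35 s) hX1 (by positivity)
        (pow_nonneg (by linarith) s)
    have h2 : 16 ^ s + (s + 1) ≤ 16 ^ (s + 1) := by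
      have h3 : s + 1 ≤ 16 ^ s := Nat.lt_pow_self (by norm_num)
      rw [pow_succ]; omega
    have h3 : X ^ (16 ^ s) * X ^ (s + 1) ≤ X ^ (16 ^ (s + 1)) := by
      rw [← pow_add]
      exact pow_le_pow_right₀ hXone h2
    have h4 : dl δ₀ n (s + 1) * (2048 * ((stretch s * n : ℕ) : ℝ) ^ 7) = dl δ₀ n s := by
      rw [show dl δ₀ n (s + 1) = dl δ₀ n s / (2048 * ((stretch s * n : ℕ) : ℝ) ^ 7) from rfl]
      exact div_mul_cancel₀ _ hM.ne'
    have hd1 := dl_pos δ₀ hδ n hn (s + 1)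
    calc (1 : ℝ) ≤ dl δ₀ n s * X ^ (16 ^ s) := ih
      _ = dl δ₀ n (s + 1) * (2048 * ((stretch s * n : ℕ) : ℝ) ^ 7) * X ^ (16 ^ s) := by rw [h4]
      _ ≤ dl δ₀ n (s + 1) * X ^ (s + 1) * X ^ (16 ^ s) := by
          apply mul_le_mul_of_nonneg_right _ (by positivity)
          exact mul_le_mul_of_nonneg_left h1 hd1.le
      _ = dl δ₀ n (s + 1) * (X ^ (16 ^ s) * X ^ (s + 1)) := by ring
      _ ≤ dl δ₀ n (s + 1) * X ^ (16 ^ (s + 1)) := mul_le_mul_of_nonneg_left h3 hd1.le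

/-- pure point spectrum of a potential with barriers and separation at all scales -/
theorem potential_pp (n K : ℕ) (hn : 1 ≤ n) (θ : ℝ) (hθ0 : 0 < θ) (m : ℤ)
    (v : ℤ → ℝ) (Cv : ℝ) (hV : ∀ x, |v x| ≤ Cv)
    (hbar : ∀ E, |E| ≤ 2 + Cv → ∃ (c₀ : ℤ) (W : ℕ), 0 ≤ c₀ + m - W - 1 ∧ c₀ + m + W < n ∧
            ∀ (i : ℤ) (u : ℤ → ℝ) (B : ℝ),
              (∀ y, c₀ + i * n - W ≤ y → y < c₀ + i * n + W →
                u (y + 1) + u (y - 1) + v y * u y = E * u y) →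
              (∀ y, c₀ + i * n - W - 1 ≤ y → y ≤ c₀ + i * n + W → |u y| ≤ B) →
              |u (c₀ + i * n)| ≤ θ ^ K * B ∧ |u (c₀ + i * n - 1)| ≤ θ ^ K * B)
    (h : ℕ → ℝ) (hh : ∀ s, 0 < h s) (hsep : ∀ s, Sep v (stretch s * n) (2 * h s)) (κ : ℝ)
    (hκ : 0 < κ) (hA : 4 * θ ^ K ≤ h 0 * Real.exp (-(2 * κ)))
    (hB : ∀ s, 4 * θ ^ K ≤ h (s + 1) * Real.exp (κ * rad s)) :
    (Submodule.span ℂ (eigset v)).topologicalClosure = ⊤ := by
  have hn' : (0 : ℝ) < n := by exact_mod_cast hn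
  have hnZ : (1 : ℤ) ≤ n := by exact_mod_cast hn
  refine pure_point v Cv hV (Real.exp κ) (κ / n) (Real.exp_pos _) (by positivity) n
    (fun N => -m - N * n) (fun N => -m + N * n) ?_ ?_
  · intro x
    filter_upwards [eventually_ge_atTop (|x + m|.toNat + 1)] with N hN
    have h1 : |x + m| + 1 ≤ (N : ℤ) := by
      have := abs_nonneg (x + m)
      omega
    have h2 : (N : ℤ) ≤ N * n := by nlinarith
    have h3 := abs_le.mp (le_refl |x + m|)
    constructor <;> linarith [h3.1, h3.2]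
  · intro N E u hu
    have hE := eig_bound hV hu
    obtain ⟨c₀, W, hW1, hW2, hcut⟩ := hbar E hE
    obtain ⟨i₀, hi₀⟩ := localize v n hn (-m - N * n) (-m + N * n) E u hu c₀ κ (θ ^ K) hκ
      (by positivity) h hh hA hB hsep (by
      intro i
      set B : ℝ := max (mass u (c₀ + (i - 1) * n) (c₀ + i * n))
        (mass u (c₀ + i * n) (c₀ + (i + 1) * n)) with hBdef
      have hB0 : 0 ≤ B := le_trans (mass_nonneg _ _ _) (le_max_left _ _)
      have hθK : 0 ≤ θ ^ K * B := by positivity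
      -- either the cell is inside or outside
      rcases lt_or_ge i (-(N : ℤ)) with hi1 | hi1
      · have h1 : (i + 1) * (n : ℤ) ≤ -(N : ℤ) * n := mul_le_mul_of_nonneg_right (by omega) (by omega)
        have e1 : u (c₀ + i * n) = 0 := hu.1 _ (by left; nlinarith)
        have e2 : u (c₀ + i * n - 1) = 0 := hu.1 _ (by left; nlinarith)
        rw [e1, e2, abs_zero]
        exact ⟨hθK, hθK⟩
      rcases lt_or_ge i N with hi2 | hi2
      · -- inside
        have h1 : -(N : ℤ) * n ≤ i * (n : ℤ) := mul_le_mul_of_nonneg_right (by omega) (by omega)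
        have h2 : (i + 1) * (n : ℤ) ≤ (N : ℤ) * n := mul_le_mul_of_nonneg_right (by omega) (by omega)
        have h3 : (i + 1) * (n : ℤ) = i * n + n := by ring
        have h4 : (i - 1) * (n : ℤ) = i * n - n := by ring
        have h5 : -(N : ℤ) * n = -(N * n) := by ring
        apply hcut i u B
        · intro y hy1 hy2
          exact hu.2.1 y (by linarith) (by linarith)
        · intro y hy1 hy2
          rcases lt_or_ge y (c₀ + i * n) with hy | hy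
          · refine le_trans (abs_le_mass u (c₀ + (i - 1) * n) (c₀ + i * n) y ?_ hy)
              (le_max_left _ _)
            linarith
          · refine le_trans (abs_le_mass u (c₀ + i * n) (c₀ + (i + 1) * n) y hy ?_)
              (le_max_right _ _)
            linarith
      · have h1 : (N : ℤ) * n ≤ i * (n : ℤ) := mul_le_mul_of_nonneg_right (by omega) (by omega)
        have e1 : u (c₀ + i * n) = 0 := hu.1 _ (by right; linarith)
        have e2 : u (c₀ + i * n - 1) = 0 := hu.1 _ (by right; linarith)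
        rw [e1, e2, abs_zero]
        exact ⟨hθK, hθK⟩)
    refine ⟨c₀ + i₀ * n, fun x => ?_⟩
    -- the well containing `x`
    set i : ℤ := (x - c₀) / n with hi
    have hn0 : (0 : ℤ) < n := by omega
    have hx1 : c₀ + i * n ≤ x := by
      have := Int.ediv_mul_le (x - c₀) hn0.ne'
      rw [← hi] at this
      linarith
    have hx2 : x < c₀ + (i + 1) * n := by
      have := Int.lt_ediv_add_one_mul_self (x - c₀) hn0
      rw [← hi] at this
      linarith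
    have h1 := (abs_le_mass u _ _ x hx1 hx2).trans (hi₀ i)
    have h2 : c₀ + (i₀ + 1) * (n : ℤ) = c₀ + i₀ * n + n := by ring
    rw [h2] at h1
    refine h1.trans (mul_le_mul_of_nonneg_right ?_ (mass_nonneg _ _ _))
    rw [← Real.exp_add]
    apply Real.exp_le_exp.mpr
    have hx1' : (c₀ : ℝ) + i * n ≤ x := by exact_mod_cast hx1
    have hx2' : (x : ℝ) ≤ c₀ + (i + 1) * n := by exact_mod_cast hx2.le
    push_cast
    have h3 : |(x : ℝ) - (c₀ + i₀ * n)| ≤ (|(i : ℝ) - i₀| + 1) * n := by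
      have h4 := abs_le.mp (le_refl |(i : ℝ) - i₀|)
      have h5 := mul_le_mul_of_nonneg_right h4.1 hn'.le
      have h6 := mul_le_mul_of_nonneg_right h4.2 hn'.le
      rw [abs_le]
      constructor <;> nlinarith
    have h4 : κ / n * |(x : ℝ) - (c₀ + i₀ * n)| ≤ κ * (|(i : ℝ) - i₀| + 1) := by
      calc κ / n * |(x : ℝ) - (c₀ + i₀ * n)| ≤ κ / n * ((|(i : ℝ) - i₀| + 1) * n) :=
            mul_le_mul_of_nonneg_left h3 (by positivity)
        _ = _ := by field_simp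
    linarith

end Pool.Agent.N658.PP
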