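import Mathlib
import Pool.Agent.N658.PP.Params

set_option autoImplicit false

/-! The inductive construction of the sampling sequence. -/

namespace Pool.Agent.N658.PP

open Filter Topology

lemma periodic_bdd (V₀ : ℤ → ℝ) (N₀ : ℕ) (hN₀ : 0 < N₀) (hper : ∀ x, V₀ (x + N₀) = V₀ x) :
    ∃ A : ℝ, 0 ≤ A ∧ ∀ x, |V₀ x| ≤ A := by
  refine ⟨∑ y ∈ Finset.Ico (0 : ℤ) N₀, |V₀ y|, by positivity, fun x => ?_⟩
  have hN : (0 : ℤ) < N₀ := by exact_mod_cast hN₀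
  have h1 : V₀ x = V₀ (x % N₀) := by
    have hP : Function.Periodic V₀ (N₀ : ℤ) := hper
    have h2 := Int.emod_add_mul_ediv x N₀
    have := hP.int_mul (x / N₀) (x % N₀)
    rw [← this]
    congr 1
    simp only [Int.cast_id]
    linarith
  rw [h1]
  exact Finset.single_le_sum (f := fun y => |V₀ y|) (fun _ _ => abs_nonneg _)
    (Finset.mem_Ico.mpr ⟨Int.emod_nonneg x hN.ne', Int.emod_lt_of_pos x hN⟩)

lemma periodic_dvd {w : ℤ → ℝ} {N N' : ℕ} (h : ∀ x, w (x + N) = w x) (hd : N ∣ N') :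
    ∀ x, w (x + N') = w x := by
  intro x
  obtain ⟨k, rfl⟩ := hd
  have hP : Function.Periodic w (N : ℤ) := h
  have := hP.int_mul k x
  rw [← this]; congr 1; push_cast; ring

/-- the inductive step, packaged -/
lemma exists_chain (V1 : ℤ → ℝ) (n : ℕ) (hn : 1 ≤ n) (hV1 : ∀ x, V1 (x + n) = V1 x) (N : ℕ → ℕ)
    (hN0 : n ∣ N 0) (hNd : ∀ s, N s ∣ N (s + 1)) (hNM : ∀ s, stretch s * n ≤ N s) (d : ℕ → ℝ)
    (hd : ∀ s, 0 < d s) : ∃ W : ℕ → ℤ → ℝ, W 0 = V1 ∧ (∀ s x, W s (x + N s) = W s x) ∧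
      (∀ s x, 0 ≤ W (s + 1) x - W s x ∧ W (s + 1) x - W s x ≤ d s) ∧
      ∀ s, Sep (W (s + 1)) (stretch s * n) (d s / (256 * ((stretch s * n : ℕ) : ℝ) ^ 7)) := by
  have hM : ∀ s, 1 ≤ stretch s * n := fun s => Nat.mul_pos (stretch_pos s) hn
  have step : ∀ s (w : {w : ℤ → ℝ // ∀ x, w (x + N s) = w x}),
      ∃ w' : {w : ℤ → ℝ // ∀ x, w (x + N (s + 1)) = w x},
        (∀ x, 0 ≤ w'.1 x - w.1 x ∧ w'.1 x - w.1 x ≤ d s) ∧
        Sep w'.1 (stretch s * n) (d s / (256 * ((stretch s * n : ℕ) : ℝ) ^ 7)) := by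
    intro s w
    obtain ⟨q, hq1, hq2, hq3⟩ := exists_q w.1 (N s) (lt_of_lt_of_le (hM s) (hNM s)) w.2
      (stretch s * n) (hM s) (hNM s) (d s) (hd s)
    refine ⟨⟨fun x => w.1 x + q x, periodic_dvd (w := fun x => w.1 x + q x) (N := N s)
      (fun x => by simp only [w.2 x, hq1 x]) (hNd s)⟩, ?_, ?_⟩
    · intro x
      simp only [add_sub_cancel_left]
      exact hq2 x
    · push_cast at hq3 ⊢
      exact hq3
  choose f hf1 hf2 using step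
  let F : (s : ℕ) → {w : ℤ → ℝ // ∀ x, w (x + N s) = w x} := fun s =>
    Nat.rec (motive := fun s => {w : ℤ → ℝ // ∀ x, w (x + N s) = w x})
      ⟨V1, periodic_dvd hV1 hN0⟩ (fun s w => f s w) s
  have hF0 : (F 0).1 = V1 := rfl
  have hFs : ∀ s, F (s + 1) = f s (F s) := fun s => rfl
  refine ⟨fun s => (F s).1, hF0, fun s => (F s).2, fun s => ?_, fun s => ?_⟩
  · simp only [hFs]; exact hf1 s (F s)
  · simp only [hFs]; exact hf2 s (F s)

theorem main_Z (V₀ : ℤ → ℝ) (N₀ : ℕ) (hN₀ : 0 < N₀) (hper : ∀ x, V₀ (x + N₀) = V₀ x) (δ : ℝ)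
    (hδ : 0 < δ) : ∃ nstar : ℕ, ∀ n : ℕ, nstar ≤ n → N₀ ∣ n → ∀ N : ℕ → ℕ, n ∣ N 0 →
      (∀ s, N s ∣ N (s + 1)) → (∀ s, stretch s * n ≤ N s) →
      ∃ (W : ℕ → ℤ → ℝ) (d : ℕ → ℝ), (∀ s x, W s (x + N s) = W s x) ∧
        (∀ x, |W 0 x - V₀ x| ≤ δ) ∧
        (∀ s x, 0 ≤ W (s + 1) x - W s x ∧ W (s + 1) x - W s x ≤ d s) ∧
        (∀ s, 0 < d s) ∧ (∀ s, d (s + 1) ≤ d s / 2) ∧ d 0 ≤ δ ∧
        ∀ v : ℤ → ℝ, (∀ s, ∃ m : ℤ, ∀ x, |v x - W s (x + m)| ≤ 2 * d s) →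
          (Submodule.span ℂ (eigset v)).topologicalClosure = ⊤ := by
  obtain ⟨A₀, hA₀, hV₀⟩ := periodic_bdd V₀ N₀ hN₀ hper
  set Cv : ℝ := A₀ + 3 * δ with hCv
  obtain ⟨ε, θ, P, hε, hθ0, hθ1, hP, hsys⟩ := barrier_system V₀ N₀ hN₀ hper δ hδ (2 + Cv)
    (by positivity)
  set δ₀ : ℝ := min 1 (min δ (ε / 2)) with hδ₀
  have hδ₀0 : 0 < δ₀ := lt_min one_pos (lt_min hδ (by positivity))
  have hδ₀1 : δ₀ ≤ 1 := min_le_left _ _
  have hδ₀δ : δ₀ ≤ δ := (min_le_right _ _).trans (min_le_left _ _)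
  have hδ₀ε : δ₀ ≤ ε / 2 := (min_le_right _ _).trans (min_le_right _ _)
  obtain ⟨nstar, hns⟩ := param_large δ₀ θ hδ₀0 hθ0 hθ1 P hP
  refine ⟨nstar, fun n hn hNn N hN0 hNd hNM => ?_⟩
  obtain ⟨hn2, hn1, hpar⟩ := hns n hn
  set K : ℕ := n / P - 2 with hK
  have hKP : (K + 2) * P ≤ n := by
    have : K + 2 = n / P := by omega
    rw [this]
    exact Nat.div_mul_le_self n P
  obtain ⟨V1, hV1per, hV1δ, hV1bar⟩ := hsys n K hNn hKP
  set d : ℕ → ℝ := dl δ₀ n with hd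
  have hdpos : ∀ s, 0 < d s := dl_pos δ₀ hδ₀0 n hn1
  have hdhalf : ∀ s, d (s + 1) ≤ d s / 2 := dl_half δ₀ hδ₀0 n hn1
  obtain ⟨W, hW0, hWper, hWd, hWsep⟩ := exists_chain V1 n hn1 hV1per N hN0 hNd hNM d hdpos
  have hd0 : d 0 = δ₀ := rfl
  refine ⟨W, d, hWper, fun x => by rw [hW0]; exact hV1δ x, hWd, hdpos, hdhalf,
    by rw [hd0]; exact hδ₀δ, ?_⟩
  intro v hv
  obtain ⟨m, hm⟩ := hv 0
  rw [hW0] at hm
  have hvV1 : ∀ x, |v x - V1 (x + m)| ≤ ε := by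
    intro x
    have := hm x
    rw [hd0] at this
    linarith
  have hvb : ∀ x, |v x| ≤ Cv := by
    intro x
    have h1 := hm x
    have h2 := hV1δ (x + m)
    have h3 := hV₀ (x + m)
    rw [hd0] at h1
    rw [abs_le] at h1 h2 h3 ⊢
    constructor <;> linarith [h1.1, h1.2, h2.1, h2.2, h3.1, h3.2]
  set X : ℝ := 2048 * (256 * (n : ℝ)) ^ 7 / δ₀ with hX
  have hn' : (1 : ℝ) ≤ n := by exact_mod_cast hn1
  have hX1 : 1 < X := by
    rw [hX, lt_div_iff₀ hδ₀0]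
    have h1 : (256 : ℝ) ^ 7 ≤ (256 * (n : ℝ)) ^ 7 := pow_le_pow_left₀ (by norm_num) (by linarith) 7
    have h2 : (1 : ℝ) < 2048 * 256 ^ 7 := by norm_num
    linarith
  have hX0 : 0 < X := by linarith
  have hexpX : ∀ j : ℕ, Real.exp (j * Real.log X) = X ^ j := by
    intro j
    rw [Real.exp_nat_mul, Real.exp_log hX0]
  have hθK : 4 * θ ^ K ≤ 1 := by
    have h1 : (1 : ℝ) ≤ X ^ 33 := one_le_pow₀ hX1.le
    have h2 : 0 < θ ^ K := by positivity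
    nlinarith
  refine potential_pp n K hn1 θ hθ0 m v Cv hvb (hV1bar v m hvV1) (fun s => d (s + 1))
    (fun s => hdpos (s + 1)) ?_ (16 * Real.log X) (by have := Real.log_pos hX1; positivity) ?_ ?_
  · -- separation
    intro s
    obtain ⟨m', hm'⟩ := hv (s + 1)
    have h1 := (hWsep s).shift m'
    have h2 := h1.perturb (v' := v) (η := 2 * d (s + 1)) (by have := hdpos (s + 1); positivity)
      (by
        intro x
        rw [abs_sub_comm]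
        exact hm' x)
    refine h2.mono ?_
    have hM : (0 : ℝ) < ((stretch s * n : ℕ) : ℝ) := by
      have := Nat.mul_pos (stretch_pos s) hn1
      exact_mod_cast this
    have h3 : d (s + 1) = d s / (2048 * ((stretch s * n : ℕ) : ℝ) ^ 7) := rfl
    have h4 : d s / (256 * ((stretch s * n : ℕ) : ℝ) ^ 7) = 8 * d (s + 1) := by
      rw [h3]; field_simp; ring
    rw [h4]
    have := hdpos (s + 1)
    linarith
  · -- first scale
    have h1 : -(2 * (16 * Real.log X)) = -(((32 : ℕ) : ℝ) * Real.log X) := by push_cast; ring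
    rw [h1, Real.exp_neg, hexpX, zero_add]
    have h2 : 1 ≤ d 1 * X := by
      have h3 : d 1 = δ₀ / (2048 * ((stretch 0 * n : ℕ) : ℝ) ^ 7) := rfl
      have h4 : ((stretch 0 * n : ℕ) : ℝ) = 256 * n := by
        unfold stretch; push_cast; ring
      rw [h3, h4, hX]
      apply le_of_eq
      field_simp
    rw [← div_eq_mul_inv, le_div_iff₀ (by positivity)]
    have h5 : 4 * θ ^ K * X ^ 33 ≤ d 1 * X := hpar.trans h2
    have h6 : 4 * θ ^ K * X ^ 32 * X ≤ d 1 * X := by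
      calc 4 * θ ^ K * X ^ 32 * X = 4 * θ ^ K * X ^ 33 := by ring
        _ ≤ _ := h5
    exact le_of_mul_le_mul_right h6 hX0
  · -- higher scales
    intro s
    have h1 : 16 * Real.log X * (rad s : ℝ) = ((16 ^ (s + 2) : ℕ) : ℝ) * Real.log X := by
      unfold rad; push_cast; ring
    rw [h1, hexpX]
    exact hθK.trans (dl_lower δ₀ hδ₀0 hδ₀1 n hn1 (s + 2))

end Pool.Agent.N658.PP
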