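import Mathlib
import Pool.Agent.N658.PP.MainZ

set_option autoImplicit false

/-! Sampling functions on a Cantor group with a minimal translation, and the main theorem. -/

namespace Pool.Agent.N658.PP

open Filter Topology

set_option linter.unusedSectionVars false

section

variable {Ω : Type} [AddCommGroup Ω] [TopologicalSpace Ω] [IsTopologicalAddGroup Ω]
  [CompactSpace Ω]

/-- the period of the orbit of `α` modulo an open subgroup -/
lemma exists_period (α : Ω) (U : AddSubgroup Ω) (hU : IsOpen (U : Set Ω)) :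
    ∃ N : ℕ, 0 < N ∧ ∀ k : ℤ, k • α ∈ U ↔ (N : ℤ) ∣ k := by
  obtain ⟨a, ha⟩ := Int.subgroup_cyclic (AddSubgroup.comap (zmultiplesHom Ω α) U)
  have hmem : ∀ k : ℤ, k • α ∈ U ↔ a ∣ k := by
    intro k
    have h1 : k ∈ AddSubgroup.comap (zmultiplesHom Ω α) U ↔ k • α ∈ U := by
      rw [AddSubgroup.mem_comap, zmultiplesHom_apply]
    rw [← h1, ha, AddSubgroup.mem_closure_singleton]
    constructor
    · rintro ⟨n, hn⟩
      exact ⟨n, by rw [← hn, smul_eq_mul, mul_comm]⟩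
    · rintro ⟨n, hn⟩
      exact ⟨n, by rw [hn, smul_eq_mul, mul_comm]⟩
  have ha0 : a ≠ 0 := by
    intro h0
    have hfin : Finite (Ω ⧸ U) := AddSubgroup.quotient_finite_of_isOpen U hU
    have hinj : Function.Injective (fun k : ℤ => (QuotientAddGroup.mk (k • α) : Ω ⧸ U)) := by
      intro k l hkl
      have h1 : -(k • α) + l • α ∈ U := QuotientAddGroup.eq.mp hkl
      have h2 : (l - k) • α ∈ U := by
        rw [sub_smul]; rwa [neg_add_eq_sub] at h1
      rw [hmem, h0, zero_dvd_iff] at h2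
      omega
    exact not_injective_infinite_finite _ hinj
  refine ⟨a.natAbs, Int.natAbs_pos.mpr ha0, fun k => ?_⟩
  rw [hmem, Int.natAbs_dvd]

lemma exists_hit (α : Ω) (hα : Dense (Set.range (fun n : ℤ => n • α))) (U : AddSubgroup Ω)
    (hU : IsOpen (U : Set Ω)) (ω : Ω) : ∃ k : ℤ, k • α - ω ∈ U := by
  have hopen : IsOpen ((fun x => x - ω) ⁻¹' (U : Set Ω)) :=
    hU.preimage (continuous_id.sub continuous_const)
  have hne : ((fun x => x - ω) ⁻¹' (U : Set Ω)).Nonempty := ⟨ω, by simp [U.zero_mem]⟩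
  obtain ⟨x, hx, k, hk⟩ := hα.inter_open_nonempty _ hopen hne
  refine ⟨k, ?_⟩
  have : x - ω ∈ U := hx
  rw [← hk] at this
  exact this

/-- the continuous function attached to a periodic sequence -/
lemma exists_sampling (α : Ω) (hα : Dense (Set.range (fun n : ℤ => n • α))) (U : AddSubgroup Ω)
    (hU : IsOpen (U : Set Ω)) (N : ℕ) (hN : ∀ k : ℤ, k • α ∈ U ↔ (N : ℤ) ∣ k) (w : ℤ → ℝ)
    (hw : ∀ x, w (x + N) = w x) :
    ∃ F : C(Ω, ℝ), ∀ (ω : Ω) (k : ℤ), k • α - ω ∈ U → F ω = w k := by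
  choose k hk using exists_hit α hα U hU
  have hwell : ∀ k l : ℤ, k • α - l • α ∈ U → w k = w l := by
    intro k l h
    rw [← sub_smul, hN] at h
    obtain ⟨c, hc⟩ := h
    have hP : Function.Periodic w (N : ℤ) := hw
    have h1 := hP.int_mul c l
    rw [← h1]
    congr 1
    simp only [Int.cast_id]
    linarith
  have key : ∀ (ω : Ω) (l : ℤ), l • α - ω ∈ U → w (k ω) = w l := by
    intro ω l hl
    apply hwell
    have := U.sub_mem (hk ω) hl
    rwa [sub_sub_sub_cancel_right] at this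
  refine ⟨⟨fun ω => w (k ω), ?_⟩, fun ω l hl => key ω l hl⟩
  refine IsLocallyConstant.continuous (IsLocallyConstant.iff_exists_open _ |>.mpr fun ω => ?_)
  refine ⟨(fun x => ω - x) ⁻¹' (U : Set Ω), hU.preimage (continuous_const.sub continuous_id),
    by simp [U.zero_mem], fun ω' hω' => ?_⟩
  have h1 : ω - ω' ∈ U := hω'
  apply key
  have := U.add_mem (hk ω) h1
  rwa [sub_add_sub_cancel] at this

end

section

variable {Ω : Type} [AddCommGroup Ω] [TopologicalSpace Ω] [IsTopologicalAddGroup Ω]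
  [CompactSpace Ω] [T2Space Ω] [TotallyDisconnectedSpace Ω]

lemma exists_small (V : Set Ω) (hV : IsOpen V) (h0 : (0 : Ω) ∈ V) :
    ∃ U : AddSubgroup Ω, IsOpen (U : Set Ω) ∧ (U : Set Ω) ⊆ V := by
  obtain ⟨W, hW, h0W, hWV⟩ := compact_exists_isClopen_in_isOpen hV h0
  obtain ⟨H, hH⟩ := IsTopologicalAddGroup.exist_openAddSubgroup_sub_clopen_nhds_of_zero hW h0W
  exact ⟨H.toAddSubgroup, H.isOpen', hH.trans hWV⟩

lemma zsmul_ne [Infinite Ω] (α : Ω) (hα : Dense (Set.range (fun n : ℤ => n • α))) (k : ℕ)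
    (hk : 0 < k) : (k : ℤ) • α ≠ 0 := by
  intro h
  have hsub : Set.range (fun n : ℤ => n • α) ⊆
      (fun n : ℤ => n • α) '' (Set.Ico (0 : ℤ) k) := by
    rintro x ⟨n, rfl⟩
    have hk' : (0 : ℤ) < k := by exact_mod_cast hk
    refine ⟨n % k, ⟨Int.emod_nonneg n hk'.ne', Int.emod_lt_of_pos n hk'⟩, ?_⟩
    have h1 := Int.emod_add_mul_ediv n k
    simp only
    conv_rhs => rw [← h1]
    rw [add_smul, mul_comm, mul_smul, h, smul_zero, add_zero]
  have hfin : (Set.range (fun n : ℤ => n • α)).Finite := ((Set.finite_Ico (0 : ℤ) k).image _).subset hsub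
  have hcl : closure (Set.range (fun n : ℤ => n • α)) = Set.range (fun n : ℤ => n • α) :=
    hfin.isClosed.closure_eq
  rw [hα.closure_eq] at hcl
  rw [← hcl] at hfin
  exact Set.infinite_univ hfin

/-- open subgroups with large period -/
lemma exists_big [Infinite Ω] (α : Ω) (hα : Dense (Set.range (fun n : ℤ => n • α)))
    (U : AddSubgroup Ω) (hU : IsOpen (U : Set Ω)) (M : ℕ) :
    ∃ U' : AddSubgroup Ω, IsOpen (U' : Set Ω) ∧ U' ≤ U ∧ ∃ N : ℕ, M ≤ N ∧ 0 < N ∧
      ∀ k : ℤ, k • α ∈ U' ↔ (N : ℤ) ∣ k := by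
  obtain ⟨U', hU', hsub⟩ := exists_small
    ((U : Set Ω) ∩ ⋂ k ∈ Finset.Ico 1 M, ({((k : ℕ) : ℤ) • α} : Set Ω)ᶜ)
    (hU.inter (isOpen_biInter_finset fun k _ => isOpen_compl_singleton)) (by
      refine ⟨U.zero_mem, ?_⟩
      simp only [Set.mem_iInter, Set.mem_compl_iff, Set.mem_singleton_iff]
      intro k hk
      exact (zsmul_ne α hα k (Finset.mem_Ico.mp hk).1).symm)
  obtain ⟨N, hN0, hN⟩ := exists_period α U' hU'
  refine ⟨U', hU', fun x hx => (hsub hx).1, N, ?_, hN0, hN⟩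
  by_contra hlt
  push Not at hlt
  have h1 : (N : ℤ) • α ∈ U' := (hN N).mpr (dvd_refl _)
  have h2 := (hsub h1).2
  simp only [Set.mem_iInter, Set.mem_compl_iff, Set.mem_singleton_iff] at h2
  exact h2 N (Finset.mem_Ico.mpr ⟨hN0, hlt⟩) rfl

lemma exists_unif (g : C(Ω, ℝ)) (δ : ℝ) (hδ : 0 < δ) :
    ∃ U : AddSubgroup Ω, IsOpen (U : Set Ω) ∧ ∀ ω u, u ∈ U → |g (ω + u) - g ω| < δ := by
  have h1 : ∀ᶠ u in 𝓝 (0 : Ω), ∀ ω ∈ (Set.univ : Set Ω), |g (ω + u) - g ω| < δ := by
    apply isCompact_univ.eventually_forall_of_forall_eventually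
    intro ω _
    have hc : Continuous (fun z : Ω × Ω => |g (z.2 + z.1) - g z.2|) := by fun_prop
    have h2 : (fun z : Ω × Ω => |g (z.2 + z.1) - g z.2|) (0, ω) < δ := by simpa using hδ
    exact hc.continuousAt.eventually (gt_mem_nhds h2)
  obtain ⟨V, hV, hVo, h0V⟩ := mem_nhds_iff.mp h1
  obtain ⟨U, hU, hUV⟩ := exists_small V hVo h0V
  exact ⟨U, hU, fun ω u hu => hV (hUV hu) ω (Set.mem_univ _)⟩

/-- a chain of open subgroups with prescribed lower bounds on the periods -/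
lemma exists_chainU [Infinite Ω] (α : Ω) (hα : Dense (Set.range (fun n : ℤ => n • α)))
    (U : AddSubgroup Ω) (hU : IsOpen (U : Set Ω)) (M : ℕ → ℕ) :
    ∃ (Us : ℕ → AddSubgroup Ω) (N : ℕ → ℕ), (∀ s, IsOpen (Us s : Set Ω)) ∧ Us 0 ≤ U ∧
      (∀ s, Us (s + 1) ≤ Us s) ∧ (∀ s, M s ≤ N s) ∧ ∀ s (k : ℤ), k • α ∈ Us s ↔ (N s : ℤ) ∣ k := by
  choose f hf1 hf2 N hN1 hN2 hN3 using
    fun (U : {U : AddSubgroup Ω // IsOpen (U : Set Ω)}) (M : ℕ) => exists_big α hα U.1 U.2 M
  let G : ℕ → {U : AddSubgroup Ω // IsOpen (U : Set Ω)} := fun s =>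
    Nat.rec ⟨U, hU⟩ (fun s U => ⟨f U (M s), hf1 U (M s)⟩) s
  have hG0 : (G 0).1 = U := rfl
  have hGs : ∀ s, (G (s + 1)).1 = f (G s) (M s) := fun s => rfl
  refine ⟨fun s => (G (s + 1)).1, fun s => N (G s) (M s), fun s => (G (s + 1)).2, ?_, ?_,
    fun s => hN1 _ _, fun s k => ?_⟩
  · exact hf2 ⟨U, hU⟩ (M 0)
  · intro s; exact hf2 (G (s + 1)) (M (s + 1))
  · simp only [hGs]; exact hN3 _ _ k

theorem main [Infinite Ω] (α : Ω) (hα : Dense (Set.range (fun n : ℤ => n • α))) :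
    ∃ D : Set C(Ω, ℝ), Dense D ∧ ∀ f ∈ D, ∀ ω : Ω,
      (Submodule.span ℂ (eigset (fun n : ℤ => f (ω + n • α)))).topologicalClosure = ⊤ := by
  refine ⟨{f | ∀ ω : Ω, (Submodule.span ℂ
    (eigset (fun n : ℤ => f (ω + n • α)))).topologicalClosure = ⊤}, ?_, fun f hf => hf⟩
  rw [Metric.dense_iff]
  intro g r hr
  set δ : ℝ := r / 8 with hδdef
  have hδ : 0 < δ := by positivity
  -- periodic approximation
  obtain ⟨U₀, hU₀, hU₀g⟩ := exists_unif g δ hδ
  obtain ⟨N₀, hN₀, hN₀mem⟩ := exists_period α U₀ hU₀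
  set V₀ : ℤ → ℝ := fun k => g ((k % N₀) • α) with hV₀
  have hV₀per : ∀ x, V₀ (x + N₀) = V₀ x := by
    intro x
    simp only [hV₀]
    rw [Int.add_emod_right]
  have hV₀g : ∀ k : ℤ, |V₀ k - g (k • α)| ≤ δ := by
    intro k
    have h1 : (k % N₀) • α = k • α + (-(N₀ * (k / N₀))) • α := by
      rw [← add_smul]
      congr 1
      have := Int.emod_add_mul_ediv k N₀
      linarith
    simp only [hV₀]
    rw [h1]
    apply (hU₀g _ _ _).le
    rw [hN₀mem]
    exact (dvd_mul_right _ _).neg_right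
  obtain ⟨nstar, hns⟩ := main_Z V₀ N₀ hN₀ hV₀per δ hδ
  obtain ⟨U₁, hU₁, hU₁le, n, hn, hn0, hnmem⟩ := exists_big α hα U₀ hU₀ nstar
  have hN₀n : N₀ ∣ n := by
    have h1 : (n : ℤ) • α ∈ U₁ := (hnmem n).mpr (dvd_refl _)
    have h2 := (hN₀mem n).mp (hU₁le h1)
    exact_mod_cast h2
  obtain ⟨Us, N, hUso, hUs0, hUsd, hNM, hNmem⟩ := exists_chainU α hα U₁ hU₁
    (fun s => stretch s * n)
  have hnN0 : n ∣ N 0 := by
    have h1 : (N 0 : ℤ) • α ∈ Us 0 := (hNmem 0 _).mpr (dvd_refl _)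
    have h2 := (hnmem _).mp (hUs0 h1)
    exact_mod_cast h2
  have hNd : ∀ s, N s ∣ N (s + 1) := by
    intro s
    have h1 : (N (s + 1) : ℤ) • α ∈ Us (s + 1) := (hNmem (s + 1) _).mpr (dvd_refl _)
    have h2 := (hNmem s _).mp (hUsd s h1)
    exact_mod_cast h2
  obtain ⟨W, d, hWper, hWV, hWd, hd0, hdh, hdδ, hpp⟩ := hns n hn hN₀n N hnN0 hNd hNM
  choose F hF using fun s => exists_sampling α hα (Us s) (hUso s) (N s) (hNmem s) (W s) (hWper s)
  -- the increments
  have hstep : ∀ s, dist (F s) (F (s + 1)) ≤ d s := by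
    intro s
    rw [ContinuousMap.dist_le (hd0 s).le]
    intro ω
    obtain ⟨k, hk⟩ := exists_hit α hα (Us (s + 1)) (hUso (s + 1)) ω
    rw [hF (s + 1) ω k hk, hF s ω k (hUsd s hk), Real.dist_eq, abs_sub_comm,
      abs_of_nonneg (hWd s k).1]
    exact (hWd s k).2
  have htel : ∀ s j, dist (F s) (F (s + j)) ≤ 2 * (d s - d (s + j)) := by
    intro s j
    induction j with
    | zero => simp
    | succ j ih =>
      have h1 := hstep (s + j)
      have h2 := hdh (s + j)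
      have h3 := dist_triangle (F s) (F (s + j)) (F (s + j + 1))
      rw [show s + (j + 1) = s + j + 1 by ring]
      linarith
  have hdle : ∀ s, d s ≤ d 0 * (1 / 2) ^ s := by
    intro s
    induction s with
    | zero => simp
    | succ s ih =>
      have := hdh s
      rw [pow_succ]
      linarith
  have hcauchy : CauchySeq F := by
    apply cauchySeq_of_le_geometric (1 / 2) (d 0) (by norm_num)
    intro s
    exact (hstep s).trans (hdle s)
  obtain ⟨f, hf⟩ := cauchySeq_tendsto_of_complete hcauchy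
  have hfs : ∀ s, dist (F s) f ≤ 2 * d s := by
    intro s
    have h1 : Tendsto (fun j => F (s + j)) atTop (𝓝 f) := by
      have := hf.comp (tendsto_add_atTop_nat s)
      refine this.congr fun j => ?_
      simp only [Function.comp_apply]
      rw [add_comm]
    refine le_of_tendsto (tendsto_const_nhds.dist h1) (Eventually.of_forall fun j => ?_)
    have := htel s j
    have := hd0 (s + j)
    linarith
  refine ⟨f, ?_, ?_⟩
  · -- closeness to `g`
    rw [Metric.mem_ball]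
    have h1 : dist f g ≤ 5 * δ := by
      rw [ContinuousMap.dist_le (by positivity)]
      intro ω
      obtain ⟨k, hk⟩ := exists_hit α hα (Us 0) (hUso 0) ω
      have h2 := ContinuousMap.dist_apply_le_dist (f := F 0) (g := f) ω
      have h3 := h2.trans (hfs 0)
      rw [hF 0 ω k hk, Real.dist_eq] at h3
      have h4 := hWV k
      have h5 := hV₀g k
      have h6 := (hU₀g ω (k • α - ω) (hU₁le (hUs0 hk))).le
      rw [add_sub_cancel] at h6
      rw [Real.dist_eq]
      rw [abs_le] at h3 h4 h5 h6 ⊢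
      constructor <;> linarith [h3.1, h3.2, h4.1, h4.2, h5.1, h5.2, h6.1, h6.2]
    have h7 : 5 * δ < r := by rw [hδdef]; linarith
    linarith
  · intro ω
    apply hpp
    intro s
    obtain ⟨m, hm⟩ := exists_hit α hα (Us s) (hUso s) ω
    refine ⟨m, fun x => ?_⟩
    have h1 := ContinuousMap.dist_apply_le_dist (f := F s) (g := f) (ω + x • α)
    have h2 := h1.trans (hfs s)
    rw [hF s (ω + x • α) (x + m) (by
      have : (x + m) • α - (ω + x • α) = m • α - ω := by
        rw [add_smul]; abel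
      rw [this]; exact hm), Real.dist_eq, abs_sub_comm] at h2
    exact h2

end

end Pool.Agent.N658.PP
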